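import Mathlib

set_option autoImplicit false

open Set

namespace Pool.Agent.Helper2.MK

/-- The action is free and properly discontinuous with compact quotient, by homeomorphisms: each
`g` acts continuously, nontrivial elements have no fixed points, only finitely many translates of a
compact set meet it, and some compact set meets every orbit. -/
structure IsCocompactCovering (G Y : Type*) [Group G] [TopologicalSpace Y] [MulAction G Y] :
    Prop where
  /-- every group element acts continuously -/
  continuous_smul : ∀ g : G, Continuous fun y : Y => g • y
  /-- the action is free -/
  free : ∀ (g : G) (y : Y), g • y = y → g = 1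
  /-- the action is properly discontinuous -/
  proper : ∀ K : Set Y, IsCompact K → {g : G | (((fun y => g • y) '' K) ∩ K).Nonempty}.Finite
  /-- the quotient is compact: some compact set meets every orbit -/
  cocompact : ∃ K : Set Y, IsCompact K ∧ ∀ y, ∃ g : G, g • y ∈ K

/-- The affine automorphism `A` preserves volume: its linear part has determinant `1` or `-1`. -/
def PreservesVolume {V : Type*} [NormedAddCommGroup V] [NormedSpace ℝ V] (A : V ≃ᵃ[ℝ] V) : Prop :=
  |LinearMap.det (A.linear : V →ₗ[ℝ] V)| = 1

/-- The developed picture of a compact affine manifold `M` modelled on the real vector space `V`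
(for instance `ℝⁿ`), with parallel volume: `Y` is the universal cover of `M` (or any cover on which
the developing map is defined), `G` is the deck group, so `M` is the quotient of `Y` by `G`, `dev` is
the developing map and `hol g` is the affine holonomy of `g`. -/
structure AffineDeveloping (V G Y : Type*) [NormedAddCommGroup V] [NormedSpace ℝ V] [Group G]
    [TopologicalSpace Y] [MulAction G Y] where
  /-- the developing map -/
  dev : Y → V
  /-- the affine holonomy -/
  hol : G → (V ≃ᵃ[ℝ] V)
  /-- the developing map is a local homeomorphism -/
  dev_local : IsLocalHomeomorph dev
  /-- the holonomy is a homomorphism -/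
  hol_mul : ∀ (g g' : G) (x : V), hol (g * g') x = hol g (hol g' x)
  /-- the developing map is equivariant -/
  dev_smul : ∀ (g : G) (y : Y), dev (g • y) = hol g (dev y)
  /-- parallel volume (up to sign) -/
  volume_hol : ∀ g : G, PreservesVolume (hol g)
  /-- `G` acts on `Y` as the deck group of a covering of a compact space -/
  covering : IsCocompactCovering G Y

/-- The set `A` is invariant under the affine holonomy. -/
def AffineDeveloping.Invariant {V G Y : Type*} [NormedAddCommGroup V] [NormedSpace ℝ V] [Group G]
    [TopologicalSpace Y] [MulAction G Y] (M : AffineDeveloping V G Y) (A : Set V) : Prop :=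
  ∀ (g : G), ∀ x ∈ A, M.hol g x ∈ A

section

variable {V G Y : Type*} [NormedAddCommGroup V] [NormedSpace ℝ V] [Group G]
    [TopologicalSpace Y] [MulAction G Y] (M : AffineDeveloping V G Y)

/-- The holonomy as a homomorphism of groups. -/
def AffineDeveloping.holHom : G →* (V ≃ᵃ[ℝ] V) :=
  MonoidHom.mk' M.hol fun g g' => AffineEquiv.ext fun x => M.hol_mul g g' x

end

end Pool.Agent.Helper2.MK
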