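import Pool.Agent.Helper2.MK.Star
import Pool.Agent.Helper2.MK.Data

/-!
# Affine holonomy of compact affine manifolds with parallel volume

Let `M` be a compact affine manifold with parallel volume, modelled on a finite-dimensional real
vector space `V` (for instance `ℝⁿ`), with developing map `dev : Y → V` and affine holonomy
`hol : G → Aff(V)`.  We show that no nonempty proper convex subset of `V` is invariant under
the holonomy; more generally an invariant subset which is star-shaped about one of its points is
all of `V`.

In particular (theorem `complete_of_star` below) a compact affine manifold with parallel volume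
whose developing map is injective with convex, or just star-shaped, image is complete.

Idea of the proof.  The integral over `M` of the Jacobian determinant (in affine coordinates) of any
holonomy-equivariant locally Lipschitz map `F : Y → V` equals the volume of `M`, since the
determinant is a null Lagrangian and `F` can be deformed to `dev` by straight lines.  If a
proper convex set is invariant we construct an equivariant map into the boundary of an
invariant open convex set, or into an invariant proper affine subspace; its Jacobian determinant
vanishes identically, which is a contradiction.
-/

set_option autoImplicit false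

open Set MeasureTheory

namespace Pool.Agent.Results.MP_df2bd8_gt.NoInvariantStarShaped

open Pool.Agent.Helper2.MK

/-- A holonomy-invariant subset of `V` that is star-shaped about one of its points (for instance a
nonempty convex one) is all of `V`, for every compact affine manifold with parallel volume. -/
theorem result {V G Y : Type*} [NormedAddCommGroup V] [NormedSpace ℝ V] [FiniteDimensional ℝ V]
    [Group G] [TopologicalSpace Y] [T2Space Y] [Nonempty Y] [MulAction G Y]
    (M : AffineDeveloping V G Y) (A : Set V) (hinv : M.Invariant A) (c : V) (hc : c ∈ A)
    (hstar : StarConvex ℝ c A) : A = univ := by
  have : ContinuousConstSMul G Y := ⟨M.covering.continuous_smul⟩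
  let _ : MeasurableSpace V := borel V
  have : BorelSpace V := ⟨rfl⟩
  exact no_invariant_star (h := M.holHom) (fun K hK => M.covering.proper K hK) M.covering.free
    M.dev_local M.dev_smul M.volume_hol M.covering.cocompact hinv hc hstar

/-- The convex case: no nonempty proper convex subset is invariant. -/
theorem convex_case {V G Y : Type*} [NormedAddCommGroup V] [NormedSpace ℝ V]
    [FiniteDimensional ℝ V] [Group G] [TopologicalSpace Y] [T2Space Y] [Nonempty Y] [MulAction G Y]
    (M : AffineDeveloping V G Y) (C : Set V) (hinv : M.Invariant C) (hne : C.Nonempty)
    (hC : Convex ℝ C) : C = univ := by
  obtain ⟨c, hc⟩ := hne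
  exact result M C hinv c hc (hC hc)

/-- The Markus conjecture for compact affine manifolds whose developing map is injective with
star-shaped (for instance convex) image. -/
theorem complete_of_star {V G Y : Type*} [NormedAddCommGroup V] [NormedSpace ℝ V]
    [FiniteDimensional ℝ V] [Group G] [TopologicalSpace Y] [T2Space Y] [Nonempty Y] [MulAction G Y]
    (M : AffineDeveloping V G Y) (hinj : Function.Injective M.dev) (c : V) (hc : c ∈ range M.dev)
    (hstar : StarConvex ℝ c (range M.dev)) : ∃ e : Y ≃ₜ V, ⇑e = M.dev := by
  have h1 : range M.dev = univ := by
    refine result M _ ?_ c hc hstar
    rintro g _ ⟨y, rfl⟩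
    exact ⟨g • y, M.dev_smul g y⟩
  have hbij : Function.Bijective M.dev := ⟨hinj, range_eq_univ.mp h1⟩
  exact ⟨M.dev_local.toHomeomorphOfBijective hbij, rfl⟩

end Pool.Agent.Results.MP_df2bd8_gt.NoInvariantStarShaped
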