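import Pool.Agent.Helper2.MK.Null

set_option autoImplicit false
set_option linter.unusedSectionVars false

open Set MeasureTheory Metric Filter Topology
open scoped NNReal ENNReal

namespace Pool.Agent.Helper2.MK

universe u

variable {V : Type*} [NormedAddCommGroup V] [NormedSpace ℝ V] [FiniteDimensional ℝ V]
  [MeasurableSpace V] [BorelSpace V]
variable {Y : Type u} [TopologicalSpace Y] [T2Space Y]
variable {G : Type*} [Group G] [MulAction G Y] [ContinuousConstSMul G Y]
variable {D : Y → V} {h : G →* (V ≃ᵃ[ℝ] V)}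

/-- The kernel of a star-shaped set is convex. -/
theorem convex_starKernel (A : Set V) : Convex ℝ {c | c ∈ A ∧ StarConvex ℝ c A} := by
  rintro x ⟨hxA, hx⟩ y ⟨hyA, hy⟩ a b ha hb hab
  refine ⟨hx hyA ha hb hab, ?_⟩
  intro p hp s t hs ht hst
  rcases (add_nonneg (mul_nonneg hs hb) ht).eq_or_lt with hm | hm
  · have ht0 : t = 0 := by nlinarith [mul_nonneg hs hb]
    have hs1 : s = 1 := by linarith
    have hb0 : b = 0 := by rw [ht0, hs1] at hm; linarith
    have ha1 : a = 1 := by linarith
    rw [ht0, hs1, hb0, ha1]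
    simpa using hxA
  · have hu := hy hp (div_nonneg (mul_nonneg hs hb) hm.le) (div_nonneg ht hm.le)
      (by rw [← add_div, div_self hm.ne'])
    have hv := hx hu (mul_nonneg hs ha) hm.le (by nlinarith)
    have e : (s * a) • x + (s * b + t) • ((s * b / (s * b + t)) • y + (t / (s * b + t)) • p)
        = s • (a • x + b • y) + t • p := by
      rw [smul_add (s * b + t), smul_smul (s * b + t), smul_smul (s * b + t),
        mul_div_cancel₀ _ hm.ne', mul_div_cancel₀ _ hm.ne']
      module
    rwa [e] at hv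

theorem affine_combo (A : V ≃ᵃ[ℝ] V) (x y : V) {a b : ℝ} (hab : a + b = 1) :
    A (a • x + b • y) = a • A x + b • A y := by
  rw [affine_apply, affine_apply A x, affine_apply A y, map_add, map_smul, map_smul]
  have : A 0 = a • A 0 + b • A 0 := by rw [← add_smul, hab, one_smul]
  nth_rewrite 1 [this]
  simp only [smul_add]
  abel

/-- An invariant star-shaped set is everything. -/
theorem no_invariant_star [Nonempty Y] (hPD : PD G Y)
    (hfree : ∀ (g : G) (y : Y), g • y = y → g = 1) (hDloc : IsLocalHomeomorph D)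
    (hD : ∀ (g : G) y, D (g • y) = h g (D y))
    (hdet : ∀ g, |LinearMap.det ((h g).linear : V →ₗ[ℝ] V)| = 1)
    (hcoc : ∃ K : Set Y, IsCompact K ∧ ∀ y, ∃ g : G, g • y ∈ K)
    {A : Set V} (hAinv : ∀ (g : G), ∀ x ∈ A, h g x ∈ A) {c : V} (hc : c ∈ A)
    (hstar : StarConvex ℝ c A) : A = univ := by
  have h1 : {c | c ∈ A ∧ StarConvex ℝ c A} = univ := by
    refine no_invariant_convex hPD hfree hDloc hD hdet hcoc (convex_starKernel A)
      ⟨c, hc, hstar⟩ ?_
    rintro g x ⟨hxA, hx⟩
    refine ⟨hAinv g x hxA, ?_⟩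
    intro p hp a b ha hb hab
    have h2 : h g (h g⁻¹ p) = p := by
      have : (h g * h g⁻¹) p = p := by rw [← map_mul, mul_inv_cancel, map_one]; rfl
      exact this
    have h3 := hAinv g _ (hx (hAinv g⁻¹ p hp) ha hb hab)
    rwa [affine_combo _ _ _ hab, h2] at h3
  rw [eq_univ_iff_forall]
  intro x
  have hx : x ∈ {c | c ∈ A ∧ StarConvex ℝ c A} := by rw [h1]; exact mem_univ x
  exact hx.1

end Pool.Agent.Helper2.MK
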