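import Pool.Agent.Helper2.MK.Shoot

set_option autoImplicit false
set_option linter.unusedSectionVars false

open Set MeasureTheory Metric Filter Topology
open scoped NNReal ENNReal

namespace Pool.Agent.Helper2.MK

universe u

section

variable {V : Type*} [NormedAddCommGroup V] [NormedSpace ℝ V] [FiniteDimensional ℝ V]
  [MeasurableSpace V] [BorelSpace V]
variable {Y : Type u} [TopologicalSpace Y] [T2Space Y]
variable {G : Type*} [Group G] [MulAction G Y] [ContinuousConstSMul G Y]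
variable {D : Y → V} {h : G →* (V ≃ᵃ[ℝ] V)}
variable {W : Type*} [NormedAddCommGroup W] [NormedSpace ℝ W]
variable {W' : Type*} [NormedAddCommGroup W'] [NormedSpace ℝ W']

/-- The translates of `ρ` form a partition of unity. -/
def IsWeight (G : Type*) {Y : Type*} [Group G] [MulAction G Y] (ρ : Y → ℝ) : Prop :=
  (∀ z, 0 ≤ ρ z) ∧ ∀ y, ∃ T : Finset G, (∀ g ∉ T, ρ (g⁻¹ • y) = 0) ∧ ∑ g ∈ T, ρ (g⁻¹ • y) = 1

theorem exists_weight (hPD : PD G Y) (hfree : ∀ (g : G) (y : Y), g • y = y → g = 1)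
    (hDloc : IsLocalHomeomorph D) (hD : ∀ (g : G) y, D (g • y) = h g (D y))
    (hcoc : ∃ K : Set Y, IsCompact K ∧ ∀ y, ∃ g : G, g • y ∈ K) :
    ∃ (ρ : Y → ℝ) (S : Set Y), IsCompact S ∧ DLip D ρ ∧ (∀ z ∉ S, ρ z = 0) ∧ IsWeight G ρ := by
  classical
  obtain ⟨J, _, e, S, ρ, he, hS, hSe, hdisj, hρ, hρnn, hρ0, hsum⟩ :=
    exists_partition hPD hfree hDloc hD hcoc
  refine ⟨fun y => ∑ j, ρ j y, ⋃ j, S j, isCompact_iUnion hS, DLip.sum _ fun j _ => hρ j,
    fun z hz => ?_, fun z => Finset.sum_nonneg fun j _ => hρnn j z, fun y => ?_⟩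
  · apply Finset.sum_eq_zero
    intro j _
    apply hρ0
    exact fun hcon => hz (mem_iUnion.mpr ⟨j, hcon⟩)
  · have : ∀ j, ∃ T : Finset G, ∀ g ∉ T, g⁻¹ • y ∉ S j := fun j => exists_finset hPD (hS j) y
    choose T hT using this
    have h1 : ∀ g ∉ Finset.univ.biUnion T, ∀ j, ρ j (g⁻¹ • y) = 0 := by
      intro g hg j
      apply hρ0
      apply hT
      exact fun hcon => hg (Finset.mem_biUnion.mpr ⟨j, Finset.mem_univ _, hcon⟩)
    refine ⟨Finset.univ.biUnion T, fun g hg => Finset.sum_eq_zero fun j _ => h1 g hg j, ?_⟩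
    have h2 := hsum y ((Finset.univ.biUnion T).image (·⁻¹)) (fun g hg j => by
      have := h1 g⁻¹ (fun hcon => hg (Finset.mem_image.mpr ⟨g⁻¹, hcon, by simp⟩)) j
      simpa using this)
    rw [Finset.sum_image (fun a _ b _ hab => inv_injective hab)] at h2
    exact h2

variable {ρ : Y → ℝ}

theorem gsum_mem (hw : IsWeight G ρ) {C : Set W} (hC : Convex ℝ C) {c : G → W}
    (hc : ∀ g, c g ∈ C) (y : Y) : gsum ρ c y ∈ C := by
  obtain ⟨T, hT, hT1⟩ := hw.2 y
  rw [gsum_eq c hT]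
  exact hC.sum_mem (fun g _ => hw.1 _) hT1 fun g _ => hc g

theorem gsum_clin (hw : IsWeight G ρ) (L : W →L[ℝ] W') (c : G → W) (y : Y) :
    L (gsum ρ c y) = gsum ρ (fun g => L (c g)) y := by
  obtain ⟨T, hT, hT1⟩ := hw.2 y
  rw [gsum_eq c hT, gsum_eq _ hT, map_sum]
  simp only [map_smul]

theorem gsum_affine (hw : IsWeight G ρ) (A : V ≃ᵃ[ℝ] V) (c : G → V) (y : Y) :
    A (gsum ρ c y) = gsum ρ (fun g => A (c g)) y := by
  obtain ⟨T, hT, hT1⟩ := hw.2 y
  rw [affine_apply, gsum_clin hw]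
  simp only [affine_apply A (c _)]
  rw [gsum_eq _ hT, gsum_eq _ hT]
  simp only [smul_add, Finset.sum_add_distrib]
  rw [← Finset.sum_smul, hT1, one_smul]

theorem affine_add (A : V ≃ᵃ[ℝ] V) (p v : V) : A (p + v) = A p + clin A v := by
  rw [affine_apply, affine_apply A p, map_add]
  abel

theorem det_zero_of_supp {f : V → V} {x : V} {B : Set V} (hB : Supp B) (hf : ∀ w, f w ∈ B) :
    (fderiv ℝ f x).det = 0 := by
  obtain ⟨ℓ, hℓ, hmax⟩ := hB _ (hf x)
  have h1 : ∀ v, ℓ (fderiv ℝ f x v) = 0 := by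
    intro v
    by_cases hd : DifferentiableAt ℝ f x
    · have h2 : HasFDerivAt (fun w => ℓ (f w)) (ℓ.comp (fderiv ℝ f x)) x :=
        ℓ.hasFDerivAt.comp x hd.hasFDerivAt
      have h3 : IsLocalMax (fun w => ℓ (f w)) x := Eventually.of_forall fun w => hmax _ (hf w)
      have h4 := h3.hasFDerivAt_eq_zero h2
      have := congrArg (fun T : V →L[ℝ] ℝ => T v) h4
      simpa using this
    · rw [fderiv_zero_of_not_differentiableAt hd]
      simp
  by_contra hdet
  apply hℓ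
  have h5 : IsUnit (LinearMap.det ((fderiv ℝ f x : V →L[ℝ] V) : V →ₗ[ℝ] V)) :=
    isUnit_iff_ne_zero.mpr hdet
  ext v
  have h6 := (LinearMap.equivOfDetNeZero _ (isUnit_iff_ne_zero.mp h5)).surjective v
  obtain ⟨u, hu⟩ := h6
  have hu' : fderiv ℝ f x u = v := hu
  rw [← hu', h1]
  rfl

/-- There is no equivariant map into a set all of whose points lie on the boundary of its convex
hull. -/
theorem no_supp [Nonempty Y] (hPD : PD G Y)
    (hfree : ∀ (g : G) (y : Y), g • y = y → g = 1) (hDloc : IsLocalHomeomorph D)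
    (hD : ∀ (g : G) y, D (g • y) = h g (D y))
    (hdet : ∀ g, |LinearMap.det ((h g).linear : V →ₗ[ℝ] V)| = 1)
    (hcoc : ∃ K : Set Y, IsCompact K ∧ ∀ y, ∃ g : G, g • y ∈ K)
    {F : Y → V} (hFl : DLip D F) (hF : ∀ (g : G) y, F (g • y) = h g (F y))
    {B : Set V} (hB : Supp B) (hFB : ∀ y, F y ∈ B) : False :=
  no_singular (Measure.addHaar : Measure V) hPD hfree hDloc hD hdet hcoc hFl hF fun _ _ =>
    ae_of_all _ fun _ => det_zero_of_supp hB fun _ => hFB _

/-- No invariant nonempty convex set with the support property. -/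
theorem no_supp_convex [Nonempty Y] (hPD : PD G Y)
    (hfree : ∀ (g : G) (y : Y), g • y = y → g = 1) (hDloc : IsLocalHomeomorph D)
    (hD : ∀ (g : G) y, D (g • y) = h g (D y))
    (hdet : ∀ g, |LinearMap.det ((h g).linear : V →ₗ[ℝ] V)| = 1)
    (hcoc : ∃ K : Set Y, IsCompact K ∧ ∀ y, ∃ g : G, g • y ∈ K)
    {B : Set V} (hBc : Convex ℝ B) (hB : Supp B) (hBne : B.Nonempty)
    (hBinv : ∀ (g : G), ∀ x ∈ B, h g x ∈ B) : False := by
  obtain ⟨ρ, S, hS, hρ, hρ0, hw⟩ := exists_weight hPD hfree hDloc hD hcoc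
  obtain ⟨c₀, hc₀⟩ := hBne
  refine no_supp hPD hfree hDloc hD hdet hcoc (F := gsum ρ fun g => h g c₀)
    (hρ.gsum hPD hDloc hD hS hρ0 _) (fun g y => ?_) hB (gsum_mem hw hBc fun g => hBinv g c₀ hc₀)
  rw [gsum_smul_left, gsum_affine hw]
  simp only [map_mul]
  rfl

/-- Case B1: the invariant open convex set has a non-reversible recession direction. -/
theorem case_ray [Nonempty Y] (hPD : PD G Y)
    (hfree : ∀ (g : G) (y : Y), g • y = y → g = 1) (hDloc : IsLocalHomeomorph D)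
    (hD : ∀ (g : G) y, D (g • y) = h g (D y))
    (hdet : ∀ g, |LinearMap.det ((h g).linear : V →ₗ[ℝ] V)| = 1)
    (hcoc : ∃ K : Set Y, IsCompact K ∧ ∀ y, ∃ g : G, g • y ∈ K)
    {C : Set V} (hC : Convex ℝ C) (hCo : IsOpen C) (hCne : C.Nonempty)
    (hCinv : ∀ (g : G), ∀ x ∈ C, h g x ∈ C) {v₀ : V} (hv₀ : v₀ ∈ recDir C)
    (hv₀' : -v₀ ∉ recDir C) : False := by
  obtain ⟨ρ, S, hS, hρ, hρ0, hw⟩ := exists_weight hPD hfree hDloc hD hcoc
  have hDc := hDloc.continuous
  obtain ⟨c₀, hc₀⟩ := hCne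
  have hrec : ∀ g : G, ∀ v ∈ recDir C, clin (h g) v ∈ recDir C := by
    intro g v hv x hx
    have h1 : h g (h g⁻¹ x + v) ∈ C := hCinv g _ (hv _ (hCinv g⁻¹ x hx))
    have h2 : h g (h g⁻¹ x) = x := by
      have : (h g * h g⁻¹) x = x := by rw [← map_mul, mul_inv_cancel, map_one]; rfl
      exact this
    rwa [affine_add, h2] at h1
  have hcl : ∀ (g : G) (v : V), clin (h g⁻¹) (clin (h g) v) = v := by
    intro g v
    have : (clin (h g⁻¹)).comp (clin (h g)) v = v := by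
      rw [← clin_mul, ← map_mul, inv_mul_cancel, map_one, clin_one]; rfl
    exact this
  have hrec' : ∀ g : G, clin (h g) v₀ ∈ {v | v ∈ recDir C ∧ -v ∉ recDir C} := by
    intro g
    refine ⟨hrec g v₀ hv₀, fun hcon => hv₀' ?_⟩
    have := hrec g⁻¹ _ hcon
    rwa [map_neg, hcl] at this
  set F₀ : Y → V := gsum ρ fun g => h g c₀ with hF₀
  set v : Y → V := gsum ρ fun g => clin (h g) v₀ with hv
  have hF₀l : DLip D F₀ := hρ.gsum hPD hDloc hD hS hρ0 _
  have hvl : DLip D v := hρ.gsum hPD hDloc hD hS hρ0 _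
  have hF₀C : ∀ y, F₀ y ∈ C := gsum_mem hw hC fun g => hCinv g c₀ hc₀
  have hvrec : ∀ y, v y ∈ {v | v ∈ recDir C ∧ -v ∉ recDir C} :=
    gsum_mem hw (convex_rec' hC) hrec'
  have hF₀e : ∀ (g : G) y, F₀ (g • y) = h g (F₀ y) := by
    intro g y
    simp only [hF₀]
    rw [gsum_smul_left, gsum_affine hw]
    simp only [map_mul]
    rfl
  have hve : ∀ (g : G) y, v (g • y) = clin (h g) (v y) := by
    intro g y
    simp only [hv]
    rw [gsum_smul_left, gsum_clin hw]
    simp only [map_mul, clin_mul]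
    rfl
  set γ : Y → ℝ := fun y => gg C (F₀ y) (-v y) with hγ
  have hγpos : ∀ y, 0 < γ y := by
    intro y
    refine (gg_nonneg _ _ _).lt_of_ne' fun h0 => (hvrec y).2 ?_
    exact rec_of_ray hC hCo fun t ht => ray_of_gg_eq_zero hC hCo (hF₀C y) h0 ht
  have hγl : DLip D γ := by
    refine (hF₀l.prodMk hvl.neg).comp hDc (Φ := fun p : V × V => gg C p.1 p.2) fun y => ?_
    exact gg_locLip hC hCo (hF₀C y) _
  have hγe : ∀ (g : G) y, γ (g • y) = γ y := by
    intro g y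
    simp only [hγ, hF₀e, hve, gg]
    rw [gauge_def', gauge_def']
    congr 1
    ext r
    simp only [mem_ofPred_eq]
    refine and_congr_right fun hr => ?_
    rw [← map_neg, ← map_smul, ← affine_add]
    constructor
    · intro h1
      have h2 := hCinv g⁻¹ _ h1
      have h3 : ∀ x, h g⁻¹ (h g x) = x := by
        intro x
        have : (h g⁻¹ * h g) x = x := by rw [← map_mul, inv_mul_cancel, map_one]; rfl
        exact this
      rwa [h3] at h2
    · exact hCinv g _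
  refine no_supp hPD hfree hDloc hD hdet hcoc (F := fun y => F₀ y + (γ y)⁻¹ • (-v y))
    (hF₀l.add ((hγl.inv hDc hγpos).smul hDc hvl.neg)) (fun g y => ?_)
    (frontier_supp hC hCo ⟨c₀, hc₀⟩) (fun y => hit_frontier hC hCo (hF₀C y) (hγpos y))
  rw [hγe, hF₀e, hve, affine_add, map_smul, map_neg]

end

end Pool.Agent.Helper2.MK
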