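import Pool.Agent.Helper2.MK.NL

set_option autoImplicit false
set_option linter.unusedSectionVars false

open Set MeasureTheory Metric Filter Topology
open scoped NNReal ENNReal

namespace Pool.Agent.Helper2.MK

variable {V : Type*} [NormedAddCommGroup V] [NormedSpace ℝ V] [FiniteDimensional ℝ V]
  [MeasurableSpace V] [BorelSpace V] (μ : Measure V) [μ.IsAddHaarMeasure]

theorem glue_lipschitz {A₀ G₁ : V → V} {S S' : Set V} (hS : IsCompact S) (hSS' : S ⊆ interior S')
    {L₀ L₁ : ℝ≥0} (h0 : LipschitzWith L₀ A₀) (h1 : LipschitzOnWith L₁ G₁ S')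
    (heq : ∀ x ∈ S' \ S, G₁ x = A₀ x) [DecidablePred (· ∈ S')] :
    ∃ L : ℝ≥0, LipschitzWith L (fun x => if x ∈ S' then G₁ x else A₀ x) := by
  have : ProperSpace V := FiniteDimensional.proper ℝ V
  obtain ⟨δ, hδ, hthick⟩ := hS.exists_thickening_subset_open isOpen_interior hSS'
  have hcont : ContinuousOn (fun x => G₁ x - A₀ x) S :=
    (h1.mono (hSS'.trans interior_subset)).continuousOn.sub h0.continuous.continuousOn
  obtain ⟨M, hM⟩ := hS.exists_bound_of_continuousOn hcont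
  have hM' : ∀ x ∈ S, ‖G₁ x - A₀ x‖ ≤ |M| := fun x hx => (hM x hx).trans (le_abs_self M)
  set K : ℝ := L₀ + L₁ + |M| / δ with hK
  have hKnn : 0 ≤ K := by positivity
  have key : ∀ x y, x ∈ S' → y ∉ S' → ‖G₁ x - A₀ y‖ ≤ K * ‖x - y‖ := by
    intro x y hx hy
    by_cases hxS : x ∈ S
    · have hd : δ ≤ ‖x - y‖ := by
        by_contra hcon
        rw [not_le] at hcon
        apply hy
        apply interior_subset
        apply hthick
        rw [mem_thickening_iff]
        exact ⟨x, hxS, by rwa [dist_comm, dist_eq_norm]⟩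
      have e1 : ‖A₀ x - A₀ y‖ ≤ L₀ * ‖x - y‖ := by
        simpa [dist_eq_norm] using h0.dist_le_mul x y
      have e2 : |M| ≤ |M| / δ * ‖x - y‖ := by
        rw [div_mul_eq_mul_div, le_div_iff₀ hδ]
        gcongr
      calc ‖G₁ x - A₀ y‖ = ‖(G₁ x - A₀ x) + (A₀ x - A₀ y)‖ := by congr 1; abel
        _ ≤ ‖G₁ x - A₀ x‖ + ‖A₀ x - A₀ y‖ := norm_add_le _ _
        _ ≤ |M| / δ * ‖x - y‖ + L₀ * ‖x - y‖ := add_le_add ((hM' x hxS).trans e2) e1
        _ ≤ K * ‖x - y‖ := by
          rw [hK]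
          have := mul_nonneg L₁.coe_nonneg (norm_nonneg (x - y))
          nlinarith
    · rw [heq x ⟨hx, hxS⟩]
      have e1 : ‖A₀ x - A₀ y‖ ≤ L₀ * ‖x - y‖ := by
        simpa [dist_eq_norm] using h0.dist_le_mul x y
      refine e1.trans ?_
      gcongr
      rw [hK]
      have : 0 ≤ (L₁ : ℝ) + |M| / δ := by positivity
      linarith
  refine ⟨Real.toNNReal K, LipschitzWith.of_dist_le_mul fun x y => ?_⟩
  rw [dist_eq_norm, dist_eq_norm, Real.coe_toNNReal _ hKnn]
  by_cases hx : x ∈ S' <;> by_cases hy : y ∈ S'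
  · simp only [hx, hy, if_true]
    have e1 : ‖G₁ x - G₁ y‖ ≤ L₁ * ‖x - y‖ := by
      simpa [dist_eq_norm] using h1.dist_le_mul x hx y hy
    refine e1.trans ?_
    gcongr
    rw [hK]
    have : 0 ≤ (L₀ : ℝ) + |M| / δ := by positivity
    linarith
  · simp only [hx, hy, if_true, if_false]
    exact key x y hx hy
  · simp only [hx, hy, if_true, if_false]
    rw [norm_sub_rev, norm_sub_rev x y]
    exact key y x hy hx
  · simp only [hx, hy, if_false]
    have e1 : ‖A₀ x - A₀ y‖ ≤ L₀ * ‖x - y‖ := by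
      simpa [dist_eq_norm] using h0.dist_le_mul x y
    refine e1.trans ?_
    gcongr
    rw [hK]
    have : 0 ≤ (L₁ : ℝ) + |M| / δ := by positivity
    linarith

/-- **Null Lagrangian property of the determinant**, local version. -/
theorem nl_local {O S : Set V} (hO : IsOpen O) (hS : IsCompact S) (hSO : S ⊆ O) {G₀ G₁ : V → V}
    (h0 : LocallyLipschitzOn O G₀) (h1 : LocallyLipschitzOn O G₁)
    (heq : ∀ x ∈ O \ S, G₀ x = G₁ x) :
    ∫ x in S, (fderiv ℝ G₁ x).det ∂μ = ∫ x in S, (fderiv ℝ G₀ x).det ∂μ := by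
  classical
  have : ProperSpace V := FiniteDimensional.proper ℝ V
  obtain ⟨S', hS'c, hSS', hS'O⟩ := exists_compact_between hS hO hSO
  obtain ⟨L₀, hL₀⟩ := (h0.mono hS'O).exists_lipschitzOnWith_of_compact hS'c
  obtain ⟨L₁, hL₁⟩ := (h1.mono hS'O).exists_lipschitzOnWith_of_compact hS'c
  obtain ⟨A₀, hA₀, hA₀eq⟩ := hL₀.extend_finite_dimension
  obtain ⟨L, hL⟩ := glue_lipschitz hS hSS' hA₀ hL₁
    (fun x hx => by rw [← hA₀eq hx.1]; exact (heq x ⟨hS'O hx.1, hx.2⟩).symm)
  set A₁ : V → V := fun x => if x ∈ S' then G₁ x else A₀ x with hA₁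
  have hA₀' : LipschitzWith (max (lipschitzExtensionConstant V * L₀) L) A₀ :=
    hA₀.weaken (le_max_left _ _)
  have hA₁' : LipschitzWith (max (lipschitzExtensionConstant V * L₀) L) A₁ :=
    hL.weaken (le_max_right _ _)
  have hmain := nl_global μ hA₀' hA₁' hS.measurableSet hS.measure_lt_top.ne (by
    intro x hx
    simp only [hA₁]
    by_cases hx' : x ∈ S'
    · rw [if_pos hx', ← heq x ⟨hS'O hx', hx⟩]
      exact (hA₀eq hx').symm
    · rw [if_neg hx'])
  have e1 : ∫ x in S, (fderiv ℝ A₁ x).det ∂μ = ∫ x in S, (fderiv ℝ G₁ x).det ∂μ := by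
    apply setIntegral_congr_fun hS.measurableSet
    intro x hx
    simp only
    congr 1
    apply Filter.EventuallyEq.fderiv_eq
    filter_upwards [isOpen_interior.mem_nhds (hSS' hx)] with y hy
    simp only [hA₁, if_pos (interior_subset hy)]
  have e0 : ∫ x in S, (fderiv ℝ A₀ x).det ∂μ = ∫ x in S, (fderiv ℝ G₀ x).det ∂μ := by
    apply setIntegral_congr_fun hS.measurableSet
    intro x hx
    simp only
    congr 1
    apply Filter.EventuallyEq.fderiv_eq
    filter_upwards [isOpen_interior.mem_nhds (hSS' hx)] with y hy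
    exact (hA₀eq (interior_subset hy)).symm
  rw [← e1, ← e0]
  exact hmain

end Pool.Agent.Helper2.MK
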