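import Pool.Agent.Helper2.MK.Dev
import Pool.Agent.Helper2.MK.NLLocal

set_option autoImplicit false
set_option linter.unusedSectionVars false

open Set MeasureTheory Metric Filter Topology
open scoped NNReal ENNReal

namespace Pool.Agent.Helper2.MK

variable {V : Type*} [NormedAddCommGroup V] [NormedSpace ℝ V] [FiniteDimensional ℝ V]
  [MeasurableSpace V] [BorelSpace V] (μ : Measure V) [μ.IsAddHaarMeasure]
variable {Y : Type*} [TopologicalSpace Y]

theorem locLip_bdd_fderiv {f : V → V} {O K : Set V} (hO : IsOpen O) (hK : IsCompact K)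
    (hKO : K ⊆ O) (hf : LocallyLipschitzOn O f) : ∃ L : ℝ≥0, ∀ x ∈ K, ‖fderiv ℝ f x‖ ≤ L := by
  have : ProperSpace V := FiniteDimensional.proper ℝ V
  obtain ⟨K', hK'c, hKK', hK'O⟩ := exists_compact_between hK hO hKO
  obtain ⟨L, hL⟩ := (hf.mono hK'O).exists_lipschitzOnWith_of_compact hK'c
  exact ⟨L, fun x hx => norm_fderiv_le_of_lipschitzOn ℝ
    (mem_of_superset (isOpen_interior.mem_nhds (hKK' hx)) interior_subset) hL⟩

theorem integrableOn_det_fderiv {f : V → V} {O K : Set V} (hO : IsOpen O) (hK : IsCompact K)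
    (hKO : K ⊆ O) (hf : LocallyLipschitzOn O f) :
    IntegrableOn (fun x => (fderiv ℝ f x).det) K μ := by
  have : CompleteSpace V := FiniteDimensional.complete ℝ V
  obtain ⟨L, hL⟩ := locLip_bdd_fderiv hO hK hKO hf
  have hcomp : IsCompact (closedBall (0 : V →L[ℝ] V) L) := by
    have : ProperSpace (V →L[ℝ] V) := FiniteDimensional.proper ℝ _
    exact isCompact_closedBall _ _
  obtain ⟨M, hM⟩ := hcomp.exists_bound_of_continuousOn
    (ContinuousLinearMap.continuous_det (𝕜 := ℝ) (E := V)).continuousOn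
  apply Measure.integrableOn_of_bounded hK.measure_lt_top.ne (M := M)
  · exact (ContinuousLinearMap.continuous_det.measurable.comp
      (measurable_fderiv ℝ f)).aestronglyMeasurable
  · rw [ae_restrict_iff' hK.measurableSet]
    apply ae_of_all
    intro x hx
    apply hM
    rw [mem_closedBall, dist_zero_right]
    exact hL x hx

/-- Local integrability in the coordinate `D`. -/
def DInt (D : Y → V) (φ : Y → ℝ) : Prop :=
  ∀ e : OpenPartialHomeomorph Y V, ⇑e = D → ∀ K ⊆ e.source, IsCompact K →
    IntegrableOn (φ ∘ e.symm) (D '' K) μ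

variable {D : Y → V}

theorem image_subset_target {e : OpenPartialHomeomorph Y V} (he : ⇑e = D) {K : Set Y}
    (hK : K ⊆ e.source) : D '' K ⊆ e.target := by
  rintro _ ⟨y, hy, rfl⟩
  rw [← he]
  exact e.map_source (hK hy)

theorem isCompact_image {e : OpenPartialHomeomorph Y V} (he : ⇑e = D) {K : Set Y}
    (hK : K ⊆ e.source) (hKc : IsCompact K) : IsCompact (D '' K) := by
  rw [← he]
  exact hKc.image_of_continuousOn (e.continuousOn.mono hK)

theorem symm_D {e : OpenPartialHomeomorph Y V} (he : ⇑e = D) {y : Y} (hy : y ∈ e.source) :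
    e.symm (D y) = y := by
  rw [← he]; exact e.left_inv hy

theorem D_symm {e : OpenPartialHomeomorph Y V} (he : ⇑e = D) {x : V} (hx : x ∈ e.target) :
    D (e.symm x) = x := by
  rw [← he]; exact e.right_inv hx

theorem dd_symm (f : Y → V) {e : OpenPartialHomeomorph Y V} (he : ⇑e = D) {x : V}
    (hx : x ∈ e.target) : dd D f (e.symm x) = fderiv ℝ (f ∘ e.symm) x := by
  rw [dd_eq f he (e.map_target hx), D_symm he hx]

theorem DLip.dInt_det {f : Y → V} (hf : DLip D f) : DInt μ D (fun y => (dd D f y).det) := by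
  intro e he K hK hKc
  have h1 := integrableOn_det_fderiv μ e.open_target (isCompact_image he hK hKc)
    (image_subset_target he hK) (hf.locallyLipschitzOn he)
  refine h1.congr_fun (fun x hx => ?_) (isCompact_image he hK hKc).measurableSet
  simp only [Function.comp_apply]
  rw [dd_symm f he (image_subset_target he hK hx)]

theorem DInt.sub {φ ψ : Y → ℝ} (hφ : DInt μ D φ) (hψ : DInt μ D ψ) :
    DInt μ D (fun y => φ y - ψ y) := fun e he K hK hKc =>
  (hφ e he K hK hKc).sub (hψ e he K hK hKc)

theorem DInt.cont_mul {φ c : Y → ℝ} (hc : Continuous c) (hφ : DInt μ D φ) :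
    DInt μ D (fun y => c y * φ y) := by
  intro e he K hK hKc
  have h1 : ContinuousOn (c ∘ e.symm) (D '' K) :=
    hc.comp_continuousOn (e.continuousOn_symm.mono (image_subset_target he hK))
  exact (hφ e he K hK hKc).continuousOn_mul h1 (isCompact_image he hK hKc)

theorem affineEquiv_measurePreserving (A : V ≃ᵃ[ℝ] V)
    (hA : |LinearMap.det (A.linear : V →ₗ[ℝ] V)| = 1) : MeasurePreserving A μ μ := by
  have h1 : MeasurePreserving (A.linear : V →ₗ[ℝ] V) μ μ := by
    refine ⟨(LinearMap.continuous_of_finiteDimensional _).measurable, ?_⟩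
    rw [Measure.map_linearMap_addHaar_eq_smul_addHaar]
    · rw [abs_inv, hA]; simp
    · intro h0; rw [h0] at hA; simp at hA
  have h2 : MeasurePreserving (fun x : V => x + A 0) μ μ := measurePreserving_add_right μ (A 0)
  have h3 : ⇑A = (fun x : V => x + A 0) ∘ (A.linear : V →ₗ[ℝ] V) := by
    ext x
    have := A.map_vadd 0 x
    simpa using this
  rw [h3]
  exact h2.comp h1

theorem affineEquiv_measurableEmbedding (A : V ≃ᵃ[ℝ] V) : MeasurableEmbedding A :=
  (AffineEquiv.toContinuousAffineEquiv A).toHomeomorph.measurableEmbedding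

theorem chart_change {A : V ≃ᵃ[ℝ] V} (hA : |LinearMap.det (A.linear : V →ₗ[ℝ] V)| = 1)
    {s : Y → Y} (hs : ∀ y, D (s y) = A (D y)) {e e' : OpenPartialHomeomorph Y V} (he : ⇑e = D)
    (he' : ⇑e' = D) {K : Set Y} (hKc : IsCompact K) (hK : K ⊆ e.source)
    (hK' : s '' K ⊆ e'.source) (φ : Y → ℝ) :
    ∫ x in D '' (s '' K), φ (e'.symm x) ∂μ = ∫ x in D '' K, φ (s (e.symm x)) ∂μ := by
  have h1 : D '' (s '' K) = A '' (D '' K) := by
    rw [image_image, image_image]
    exact image_congr fun y _ => hs y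
  rw [h1, (affineEquiv_measurePreserving μ A hA).setIntegral_image_emb
    (affineEquiv_measurableEmbedding A)]
  apply setIntegral_congr_fun (isCompact_image he hK hKc).measurableSet
  rintro _ ⟨y, hy, rfl⟩
  simp only
  rw [symm_D he (hK hy), ← hs, symm_D he' (hK' (mem_image_of_mem s hy))]

end Pool.Agent.Helper2.MK
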