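import Mathlib

set_option autoImplicit false
set_option linter.unusedSectionVars false

open Set MeasureTheory Metric Filter Topology
open scoped NNReal ENNReal

namespace Pool.Agent.Helper2.MK

variable {V : Type*} [NormedAddCommGroup V] [NormedSpace ℝ V]
variable {Y : Type*} [TopologicalSpace Y]
variable {W : Type*} [NormedAddCommGroup W] [NormedSpace ℝ W]
variable {W' : Type*} [NormedAddCommGroup W'] [NormedSpace ℝ W']

/-- `f` is locally Lipschitz with respect to the local coordinate `D`. -/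
def DLip (D : Y → V) (f : Y → W) : Prop :=
  ∀ y, ∃ U ∈ 𝓝 y, ∃ L : ℝ, 0 ≤ L ∧ ∀ a ∈ U, ∀ b ∈ U, ‖f a - f b‖ ≤ L * ‖D a - D b‖

namespace DLip

variable {D : Y → V} {f g : Y → W}

theorem self (D : Y → V) : DLip D D := fun _ =>
  ⟨univ, univ_mem, 1, zero_le_one, fun a _ b _ => by simp⟩

theorem const (D : Y → V) (c : W) : DLip D (fun _ : Y => c) := fun _ =>
  ⟨univ, univ_mem, 0, le_rfl, fun a _ b _ => by simp⟩

theorem congr (hf : DLip D f) (h : ∀ y, f y = g y) : DLip D g := by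
  have : f = g := funext h
  rwa [← this]

/-- The property is local. -/
theorem of_eventually (h : ∀ y, ∃ g : Y → W, DLip D g ∧ ∀ᶠ z in 𝓝 y, f z = g z) : DLip D f := by
  intro y
  obtain ⟨g, hg, he⟩ := h y
  obtain ⟨U, hU, L, hL, h1⟩ := hg y
  refine ⟨U ∩ {z | f z = g z}, inter_mem hU he, L, hL, fun a ha b hb => ?_⟩
  have ha2 : f a = g a := ha.2
  have hb2 : f b = g b := hb.2
  rw [ha2, hb2]
  exact h1 a ha.1 b hb.1

theorem add (hf : DLip D f) (hg : DLip D g) : DLip D (fun y => f y + g y) := by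
  intro y
  obtain ⟨U, hU, L, hL, h1⟩ := hf y
  obtain ⟨U', hU', L', hL', h1'⟩ := hg y
  refine ⟨U ∩ U', inter_mem hU hU', L + L', add_nonneg hL hL', fun a ha b hb => ?_⟩
  calc ‖f a + g a - (f b + g b)‖ = ‖(f a - f b) + (g a - g b)‖ := by congr 1; abel
    _ ≤ ‖f a - f b‖ + ‖g a - g b‖ := norm_add_le _ _
    _ ≤ L * ‖D a - D b‖ + L' * ‖D a - D b‖ :=
      add_le_add (h1 a ha.1 b hb.1) (h1' a ha.2 b hb.2)
    _ = _ := by ring

theorem sum {ι : Type*} (s : Finset ι) {f : ι → Y → W} (hf : ∀ i ∈ s, DLip D (f i)) :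
    DLip D (fun y => ∑ i ∈ s, f i y) := by
  classical
  induction s using Finset.induction_on with
  | empty => simpa using const D (0 : W)
  | insert i s hi ih =>
    simp only [Finset.sum_insert hi]
    exact (hf i (Finset.mem_insert_self i s)).add
      (ih fun j hj => hf j (Finset.mem_insert_of_mem hj))

theorem neg (hf : DLip D f) : DLip D (fun y => - f y) := by
  intro y
  obtain ⟨U, hU, L, hL, h1⟩ := hf y
  refine ⟨U, hU, L, hL, fun a ha b hb => ?_⟩
  calc ‖-f a - -f b‖ = ‖-(f a - f b)‖ := by congr 1; abel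
    _ = ‖f a - f b‖ := norm_neg _
    _ ≤ _ := h1 a ha b hb

theorem sub (hf : DLip D f) (hg : DLip D g) : DLip D (fun y => f y - g y) :=
  (hf.add hg.neg).congr fun y => by abel

theorem continuous (hD : Continuous D) (hf : DLip D f) : Continuous f := by
  rw [continuous_iff_continuousAt]
  intro y
  obtain ⟨U, hU, L, hL, h1⟩ := hf y
  rw [ContinuousAt, tendsto_iff_norm_sub_tendsto_zero]
  have h2 : Tendsto (fun z => L * ‖D z - D y‖) (𝓝 y) (𝓝 0) := by
    have : Tendsto (fun z => ‖D z - D y‖) (𝓝 y) (𝓝 0) :=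
      tendsto_iff_norm_sub_tendsto_zero.mp (hD.tendsto y)
    simpa using this.const_mul L
  refine squeeze_zero' (Eventually.of_forall fun z => norm_nonneg _) ?_ h2
  filter_upwards [hU] with z hz
  exact h1 z hz y (mem_of_mem_nhds hU)

theorem eventually_bdd (hD : Continuous D) (hf : DLip D f) (y : Y) :
    ∃ M : ℝ, 0 ≤ M ∧ ∀ᶠ z in 𝓝 y, ‖f z‖ ≤ M := by
  refine ⟨‖f y‖ + 1, by positivity, ?_⟩
  have := (hf.continuous hD).norm.continuousAt (x := y)
  exact (this.eventually (Iio_mem_nhds (lt_add_one ‖f y‖))).mono fun z hz => le_of_lt hz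

theorem smul (hD : Continuous D) {c : Y → ℝ} (hc : DLip D c) (hf : DLip D f) :
    DLip D (fun y => c y • f y) := by
  intro y
  obtain ⟨U, hU, L, hL, h1⟩ := hc y
  obtain ⟨U', hU', L', hL', h1'⟩ := hf y
  obtain ⟨M, hM, hM1⟩ := hc.eventually_bdd hD y
  obtain ⟨M', hM', hM1'⟩ := hf.eventually_bdd hD y
  refine ⟨U ∩ U' ∩ {z | ‖c z‖ ≤ M} ∩ {z | ‖f z‖ ≤ M'},
    inter_mem (inter_mem (inter_mem hU hU') hM1) hM1', M * L' + M' * L, by positivity,
    fun a ha b hb => ?_⟩
  obtain ⟨⟨⟨ha1, ha2⟩, ha3⟩, ha4⟩ := ha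
  obtain ⟨⟨⟨hb1, hb2⟩, hb3⟩, hb4⟩ := hb
  simp only [mem_ofPred_eq] at ha3 ha4 hb3 hb4
  calc ‖c a • f a - c b • f b‖ = ‖c a • (f a - f b) + (c a - c b) • f b‖ := by
        congr 1; module
    _ ≤ ‖c a • (f a - f b)‖ + ‖(c a - c b) • f b‖ := norm_add_le _ _
    _ = ‖c a‖ * ‖f a - f b‖ + ‖c a - c b‖ * ‖f b‖ := by rw [norm_smul, norm_smul]
    _ ≤ M * (L' * ‖D a - D b‖) + (L * ‖D a - D b‖) * M' := by
        gcongr
        · exact h1' a ha2 b hb2
        · exact h1 a ha1 b hb1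
    _ = _ := by ring

/-- Composition with a map that is locally Lipschitz near the values of `f`. -/
theorem comp (hD : Continuous D) (hf : DLip D f) {Φ : W → W'}
    (hΦ : ∀ y, ∃ t ∈ 𝓝 (f y), ∃ L : ℝ, 0 ≤ L ∧ ∀ a ∈ t, ∀ b ∈ t, ‖Φ a - Φ b‖ ≤ L * ‖a - b‖) :
    DLip D (fun y => Φ (f y)) := by
  intro y
  obtain ⟨U, hU, L, hL, h1⟩ := hf y
  obtain ⟨t, ht, L', hL', h2⟩ := hΦ y
  refine ⟨U ∩ f ⁻¹' t, inter_mem hU ((hf.continuous hD).continuousAt ht), L' * L, by positivity,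
    fun a ha b hb => ?_⟩
  calc ‖Φ (f a) - Φ (f b)‖ ≤ L' * ‖f a - f b‖ := h2 _ ha.2 _ hb.2
    _ ≤ L' * (L * ‖D a - D b‖) := by
      gcongr
      exact h1 a ha.1 b hb.1
    _ = _ := by ring

theorem inv (hD : Continuous D) {c : Y → ℝ} (hc : DLip D c) (hpos : ∀ y, 0 < c y) :
    DLip D (fun y => (c y)⁻¹) := by
  refine hc.comp hD (Φ := fun x : ℝ => x⁻¹) fun y => ?_
  refine ⟨Ioi (c y / 2), Ioi_mem_nhds (half_lt_self (hpos y)), (c y / 2)⁻¹ * (c y / 2)⁻¹,
    by have := hpos y; positivity, fun a ha b hb => ?_⟩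
  have h0 := hpos y
  rw [mem_Ioi] at ha hb
  have ha0 : 0 < a := by linarith
  have hb0 : 0 < b := by linarith
  have : a⁻¹ - b⁻¹ = a⁻¹ * b⁻¹ * (b - a) := by field_simp
  rw [this, norm_mul, norm_mul, norm_sub_rev, Real.norm_of_nonneg (by positivity),
    Real.norm_of_nonneg (by positivity : 0 ≤ b⁻¹)]
  gcongr

theorem prodMk (hf : DLip D f) {g : Y → W'} (hg : DLip D g) :
    DLip D (fun y => (f y, g y)) := by
  intro y
  obtain ⟨U, hU, L, hL, h1⟩ := hf y
  obtain ⟨U', hU', L', hL', h1'⟩ := hg y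
  refine ⟨U ∩ U', inter_mem hU hU', max L L', le_max_of_le_left hL, fun a ha b hb => ?_⟩
  rw [Prod.mk_sub_mk, Prod.norm_mk]
  apply max_le
  · refine (h1 a ha.1 b hb.1).trans ?_
    gcongr
    exact le_max_left _ _
  · refine (h1' a ha.2 b hb.2).trans ?_
    gcongr
    exact le_max_right _ _

/-- Precomposition with a map `s` of `Y` covering a Lipschitz map of `V`. -/
theorem precomp (hf : DLip D f) {s : Y → Y} (hs : Continuous s) {L' : ℝ} (hL' : 0 ≤ L')
    (hsD : ∀ a b, ‖D (s a) - D (s b)‖ ≤ L' * ‖D a - D b‖) : DLip D (fun y => f (s y)) := by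
  intro y
  obtain ⟨U, hU, L, hL, h1⟩ := hf (s y)
  refine ⟨s ⁻¹' U, hs.continuousAt hU, L * L', by positivity, fun a ha b hb => ?_⟩
  calc ‖f (s a) - f (s b)‖ ≤ L * ‖D (s a) - D (s b)‖ := h1 _ ha _ hb
    _ ≤ L * (L' * ‖D a - D b‖) := by gcongr; exact hsD a b
    _ = _ := by ring

end DLip

section charts

variable {D : Y → V}

/-- Two local inverses of `D` with a common point agree near its image. -/
theorem symm_eventuallyEq {e e' : OpenPartialHomeomorph Y V} (he : ⇑e = D) (he' : ⇑e' = D)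
    {y : Y} (hy : y ∈ e.source) (hy' : y ∈ e'.source) : ⇑e.symm =ᶠ[𝓝 (D y)] ⇑e'.symm := by
  have hDy : D y ∈ e'.target := by rw [← he']; exact e'.map_source hy'
  have h1 : e'.symm (D y) = y := by rw [← he']; exact e'.left_inv hy'
  have hc : ContinuousAt e'.symm (D y) := e'.continuousAt_symm hDy
  have h2 : ∀ᶠ x in 𝓝 (D y), e'.symm x ∈ e.source :=
    hc.eventually (by rw [h1]; exact e.open_source.mem_nhds hy)
  filter_upwards [h2, e'.open_target.mem_nhds hDy] with x hx hx'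
  have h3 : e (e'.symm x) = x := by rw [he, ← he']; exact e'.right_inv hx'
  calc e.symm x = e.symm (e (e'.symm x)) := by rw [h3]
    _ = e'.symm x := e.left_inv hx

theorem DLip.locallyLipschitzOn {f : Y → W} (hf : DLip D f) {e : OpenPartialHomeomorph Y V}
    (he : ⇑e = D) : LocallyLipschitzOn e.target (f ∘ e.symm) := by
  intro x hx
  obtain ⟨U, hU, L, hL, h1⟩ := hf (e.symm x)
  refine ⟨Real.toNNReal L, e.symm ⁻¹' U ∩ e.target, ?_, ?_⟩
  · exact inter_mem (mem_nhdsWithin_of_mem_nhds ((e.continuousAt_symm hx) hU)) self_mem_nhdsWithin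
  · apply LipschitzOnWith.of_dist_le_mul
    intro a ha b hb
    rw [Real.coe_toNNReal _ hL, dist_eq_norm, dist_eq_norm]
    have := h1 _ ha.1 _ hb.1
    rwa [← he, e.right_inv ha.2, e.right_inv hb.2] at this

open Classical in
/-- The derivative of `f` at `y` with respect to the local coordinate `D`. -/
noncomputable def dd (D : Y → V) (f : Y → W) (y : Y) : V →L[ℝ] W :=
  if h : ∃ e : OpenPartialHomeomorph Y V, y ∈ e.source ∧ ⇑e = D then
    fderiv ℝ (f ∘ h.choose.symm) (D y)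
  else 0

theorem dd_eq (f : Y → W) {e : OpenPartialHomeomorph Y V} (he : ⇑e = D) {y : Y}
    (hy : y ∈ e.source) : dd D f y = fderiv ℝ (f ∘ e.symm) (D y) := by
  have h : ∃ e : OpenPartialHomeomorph Y V, y ∈ e.source ∧ ⇑e = D := ⟨e, hy, he⟩
  rw [dd, dif_pos h]
  apply Filter.EventuallyEq.fderiv_eq
  exact (symm_eventuallyEq h.choose_spec.2 he h.choose_spec.1 hy).fun_comp f

theorem dd_congr {f g : Y → W} (hD : IsLocalHomeomorph D) {y : Y} (h : ∀ᶠ z in 𝓝 y, f z = g z) :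
    dd D f y = dd D g y := by
  obtain ⟨e, hy, he⟩ := hD y
  rw [dd_eq f he.symm hy, dd_eq g he.symm hy]
  apply Filter.EventuallyEq.fderiv_eq
  have hDy : D y ∈ e.target := by rw [he]; exact e.map_source hy
  have hc : ContinuousAt e.symm (D y) := e.continuousAt_symm hDy
  have h1 : e.symm (D y) = y := by rw [he]; exact e.left_inv hy
  rw [ContinuousAt, h1] at hc
  exact hc.eventually h

end charts

end Pool.Agent.Helper2.MK
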