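import Pool.Agent.Helper2.MK.Avg

set_option autoImplicit false
set_option linter.unusedSectionVars false

open Set MeasureTheory Metric Filter Topology
open scoped NNReal ENNReal

namespace Pool.Agent.Helper2.MK

section centroid

variable {W : Type*} [NormedAddCommGroup W] [NormedSpace ℝ W] [FiniteDimensional ℝ W]
  [MeasurableSpace W] [BorelSpace W]

theorem det_eq_one_of_image_eq (m : Measure W) [m.IsAddHaarMeasure] {C : Set W}
    (h0 : m C ≠ 0) (h1 : m C ≠ ∞) (A : W ≃ᵃ[ℝ] W) (hA : A '' C = C) :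
    |LinearMap.det (A.linear : W →ₗ[ℝ] W)| = 1 := by
  have h2 : A '' C = (fun x => x + A 0) '' ((A.linear : W →ₗ[ℝ] W) '' C) := by
    rw [image_image]
    apply image_congr
    intro x _
    have := A.map_vadd 0 x
    simpa using this
  have h3 : m (A '' C) = ENNReal.ofReal |LinearMap.det (A.linear : W →ₗ[ℝ] W)| * m C := by
    rw [h2, image_add_right, measure_preimage_add_right, Measure.addHaar_image_linearMap]
  rw [hA] at h3
  have h4 : ENNReal.ofReal |LinearMap.det (A.linear : W →ₗ[ℝ] W)| = 1 := by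
    have h5 : 1 * m C = ENNReal.ofReal |LinearMap.det (A.linear : W →ₗ[ℝ] W)| * m C := by
      rw [one_mul]; exact h3
    exact ((ENNReal.mul_left_inj h0 h1).mp h5).symm
  have h6 := ENNReal.ofReal_eq_one.mp h4
  exact h6

theorem exists_centroid (C : Set W) (hCo : IsOpen C) (hCne : C.Nonempty)
    (hCb : Bornology.IsBounded C) : ∃ b : W, ∀ A : W ≃ᵃ[ℝ] W, A '' C = C → A b = b := by
  have : ProperSpace W := FiniteDimensional.proper ℝ W
  have : CompleteSpace W := FiniteDimensional.complete ℝ W
  set m : Measure W := Measure.addHaar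
  have h0 : m C ≠ 0 := (hCo.measure_pos m hCne).ne'
  have h1 : m C ≠ ∞ := hCb.measure_lt_top.ne
  have hr : m.real C ≠ 0 := ENNReal.toReal_ne_zero.mpr ⟨h0, h1⟩
  have hint : IntegrableOn (fun x : W => x) C m := by
    obtain ⟨M, hM⟩ := hCb.exists_norm_le
    refine Measure.integrableOn_of_bounded h1 (M := M) aestronglyMeasurable_id ?_
    rw [ae_restrict_iff' hCo.measurableSet]
    exact ae_of_all _ fun x hx => hM x hx
  refine ⟨(m.real C)⁻¹ • ∫ x in C, x ∂m, fun A hA => ?_⟩
  have hdet := det_eq_one_of_image_eq m h0 h1 A hA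
  have h2 : ∫ x in C, A x ∂m = ∫ x in C, x ∂m := by
    have := (affineEquiv_measurePreserving m A hdet).setIntegral_image_emb
      (affineEquiv_measurableEmbedding A) (fun x => x) C
    rw [hA] at this
    exact this.symm
  have h3 : ∫ x in C, A x ∂m = clin A (∫ x in C, x ∂m) + m.real C • A 0 := by
    have h5 : ∫ x in C, A x ∂m = ∫ x in C, (clin A x + A 0) ∂m := by
      congr 1
      ext x
      exact affine_apply A x
    rw [h5, integral_add ((clin A).integrable_comp hint) (integrableOn_const h1),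
      (clin A).integral_comp_comm hint, setIntegral_const]
  rw [affine_apply, map_smul]
  have h4 : clin A (∫ x in C, x ∂m) = (∫ x in C, x ∂m) - m.real C • A 0 := by
    exact eq_sub_of_add_eq (h3.symm.trans h2)
  rw [h4, smul_sub, smul_smul, inv_mul_cancel₀ hr, one_smul]
  abel

end centroid

section quot

variable {V : Type*} [NormedAddCommGroup V] [NormedSpace ℝ V] [FiniteDimensional ℝ V]
variable {W : Type*} [NormedAddCommGroup W] [NormedSpace ℝ W] [FiniteDimensional ℝ W]

theorem bounded_of_no_ray {C : Set W} (hC : Convex ℝ C) (hCo : IsOpen C)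
    (hno : ∀ c ∈ C, ∀ w : W, (∀ t : ℝ, 0 ≤ t → c + t • w ∈ C) → w = 0) :
    Bornology.IsBounded C := by
  have : ProperSpace W := FiniteDimensional.proper ℝ W
  rcases C.eq_empty_or_nonempty with rfl | ⟨c, hc⟩
  · exact Bornology.isBounded_empty
  have hcont : Continuous (gg C c) := continuous_gauge (convex_tr hC c) (nhds_tr hCo hc)
  have hpos : ∀ w, w ≠ 0 → 0 < gg C c w := fun w hw =>
    (gg_nonneg _ _ _).lt_of_ne' fun h0 => hw (hno c hc w fun t ht =>
      ray_of_gg_eq_zero hC hCo hc h0 ht)
  rcases subsingleton_or_nontrivial W with hW | hW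
  · exact (Set.subsingleton_of_subsingleton (s := C)).finite.isBounded
  obtain ⟨u, hu, humin⟩ := (isCompact_sphere (0 : W) 1).exists_isMinOn
    (NormedSpace.sphere_nonempty.mpr zero_le_one) hcont.continuousOn
  have hu1 : ‖u‖ = 1 := by simpa using hu
  have hupos : 0 < gg C c u := hpos u (by rintro rfl; simp at hu1)
  rw [isBounded_iff_subset_closedBall c]
  refine ⟨(gg C c u)⁻¹, fun x hx => ?_⟩
  rw [mem_closedBall, dist_eq_norm]
  by_cases hxc : x - c = 0
  · rw [hxc, norm_zero]; positivity
  have hn : 0 < ‖x - c‖ := norm_pos_iff.mpr hxc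
  have h1 : gg C c (x - c) ≤ 1 := by
    apply gauge_le_one_of_mem
    simpa using hx
  have h2 : gg C c u ≤ gg C c (‖x - c‖⁻¹ • (x - c)) := by
    apply humin
    rw [mem_sphere, dist_zero_right, norm_smul, norm_inv, norm_norm, inv_mul_cancel₀ hn.ne']
  have h3 : gg C c (‖x - c‖⁻¹ • (x - c)) = ‖x - c‖⁻¹ * gg C c (x - c) := by
    unfold gg
    rw [gauge_smul_of_nonneg (by positivity), smul_eq_mul]
  rw [h3] at h2
  rw [le_inv_comm₀ hn hupos]
  calc gg C c u ≤ ‖x - c‖⁻¹ * gg C c (x - c) := h2
    _ ≤ ‖x - c‖⁻¹ * 1 := by gcongr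
    _ = _ := mul_one _

end quot

section caseB2

variable {V : Type*} [NormedAddCommGroup V] [NormedSpace ℝ V] [FiniteDimensional ℝ V]
variable {G : Type*} [Group G] {h : G →* (V ≃ᵃ[ℝ] V)}

theorem exists_invariant_affine {C : Set V} (hC : Convex ℝ C) (hCo : IsOpen C)
    (hCne : C.Nonempty) (hCu : C ≠ univ) (hCinv : ∀ (g : G), ∀ x ∈ C, h g x ∈ C)
    (hsymm : ∀ v ∈ recDir C, -v ∈ recDir C) :
    ∃ B : Set V, B.Nonempty ∧ Convex ℝ B ∧ Supp B ∧ ∀ (g : G), ∀ x ∈ B, h g x ∈ B := by
  classical
  -- the lineality space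
  let L : Submodule ℝ V :=
    { carrier := recDir C
      add_mem' := fun ha hb => rec_add ha hb
      zero_mem' := rec_zero
      smul_mem' := fun t v hv => by
        rcases le_total 0 t with ht | ht
        · exact rec_smul hC hv ht
        · have := rec_smul hC (hsymm v hv) (neg_nonneg.mpr ht)
          rwa [smul_neg, neg_smul, neg_neg] at this }
  have hLmem : ∀ v, v ∈ L ↔ v ∈ recDir C := fun v => Iff.rfl
  set k := Module.finrank ℝ (V ⧸ L)
  let φ : (V ⧸ L) ≃ₗ[ℝ] (Fin k → ℝ) := (Module.finBasis ℝ (V ⧸ L)).equivFun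
  let P : V →ₗ[ℝ] (Fin k → ℝ) := φ.toLinearMap ∘ₗ L.mkQ
  have hP0 : ∀ v, P v = 0 ↔ v ∈ recDir C := by
    intro v
    rw [← hLmem]
    simp [P]
  have hPsurj : Function.Surjective P := φ.surjective.comp L.mkQ_surjective
  obtain ⟨s, hs⟩ := P.exists_rightInverse_of_surjective (LinearMap.range_eq_top.mpr hPsurj)
  have hPs : ∀ w, P (s w) = w := fun w => LinearMap.congr_fun hs w
  set C' : Set (Fin k → ℝ) := P '' C with hC'
  have hmem : ∀ x, P x ∈ C' ↔ x ∈ C := by
    intro x
    refine ⟨?_, fun hx => mem_image_of_mem _ hx⟩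
    rintro ⟨c, hc, hcx⟩
    have h1 : x - c ∈ recDir C := by rw [← hP0, map_sub, hcx, sub_self]
    have := h1 c hc
    rwa [add_sub_cancel] at this
  have hC'c : Convex ℝ C' := hC.linear_image P
  have hC'o : IsOpen C' := LinearMap.isOpenMap_of_finiteDimensional P hPsurj C hCo
  have hC'ne : C'.Nonempty := hCne.image P
  have hC'b : Bornology.IsBounded C' := by
    apply bounded_of_no_ray hC'c hC'o
    rintro _ ⟨c, hc, rfl⟩ w hw
    rw [← hPs w, hP0]
    apply rec_of_ray hC hCo (c := c)
    intro t ht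
    rw [← hmem, map_add, map_smul, hPs]
    exact hw t ht
  obtain ⟨b, hb⟩ := exists_centroid C' hC'o hC'ne hC'b
  -- the induced affine maps
  have hinv1 : ∀ (g : G) x, h g⁻¹ (h g x) = x := by
    intro g x
    have : (h g⁻¹ * h g) x = x := by rw [← map_mul, inv_mul_cancel, map_one]; rfl
    exact this
  have hinv2 : ∀ (g : G) x, h g (h g⁻¹ x) = x := by
    intro g x
    have := hinv1 g⁻¹ x
    rwa [inv_inv] at this
  have hlin : ∀ (A : V ≃ᵃ[ℝ] V) (p v : V), A (p + v) = A p + A.linear v := by
    intro A p v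
    have := A.map_vadd p v
    rw [vadd_eq_add, vadd_eq_add, add_comm v p, add_comm _ (A p)] at this
    exact this
  have hrec : ∀ g : G, ∀ v ∈ recDir C, (h g).linear v ∈ recDir C := by
    intro g v hv x hx
    have h1 : h g (h g⁻¹ x + v) ∈ C := hCinv g _ (hv _ (hCinv g⁻¹ x hx))
    rwa [hlin, hinv2] at h1
  let T : G → (Fin k → ℝ) →ᵃ[ℝ] (Fin k → ℝ) := fun g =>
    P.toAffineMap.comp ((h g).toAffineMap.comp s.toAffineMap)
  have hT : ∀ g w, T g w = P (h g (s w)) := fun g w => rfl
  have hTP : ∀ g x, T g (P x) = P (h g x) := by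
    intro g x
    rw [hT]
    have h1 : x - s (P x) ∈ recDir C := by rw [← hP0, map_sub, hPs, sub_self]
    have h2 : h g x = h g (s (P x)) + (h g).linear (x - s (P x)) := by
      rw [← hlin, add_sub_cancel]
    rw [h2, map_add, (hP0 _).mpr (hrec g _ h1), add_zero]
  have hTT : ∀ g w, T g⁻¹ (T g w) = w := by
    intro g w
    rw [hT g w, hTP, hinv1, hPs]
  have hTbij : ∀ g, Function.Bijective (T g) := by
    intro g
    refine ⟨Function.LeftInverse.injective (hTT g), Function.RightInverse.surjective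
      (g := T g⁻¹) fun w => ?_⟩
    have := hTT g⁻¹ w
    rwa [inv_inv] at this
  have hTC : ∀ g, ∀ w ∈ C', T g w ∈ C' := by
    rintro g _ ⟨c, hc, rfl⟩
    rw [hTP]
    exact mem_image_of_mem _ (hCinv g c hc)
  have hfix : ∀ g, T g b = b := by
    intro g
    apply hb (AffineEquiv.ofBijective (hTbij g))
    apply Subset.antisymm
    · rintro _ ⟨w, hw, rfl⟩
      exact hTC g w hw
    · intro w hw
      refine ⟨T g⁻¹ w, hTC _ w hw, ?_⟩
      have := hTT g⁻¹ w
      rw [inv_inv] at this
      exact this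
  refine ⟨P ⁻¹' {b}, ?_, (convex_singleton b).linear_preimage P, ?_, ?_⟩
  · obtain ⟨x, hx⟩ := hPsurj b
    exact ⟨x, hx⟩
  · have hk : ∃ i : Fin k, True := by
      by_contra hcon
      push Not at hcon
      have hempty : IsEmpty (Fin k) := ⟨fun i => by simpa using hcon i⟩
      apply hCu
      rw [eq_univ_iff_forall]
      intro x
      rw [← hmem]
      obtain ⟨c, hc⟩ := hC'ne
      rwa [Subsingleton.elim (P x) c]
    obtain ⟨i, _⟩ := hk
    intro p hp
    refine ⟨LinearMap.toContinuousLinearMap ((LinearMap.proj i) ∘ₗ P), ?_, ?_⟩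
    · intro h0
      obtain ⟨x, hx⟩ := hPsurj (fun _ => 1)
      have := congrArg (fun T : V →L[ℝ] ℝ => T x) h0
      simp [hx] at this
    · intro q hq
      have hp' : P p = b := hp
      have hq' : P q = b := hq
      simp [hp', hq']
  · intro g x hx
    have hx' : P x = b := hx
    change P (h g x) = b
    rw [← hTP, hx', hfix]

end caseB2

section main

universe u

variable {V : Type*} [NormedAddCommGroup V] [NormedSpace ℝ V] [FiniteDimensional ℝ V]
  [MeasurableSpace V] [BorelSpace V]
variable {Y : Type u} [TopologicalSpace Y] [T2Space Y]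
variable {G : Type*} [Group G] [MulAction G Y] [ContinuousConstSMul G Y]
variable {D : Y → V} {h : G →* (V ≃ᵃ[ℝ] V)}

theorem supp_of_empty_interior {C : Set V} (hC : Convex ℝ C) (hCne : C.Nonempty)
    (hint : interior C = ∅) : Supp C := by
  have h1 : affineSpan ℝ C ≠ ⊤ := by
    intro hcon
    rw [← hC.interior_nonempty_iff_affineSpan_eq_top, hint] at hcon
    exact not_nonempty_empty hcon
  have hne : (affineSpan ℝ C : Set V).Nonempty := hCne.mono (subset_affineSpan ℝ C)
  have h2 : (affineSpan ℝ C).direction < ⊤ := by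
    rw [lt_top_iff_ne_top]
    intro hcon
    exact h1 ((AffineSubspace.direction_eq_top_iff_of_nonempty hne).mp hcon)
  obtain ⟨f, hf, hfker⟩ := Submodule.exists_le_ker_of_lt_top _ h2
  intro p hp
  refine ⟨LinearMap.toContinuousLinearMap f, ?_, ?_⟩
  · intro h0
    apply hf
    ext x
    have := congrArg (fun T : V →L[ℝ] ℝ => T x) h0
    simpa using this
  · intro q hq
    have h3 : q - p ∈ (affineSpan ℝ C).direction :=
      AffineSubspace.vsub_mem_direction (subset_affineSpan ℝ C hq) (subset_affineSpan ℝ C hp)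
    have h4 : f (q - p) = 0 := hfker h3
    rw [map_sub, sub_eq_zero] at h4
    simp [h4]

/-- **Main theorem.** The affine holonomy of a compact affine manifold with parallel volume
preserves no nonempty proper convex subset. -/
theorem no_invariant_convex [Nonempty Y] (hPD : PD G Y)
    (hfree : ∀ (g : G) (y : Y), g • y = y → g = 1) (hDloc : IsLocalHomeomorph D)
    (hD : ∀ (g : G) y, D (g • y) = h g (D y))
    (hdet : ∀ g, |LinearMap.det ((h g).linear : V →ₗ[ℝ] V)| = 1)
    (hcoc : ∃ K : Set Y, IsCompact K ∧ ∀ y, ∃ g : G, g • y ∈ K)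
    {C : Set V} (hC : Convex ℝ C) (hCne : C.Nonempty)
    (hCinv : ∀ (g : G), ∀ x ∈ C, h g x ∈ C) : C = univ := by
  by_contra hCu
  rcases (interior C).eq_empty_or_nonempty with hint | hint
  · exact no_supp_convex hPD hfree hDloc hD hdet hcoc hC
      (supp_of_empty_interior hC hCne hint) hCne hCinv
  · have hIo : IsOpen (interior C) := isOpen_interior
    have hIc : Convex ℝ (interior C) := hC.interior
    have hIinv : ∀ (g : G), ∀ x ∈ interior C, h g x ∈ interior C := by
      intro g x hx
      have h1 : IsOpen ((h g) '' interior C) :=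
        (AffineEquiv.toContinuousAffineEquiv (h g)).toHomeomorph.isOpenMap _ hIo
      have h2 : (h g) '' interior C ⊆ C := by
        rintro _ ⟨z, hz, rfl⟩
        exact hCinv g z (interior_subset hz)
      exact interior_maximal h2 h1 (mem_image_of_mem _ hx)
    have hIu : interior C ≠ univ := fun hcon => hCu (univ_subset_iff.mp
      (hcon ▸ interior_subset))
    by_cases hex : ∃ v ∈ recDir (interior C), -v ∉ recDir (interior C)
    · obtain ⟨v₀, hv₀, hv₀'⟩ := hex
      exact case_ray hPD hfree hDloc hD hdet hcoc hIc hIo hint hIinv hv₀ hv₀'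
    · push Not at hex
      obtain ⟨B, hBne, hBc, hB, hBinv⟩ :=
        exists_invariant_affine hIc hIo hint hIu hIinv hex
      exact no_supp_convex hPD hfree hDloc hD hdet hcoc hBc hB hBne hBinv

end main

end Pool.Agent.Helper2.MK
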