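import Pool.Agent.Helper2.MK.Unfold

set_option autoImplicit false
set_option linter.unusedSectionVars false

open Set MeasureTheory Metric Filter Topology
open scoped NNReal ENNReal

namespace Pool.Agent.Helper2.MK

variable {V : Type*} [NormedAddCommGroup V] [NormedSpace ℝ V] [FiniteDimensional ℝ V]
variable {Y : Type*} [TopologicalSpace Y] [T2Space Y]
variable {G : Type*} [Group G] [MulAction G Y] [ContinuousConstSMul G Y]
variable {D : Y → V} {h : G →* (V ≃ᵃ[ℝ] V)}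
variable {W : Type*} [NormedAddCommGroup W] [NormedSpace ℝ W]
variable {W' : Type*} [NormedAddCommGroup W'] [NormedSpace ℝ W']

/-- `G`-averaging of the weights `c` by the bump function `χ`. -/
noncomputable def gsum (χ : Y → ℝ) (c : G → W) (y : Y) : W := ∑ᶠ g : G, χ (g⁻¹ • y) • c g

theorem gsum_eq {χ : Y → ℝ} (c : G → W) {y : Y} {T : Finset G}
    (hT : ∀ g ∉ T, χ (g⁻¹ • y) = 0) : gsum χ c y = ∑ g ∈ T, χ (g⁻¹ • y) • c g := by
  unfold gsum
  apply finsum_eq_sum_of_support_subset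
  intro g hg
  rw [Function.mem_support] at hg
  by_contra hcon
  exact hg (by rw [hT g (by simpa using hcon), zero_smul])

theorem gsum_smul_left (χ : Y → ℝ) (c : G → W) (g₀ : G) (y : Y) :
    gsum χ c (g₀ • y) = gsum χ (fun g => c (g₀ * g)) y := by
  unfold gsum
  rw [← finsum_comp_equiv (Equiv.mulLeft g₀)]
  apply finsum_congr
  intro g
  simp [mul_smul]

theorem exists_compact_nhds (hDloc : IsLocalHomeomorph D) {y : Y} {U : Set Y} (hU : U ∈ 𝓝 y) :
    ∃ K ∈ 𝓝 y, K ⊆ U ∧ IsCompact K := by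
  have : ProperSpace V := FiniteDimensional.proper ℝ V
  obtain ⟨e, hy, he⟩ := hDloc y
  have h1 : e.source ∩ U ∈ 𝓝 y := inter_mem (e.open_source.mem_nhds hy) hU
  have hcont : ContinuousAt e.symm (e y) := e.continuousAt_symm (e.map_source hy)
  have h2 : e.symm ⁻¹' (e.source ∩ U) ∩ e.target ∈ 𝓝 (e y) := by
    refine inter_mem (hcont ?_) (e.open_target.mem_nhds (e.map_source hy))
    rw [e.left_inv hy]
    exact h1
  obtain ⟨K, hK, hKs, hKc⟩ := local_compact_nhds h2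
  have hKt : K ⊆ e.target := fun x hx => (hKs hx).2
  refine ⟨e.symm '' K, ?_, ?_, hKc.image_of_continuousOn (e.continuousOn_symm.mono hKt)⟩
  · rw [e.symm.image_eq_target_inter_inv_preimage hKt]
    simp only [OpenPartialHomeomorph.symm_target, OpenPartialHomeomorph.symm_symm]
    exact inter_mem (e.open_source.mem_nhds hy) (e.continuousAt hy hK)
  · rintro _ ⟨x, hx, rfl⟩
    exact (hKs hx).1.2

theorem exists_nhds_finset (hPD : PD G Y) (hDloc : IsLocalHomeomorph D) {S : Set Y}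
    (hS : IsCompact S) (y : Y) :
    ∃ U ∈ 𝓝 y, ∃ T : Finset G, ∀ z ∈ U, ∀ g ∉ T, g⁻¹ • z ∉ S := by
  classical
  obtain ⟨K, hK, _, hKc⟩ := exists_compact_nhds hDloc (univ_mem (f := 𝓝 y))
  have hfin := hPD.two hS hKc
  refine ⟨K, hK, hfin.toFinset, fun z hz g hg hcon => hg ?_⟩
  rw [Finite.mem_toFinset]
  exact ⟨z, ⟨g⁻¹ • z, hcon, by simp⟩, hz⟩

theorem exists_finset (hPD : PD G Y) {S : Set Y}
    (hS : IsCompact S) (y : Y) : ∃ T : Finset G, ∀ g ∉ T, g⁻¹ • y ∉ S := by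
  classical
  have hfin := hPD.two hS (isCompact_singleton (x := y))
  refine ⟨hfin.toFinset, fun g hg hcon => hg ?_⟩
  rw [Finite.mem_toFinset]
  exact ⟨y, ⟨g⁻¹ • y, hcon, by simp⟩, rfl⟩

/-- The union of the translates of a compact set is closed. -/
theorem isClosed_saturation (hPD : PD G Y) (hDloc : IsLocalHomeomorph D) {S : Set Y}
    (hS : IsCompact S) : IsClosed {y : Y | ∃ g : G, y ∈ (fun z => g • z) '' S} := by
  rw [← isOpen_compl_iff, isOpen_iff_mem_nhds]
  intro y hy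
  obtain ⟨U, hU, T, hT⟩ := exists_nhds_finset hPD hDloc hS y
  have h1 : ∀ g ∈ T, ((fun z => g • z) '' S)ᶜ ∈ 𝓝 y := by
    intro g _
    refine (hS.image (continuous_const_smul g)).isClosed.isOpen_compl.mem_nhds ?_
    exact fun hcon => hy ⟨g, hcon⟩
  have h2 : ⋂ g ∈ T, ((fun z => g • z) '' S)ᶜ ∈ 𝓝 y := (Filter.biInter_finset_mem T).mpr h1
  refine mem_of_superset (inter_mem hU h2) ?_
  rintro z ⟨hzU, hz⟩ ⟨g, w, hw, hwz⟩
  by_cases hg : g ∈ T
  · exact (mem_iInter₂.mp hz g hg) ⟨w, hw, hwz⟩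
  · apply hT z hzU g hg
    simp only at hwz
    rw [← hwz, inv_smul_smul]
    exact hw

theorem lin_bound (A : V ≃ᵃ[ℝ] V) : ∃ L : ℝ, 0 ≤ L ∧ ∀ a b : V, ‖A a - A b‖ ≤ L * ‖a - b‖ := by
  refine ⟨‖LinearMap.toContinuousLinearMap (A.linear : V →ₗ[ℝ] V)‖, norm_nonneg _,
    fun a b => ?_⟩
  have : A a - A b = LinearMap.toContinuousLinearMap (A.linear : V →ₗ[ℝ] V) (a - b) := by
    have := A.toAffineMap.linearMap_vsub a b
    simpa using this.symm
  rw [this]
  exact ContinuousLinearMap.le_opNorm _ _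

theorem DLip.translate (hD : ∀ (g : G) y, D (g • y) = h g (D y)) {χ : Y → W} (hχ : DLip D χ)
    (g : G) : DLip D (fun y => χ (g • y)) := by
  obtain ⟨L, hL, hb⟩ := lin_bound (h g)
  refine hχ.precomp (continuous_const_smul g) hL fun a b => ?_
  rw [hD, hD]
  exact hb _ _

theorem DLip.gsum (hPD : PD G Y) (hDloc : IsLocalHomeomorph D)
    (hD : ∀ (g : G) y, D (g • y) = h g (D y)) {χ : Y → ℝ} (hχ : DLip D χ) {S : Set Y}
    (hS : IsCompact S) (h0 : ∀ y ∉ S, χ y = 0) (c : G → W) : DLip D (gsum χ c) := by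
  apply DLip.of_eventually
  intro y
  obtain ⟨U, hU, T, hT⟩ := exists_nhds_finset hPD hDloc hS y
  refine ⟨fun z => ∑ g ∈ T, χ (g⁻¹ • z) • c g, DLip.sum T fun g _ => ?_, ?_⟩
  · exact (hχ.translate hD g⁻¹).smul hDloc.continuous (DLip.const D (c g))
  · filter_upwards [hU] with z hz
    exact gsum_eq c fun g hg => h0 _ (hT z hz g hg)

end Pool.Agent.Helper2.MK
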