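import Mathlib

set_option autoImplicit false

open Polynomial

namespace Pool.Agent.Helper2.MK

/-- Evaluation at `1` of a polynomial of degree at most `n` is a fixed linear combination of its
values at `n + 1` small positive nodes. -/
theorem exists_interp (n : ℕ) {ε : ℝ} (hε : 0 < ε) :
    ∃ (t c : Fin (n + 1) → ℝ), (∀ j, 0 < t j ∧ t j < ε) ∧
      ∀ p : ℝ[X], p.natDegree ≤ n → p.eval 1 = ∑ j, c j * p.eval (t j) := by
  set t : Fin (n + 1) → ℝ := fun j => ε * ((j : ℝ) + 1) / (n + 2) with ht
  have hinj : Function.Injective t := by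
    intro i j hij
    simp only [ht] at hij
    have hn : ((n : ℝ) + 2) ≠ 0 := by positivity
    field_simp at hij
    have : (i : ℝ) = j := by linarith
    exact Fin.ext (by exact_mod_cast this)
  refine ⟨t, fun j => (Lagrange.basis Finset.univ t j).eval 1, ?_, ?_⟩
  · intro j
    constructor
    · simp only [ht]; positivity
    · simp only [ht]
      have hj : (j : ℝ) + 1 ≤ n + 1 := by
        have := j.2
        have : (j : ℕ) + 1 ≤ n + 1 := by omega
        exact_mod_cast this
      rw [div_lt_iff₀ (by positivity)]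
      nlinarith
  · intro p hp
    have h1 : p.degree < (Finset.univ : Finset (Fin (n + 1))).card := by
      rw [Finset.card_univ, Fintype.card_fin]
      exact lt_of_le_of_lt (degree_le_of_natDegree_le hp) (by exact_mod_cast Nat.lt_succ_self n)
    have h2 := Lagrange.eq_interpolate (s := Finset.univ) (v := t) hinj.injOn h1
    conv_lhs => rw [h2, Lagrange.interpolate_apply]
    rw [eval_finsetSum]
    refine Finset.sum_congr rfl fun j _ => ?_
    rw [eval_mul, eval_C, mul_comm]

variable {V : Type*} [NormedAddCommGroup V] [NormedSpace ℝ V] [FiniteDimensional ℝ V]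

theorem exists_det_poly (A : V →L[ℝ] V) :
    ∃ p : ℝ[X], p.natDegree ≤ Module.finrank ℝ V ∧
      ∀ t : ℝ, p.eval t = (ContinuousLinearMap.id ℝ V +
        t • (A - ContinuousLinearMap.id ℝ V)).det := by
  set b := Module.finBasis ℝ V
  set M := LinearMap.toMatrix b b ((A - ContinuousLinearMap.id ℝ V : V →L[ℝ] V) : V →ₗ[ℝ] V)
    with hM
  refine ⟨Matrix.det ((X : ℝ[X]) • M.map C + (1 : Matrix _ _ ℝ).map C), ?_, ?_⟩
  · refine (natDegree_det_X_add_C_le _ _).trans ?_
    simp
  · intro t
    have h1 : (ContinuousLinearMap.id ℝ V + t • (A - ContinuousLinearMap.id ℝ V)).det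
        = Matrix.det (1 + t • M) := by
      rw [ContinuousLinearMap.det, ← LinearMap.det_toMatrix b]
      congr 1
      rw [ContinuousLinearMap.coe_add, ContinuousLinearMap.coe_smul, map_add, map_smul, ← hM]
      congr 1
      simp
    rw [h1, ← coe_evalRingHom, RingHom.map_det]
    congr 1
    ext i j
    simp only [RingHom.mapMatrix_apply, Matrix.map_apply, Matrix.add_apply, Matrix.smul_apply,
      coe_evalRingHom, eval_add, eval_smul, eval_mul, eval_X, eval_C, smul_eq_mul]
    ring

/-- The determinant at `t = 1` is a fixed combination of the determinants at small `t`. -/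
theorem exists_det_interp (V : Type*) [NormedAddCommGroup V] [NormedSpace ℝ V]
    [FiniteDimensional ℝ V] {ε : ℝ} (hε : 0 < ε) :
    ∃ (t c : Fin (Module.finrank ℝ V + 1) → ℝ), (∀ j, 0 < t j ∧ t j < ε) ∧
      ∀ A : V →L[ℝ] V, A.det = ∑ j, c j * (ContinuousLinearMap.id ℝ V +
        t j • (A - ContinuousLinearMap.id ℝ V)).det := by
  obtain ⟨t, c, h1, h2⟩ := exists_interp (Module.finrank ℝ V) hε
  refine ⟨t, c, h1, fun A => ?_⟩
  obtain ⟨p, hp, hp2⟩ := exists_det_poly A
  have h3 := h2 p hp
  rw [hp2 1] at h3
  simp only [one_smul, add_sub_cancel] at h3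
  rw [h3]
  refine Finset.sum_congr rfl fun j _ => ?_
  rw [hp2]

end Pool.Agent.Helper2.MK
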