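import Pool.Agent.Helper2.MK.Part

set_option autoImplicit false
set_option linter.unusedSectionVars false

open Set MeasureTheory Metric Filter Topology
open scoped NNReal ENNReal

namespace Pool.Agent.Helper2.MK

universe u

variable {V : Type*} [NormedAddCommGroup V] [NormedSpace ℝ V] [FiniteDimensional ℝ V]
  [MeasurableSpace V] [BorelSpace V] (μ : Measure V) [μ.IsAddHaarMeasure]
variable {Y : Type u} [TopologicalSpace Y] [T2Space Y]
variable {G : Type*} [Group G] [MulAction G Y] [ContinuousConstSMul G Y]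
variable {D : Y → V} {h : G →* (V ≃ᵃ[ℝ] V)}

/-- The linear part of an affine automorphism as a continuous linear map. -/
noncomputable def clin (A : V ≃ᵃ[ℝ] V) : V →L[ℝ] V :=
  LinearMap.toContinuousLinearMap (A.linear : V →ₗ[ℝ] V)

theorem affine_apply (A : V ≃ᵃ[ℝ] V) (x : V) : A x = clin A x + A 0 := by
  have := A.map_vadd 0 x
  simpa [clin] using this

theorem affine_hasFDerivAt (A : V ≃ᵃ[ℝ] V) (x : V) : HasFDerivAt A (clin A) x := by
  have h1 : ⇑A = fun x => clin A x + A 0 := funext (affine_apply A)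
  rw [h1]
  exact (clin A).hasFDerivAt.add_const _

theorem clin_mul (A B : V ≃ᵃ[ℝ] V) : clin (A * B) = (clin A).comp (clin B) := by
  ext x
  simp [clin]
  rfl

theorem clin_one : clin (1 : V ≃ᵃ[ℝ] V) = ContinuousLinearMap.id ℝ V := by
  ext x
  simp [clin]
  rfl

theorem chart_equivariant (_hDloc : IsLocalHomeomorph D)
    (hD : ∀ (g : G) y, D (g • y) = h g (D y)) {F : Y → V}
    (hF : ∀ (g : G) y, F (g • y) = h g (F y)) (g : G) {y : Y}
    {e e' : OpenPartialHomeomorph Y V} (he : ⇑e = D) (he' : ⇑e' = D) (hy : y ∈ e.source)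
    (hy' : g • y ∈ e'.source) :
    F ∘ e'.symm =ᶠ[𝓝 (D (g • y))] (fun x => h g (F (e.symm (h g⁻¹ x)))) := by
  have hDy : D (g • y) ∈ e'.target := by rw [← he']; exact e'.map_source hy'
  have hc : ContinuousAt e'.symm (D (g • y)) := e'.continuousAt_symm hDy
  have h1 : ContinuousAt (fun x => g⁻¹ • e'.symm x) (D (g • y)) := hc.const_smul _
  have h2 : ∀ᶠ x in 𝓝 (D (g • y)), g⁻¹ • e'.symm x ∈ e.source := by
    apply h1.eventually
    beta_reduce
    rw [symm_D he' hy', inv_smul_smul]
    exact e.open_source.mem_nhds hy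
  filter_upwards [h2, e'.open_target.mem_nhds hDy] with x hx hx'
  simp only [Function.comp_apply]
  have h3 : e.symm (h g⁻¹ x) = g⁻¹ • e'.symm x := by
    rw [← D_symm he' hx', ← hD, symm_D he hx, D_symm he' hx']
  rw [h3, ← hF, smul_inv_smul]

theorem hasFDerivAt_equivariant (hDloc : IsLocalHomeomorph D)
    (hD : ∀ (g : G) y, D (g • y) = h g (D y)) {F : Y → V}
    (hF : ∀ (g : G) y, F (g • y) = h g (F y)) (g : G) {y : Y}
    {e e' : OpenPartialHomeomorph Y V} (he : ⇑e = D) (he' : ⇑e' = D) (hy : y ∈ e.source)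
    (hy' : g • y ∈ e'.source) {T : V →L[ℝ] V} (hT : HasFDerivAt (F ∘ e.symm) T (D y)) :
    HasFDerivAt (F ∘ e'.symm) ((clin (h g)).comp (T.comp (clin (h g⁻¹)))) (D (g • y)) := by
  refine HasFDerivAt.congr_of_eventuallyEq ?_
    (chart_equivariant hDloc hD hF g he he' hy hy')
  have h1 : HasFDerivAt (h g⁻¹) (clin (h g⁻¹)) (D (g • y)) := affine_hasFDerivAt _ _
  have h2 : h g⁻¹ (D (g • y)) = D y := by rw [← hD, inv_smul_smul]
  have h3 : HasFDerivAt (F ∘ e.symm) T (h g⁻¹ (D (g • y))) := by rw [h2]; exact hT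
  exact (affine_hasFDerivAt (h g) _).comp _ (h3.comp _ h1)

theorem dd_equivariant (hDloc : IsLocalHomeomorph D)
    (hD : ∀ (g : G) y, D (g • y) = h g (D y)) {F : Y → V}
    (hF : ∀ (g : G) y, F (g • y) = h g (F y)) (g : G) (y : Y) :
    (dd D F (g • y)).det = (dd D F y).det := by
  obtain ⟨e, hy, he⟩ := hDloc y
  obtain ⟨e', hy', he'⟩ := hDloc (g • y)
  rw [dd_eq F he.symm hy, dd_eq F he'.symm hy']
  by_cases hdiff : DifferentiableAt ℝ (F ∘ e.symm) (D y)
  · have h1 := hasFDerivAt_equivariant hDloc hD hF g he.symm he'.symm hy hy' hdiff.hasFDerivAt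
    rw [h1.fderiv]
    have h2 : (clin (h g)).comp (clin (h g⁻¹)) = ContinuousLinearMap.id ℝ V := by
      rw [← clin_mul, ← map_mul, mul_inv_cancel, map_one, clin_one]
    have h3 : LinearMap.det ((clin (h g)) : V →ₗ[ℝ] V) *
        LinearMap.det ((clin (h g⁻¹)) : V →ₗ[ℝ] V) = 1 := by
      rw [← LinearMap.det_comp, ← ContinuousLinearMap.toLinearMap_comp, h2]
      simp
    unfold ContinuousLinearMap.det
    rw [ContinuousLinearMap.toLinearMap_comp, ContinuousLinearMap.toLinearMap_comp,
      LinearMap.det_comp, LinearMap.det_comp, mul_left_comm, h3, mul_one]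
  · have h1 : ¬ DifferentiableAt ℝ (F ∘ e'.symm) (D (g • y)) := by
      intro hcon
      apply hdiff
      have hy2 : g⁻¹ • g • y ∈ e.source := by rwa [inv_smul_smul]
      have h2 := hasFDerivAt_equivariant hDloc hD hF g⁻¹ he'.symm he.symm hy' hy2
        hcon.hasFDerivAt
      rw [inv_smul_smul] at h2
      exact h2.differentiableAt
    rw [fderiv_zero_of_not_differentiableAt hdiff, fderiv_zero_of_not_differentiableAt h1]

section key

variable {J : Type*} [Fintype J] {e : J → OpenPartialHomeomorph Y V} {S : J → Set Y}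
  {ρ : J → Y → ℝ}

/-- The volume integral of an equivariant map. -/
noncomputable def volInt (D : Y → V) (e : J → OpenPartialHomeomorph Y V) (S : J → Set Y)
    (ρ : J → Y → ℝ) (F : Y → V) : ℝ :=
  ∑ j, ∫ x in D '' S j, ρ j ((e j).symm x) * (dd D F ((e j).symm x)).det ∂μ

theorem one_step (hPD : PD G Y) (hDloc : IsLocalHomeomorph D)
    (hD : ∀ (g : G) y, D (g • y) = h g (D y))
    (hdet : ∀ g, |LinearMap.det ((h g).linear : V →ₗ[ℝ] V)| = 1)
    (he : ∀ j, ⇑(e j) = D) (hS : ∀ j, IsCompact (S j)) (hSe : ∀ j, S j ⊆ (e j).source)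
    (hdisj : ∀ j, ∀ g : G, g ≠ 1 → Disjoint ((fun z => g • z) '' (e j).source) (e j).source)
    (hρ : ∀ j, DLip D (ρ j)) (hρ0 : ∀ j, ∀ z ∉ S j, ρ j z = 0)
    (hsum : ∀ y, ∀ T : Finset G, (∀ g ∉ T, ∀ j, ρ j (g • y) = 0) →
      ∑ g ∈ T, ∑ j, ρ j (g • y) = 1)
    {F F' : Y → V} (hFl : DLip D F) (hFl' : DLip D F')
    (hF : ∀ (g : G) y, F (g • y) = h g (F y)) (hF' : ∀ (g : G) y, F' (g • y) = h g (F' y))
    (j₀ : J) (heq : ∀ y, (¬ ∃ g : G, y ∈ (fun z => g • z) '' S j₀) → F y = F' y) :
    volInt μ D e S ρ F = volInt μ D e S ρ F' := by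
  have hρc : ∀ j, Continuous (ρ j) := fun j => (hρ j).continuous hDloc.continuous
  set Φ : Y → ℝ := fun y => (dd D F y).det - (dd D F' y).det with hΦ
  have hΦint : DInt μ D Φ := (hFl.dInt_det μ).sub μ (hFl'.dInt_det μ)
  have hclosed := isClosed_saturation hPD hDloc (hS j₀)
  have hmain := unfold_integral μ hPD hD hdet he hS hSe hρ0 hρc hsum (he j₀) (hS j₀) (hSe j₀)
    (fun g hg => (hdisj j₀ g hg).mono (image_mono (hSe j₀)) (hSe j₀)) (Φ := Φ)
    (fun g y => by simp only [hΦ, dd_equivariant hDloc hD hF, dd_equivariant hDloc hD hF'])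
    (fun y hy => by
      by_contra hcon
      apply hy
      have h1 : ∀ᶠ z in 𝓝 y, F z = F' z := by
        filter_upwards [hclosed.isOpen_compl.mem_nhds hcon] with z hz
        exact heq z hz
      simp only [hΦ, dd_congr hDloc h1, sub_self])
    hΦint
  have hzero : ∫ x in D '' S j₀, Φ ((e j₀).symm x) ∂μ = 0 := by
    have h1 := nl_local μ (e j₀).open_target (isCompact_image (he j₀) (hSe j₀) (hS j₀))
      (image_subset_target (he j₀) (hSe j₀)) (hFl.locallyLipschitzOn (he j₀))
      (hFl'.locallyLipschitzOn (he j₀)) (by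
        rintro x ⟨hx, hx'⟩
        simp only [Function.comp_apply]
        apply heq
        rintro ⟨g, z, hz, hzx⟩
        simp only at hzx
        by_cases hg : g = 1
        · apply hx'
          refine ⟨z, hz, ?_⟩
          rw [hg, one_smul] at hzx
          rw [hzx, D_symm (he j₀) hx]
        · exact Set.disjoint_left.mp (hdisj j₀ g hg) ⟨z, hSe j₀ hz, hzx⟩
            ((e j₀).map_target hx))
    have hI1 := hFl.dInt_det μ (e j₀) (he j₀) (S j₀) (hSe j₀) (hS j₀)
    have hI2 := hFl'.dInt_det μ (e j₀) (he j₀) (S j₀) (hSe j₀) (hS j₀)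
    have h2 : ∫ x in D '' S j₀, Φ ((e j₀).symm x) ∂μ
        = (∫ x in D '' S j₀, (dd D F ((e j₀).symm x)).det ∂μ)
          - ∫ x in D '' S j₀, (dd D F' ((e j₀).symm x)).det ∂μ := integral_sub hI1 hI2
    have hm := (isCompact_image (he j₀) (hSe j₀) (hS j₀)).measurableSet
    have h3 : ∀ f : Y → V, ∫ x in D '' S j₀, (dd D f ((e j₀).symm x)).det ∂μ
        = ∫ x in D '' S j₀, (fderiv ℝ (f ∘ (e j₀).symm) x).det ∂μ := by
      intro f
      apply setIntegral_congr_fun hm
      intro x hx
      simp only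
      rw [dd_symm f (he j₀) (image_subset_target (he j₀) (hSe j₀) hx)]
    rw [h2, h3, h3, h1, sub_self]
  rw [hzero] at hmain
  rw [← sub_eq_zero, ← hmain]
  unfold volInt
  rw [← Finset.sum_sub_distrib]
  refine Finset.sum_congr rfl fun j _ => ?_
  rw [← integral_sub]
  · congr 1
    ext x
    simp only [hΦ]
    ring
  · exact ((hFl.dInt_det μ).cont_mul μ (hρc j)) (e j) (he j) (S j) (hSe j) (hS j)
  · exact ((hFl'.dInt_det μ).cont_mul μ (hρc j)) (e j) (he j) (S j) (hSe j) (hS j)

end key

/-- **Key theorem.** An equivariant locally Lipschitz map cannot have almost everywhere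
singular derivative. -/
theorem no_singular [Nonempty Y] (hPD : PD G Y)
    (hfree : ∀ (g : G) (y : Y), g • y = y → g = 1) (hDloc : IsLocalHomeomorph D)
    (hD : ∀ (g : G) y, D (g • y) = h g (D y))
    (hdet : ∀ g, |LinearMap.det ((h g).linear : V →ₗ[ℝ] V)| = 1)
    (hcoc : ∃ K : Set Y, IsCompact K ∧ ∀ y, ∃ g : G, g • y ∈ K)
    {F : Y → V} (hFl : DLip D F) (hF : ∀ (g : G) y, F (g • y) = h g (F y))
    (hsing : ∀ e : OpenPartialHomeomorph Y V, ⇑e = D →
      ∀ᵐ x ∂(μ.restrict e.target), (fderiv ℝ (F ∘ e.symm) x).det = 0) : False := by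
  classical
  obtain ⟨J, _, e, S, ρ, he, hS, hSe, hdisj, hρ, hρnn, hρ0, hsum⟩ :=
    exists_partition hPD hfree hDloc hD hcoc
  have hρc : ∀ j, Continuous (ρ j) := fun j => (hρ j).continuous hDloc.continuous
  -- the invariant weights
  set ω : J → Y → ℝ := fun j => gsum (ρ j) (fun _ : G => (1 : ℝ)) with hω
  have hωinv : ∀ j (g : G) y, ω j (g • y) = ω j y := fun j g y => by
    simp only [hω, gsum_smul_left]
  have hωl : ∀ j, DLip D (ω j) := fun j => (hρ j).gsum hPD hDloc hD (hS j) (hρ0 j) _
  have hω0 : ∀ j y, (¬ ∃ g : G, y ∈ (fun z => g • z) '' S j) → ω j y = 0 := by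
    intro j y hy
    simp only [hω]
    rw [gsum_eq (T := ∅), Finset.sum_empty]
    intro g _
    apply hρ0
    intro hcon
    exact hy ⟨g, g⁻¹ • y, hcon, by simp⟩
  have hTex : ∀ y, ∃ T : Finset G, ∀ g ∉ T, ∀ j, ρ j (g • y) = 0 := by
    intro y
    have : ∀ j, ∃ T : Finset G, ∀ g ∉ T, g⁻¹ • y ∉ S j := fun j => exists_finset hPD (hS j) y
    choose T hT using this
    refine ⟨Finset.univ.biUnion fun j => (T j).image (·⁻¹), fun g hg j => hρ0 _ _ ?_⟩
    have := hT j g⁻¹ (fun hcon => hg (Finset.mem_biUnion.mpr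
      ⟨j, Finset.mem_univ _, Finset.mem_image.mpr ⟨g⁻¹, hcon, by simp⟩⟩))
    simpa using this
  have hωsum : ∀ y, ∑ j, ω j y = 1 := by
    intro y
    obtain ⟨T, hT⟩ := hTex y
    rw [← hsum y T hT, Finset.sum_comm]
    refine Finset.sum_congr rfl fun j _ => ?_
    simp only [hω]
    rw [gsum_eq (T := T.image (·⁻¹))]
    · rw [Finset.sum_image (fun a _ b _ hab => inv_injective hab)]
      simp
    · intro g hg
      apply hT
      intro hcon
      exact hg (Finset.mem_image.mpr ⟨g⁻¹, hcon, by simp⟩)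
  -- telescoping
  set FA : Finset J → Y → V := fun A y => D y + (∑ j ∈ A, ω j y) • (F y - D y) with hFA
  have hFAl : ∀ A, DLip D (FA A) := fun A =>
    (DLip.self D).add ((DLip.sum A fun j _ => hωl j).smul hDloc.continuous
      (hFl.sub (DLip.self D)))
  have hFAe : ∀ A (g : G) y, FA A (g • y) = h g (FA A y) := by
    intro A g y
    simp only [hFA, hωinv, hF, hD]
    rw [affine_apply (h g) (D y + _), affine_apply (h g) (D y), affine_apply (h g) (F y)]
    simp only [map_add, map_smul, map_sub, add_sub_add_right_eq_sub]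
    abel
  have htel : ∀ A, volInt μ D e S ρ (FA A) = volInt μ D e S ρ D := by
    intro A
    induction A using Finset.induction_on with
    | empty =>
      congr 1
      ext y
      simp [hFA]
    | insert j A hj ih =>
      rw [← ih]
      refine one_step μ hPD hDloc hD hdet he hS hSe hdisj hρ hρ0 hsum (hFAl _) (hFAl _)
        (hFAe _) (hFAe _) j fun y hy => ?_
      simp only [hFA]
      rw [Finset.sum_insert hj, hω0 j y hy, zero_add]
  have hF_univ : FA Finset.univ = F := by
    ext y
    simp only [hFA, hωsum, one_smul]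
    abel
  have h1 := htel Finset.univ
  rw [hF_univ] at h1
  have hvF : volInt μ D e S ρ F = 0 := by
    unfold volInt
    apply Finset.sum_eq_zero
    intro j _
    apply integral_eq_zero_of_ae
    have hsub := image_subset_target (he j) (hSe j)
    have h2 : ∀ᵐ x ∂(μ.restrict (D '' S j)), (fderiv ℝ (F ∘ (e j).symm) x).det = 0 :=
      ae_restrict_of_ae_restrict_of_subset hsub (hsing (e j) (he j))
    have h3 : ∀ᵐ x ∂(μ.restrict (D '' S j)), x ∈ D '' S j :=
      ae_restrict_mem (isCompact_image (he j) (hSe j) (hS j)).measurableSet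
    filter_upwards [h2, h3] with x hx hx'
    rw [dd_symm F (he j) (hsub hx'), hx, mul_zero]
    rfl
  have hvD : 0 < volInt μ D e S ρ D := by
    have hval : ∀ j, ∫ x in D '' S j, ρ j ((e j).symm x) * (dd D D ((e j).symm x)).det ∂μ
        = ∫ x in D '' S j, ρ j ((e j).symm x) ∂μ := by
      intro j
      apply setIntegral_congr_fun (isCompact_image (he j) (hSe j) (hS j)).measurableSet
      intro x hx
      simp only
      have hx' := image_subset_target (he j) (hSe j) hx
      have h2 : dd D D ((e j).symm x) = ContinuousLinearMap.id ℝ V := by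
        rw [dd_symm D (he j) hx']
        have : D ∘ (e j).symm =ᶠ[𝓝 x] id := by
          filter_upwards [(e j).open_target.mem_nhds hx'] with w hw
          simp only [Function.comp_apply, id]
          exact D_symm (he j) hw
        rw [this.fderiv_eq, fderiv_id]
      rw [h2]
      simp [ContinuousLinearMap.det]
    unfold volInt
    simp_rw [hval]
    obtain ⟨y⟩ := ‹Nonempty Y›
    obtain ⟨T, hT⟩ := hTex y
    have hs := hsum y T hT
    have hex : ∃ g ∈ T, 0 < ∑ j, ρ j (g • y) := by
      by_contra hcon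
      push Not at hcon
      have := Finset.sum_nonpos hcon
      linarith
    obtain ⟨g, _, hg⟩ := hex
    have hex2 : ∃ j, 0 < ρ j (g • y) := by
      by_contra hcon
      push Not at hcon
      have := Finset.sum_nonpos (s := Finset.univ) fun j _ => hcon j
      linarith
    obtain ⟨j, hj⟩ := hex2
    apply Finset.sum_pos'
    · intro j _
      exact integral_nonneg fun x => hρnn _ _
    · refine ⟨j, Finset.mem_univ j, ?_⟩
      have hint : IntegrableOn (fun x => ρ j ((e j).symm x)) (D '' S j) μ := by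
        apply ContinuousOn.integrableOn_compact (isCompact_image (he j) (hSe j) (hS j))
        exact (hρc j).comp_continuousOn
          ((e j).continuousOn_symm.mono (image_subset_target (he j) (hSe j)))
      rw [setIntegral_pos_iff_support_of_nonneg_ae (ae_of_all _ fun x => hρnn _ _) hint]
      set z := g • y with hz
      have hzS : z ∈ S j := by
        by_contra hcon
        rw [hρ0 j z hcon] at hj
        exact lt_irrefl _ hj
      have hopen : IsOpen (D '' ((e j).source ∩ {w | 0 < ρ j w})) :=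
        hDloc.isOpenMap _ ((e j).open_source.inter (isOpen_lt continuous_const (hρc j)))
      have hsub : D '' ((e j).source ∩ {w | 0 < ρ j w}) ⊆
          (Function.support fun x => ρ j ((e j).symm x)) ∩ D '' S j := by
        rintro _ ⟨w, ⟨hw, hw'⟩, rfl⟩
        rw [mem_ofPred_eq] at hw'
        refine ⟨?_, ⟨w, ?_, rfl⟩⟩
        · rw [Function.mem_support, symm_D (he j) hw]
          exact hw'.ne'
        · by_contra hcon
          rw [hρ0 j w hcon] at hw'
          exact lt_irrefl _ hw'
      exact (hopen.measure_pos μ ⟨D z, z, ⟨hSe j hzS, hj⟩, rfl⟩).trans_le (measure_mono hsub)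
  rw [hvF] at h1
  linarith

end Pool.Agent.Helper2.MK
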