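import Mathlib

set_option autoImplicit false

open Set MeasureTheory Metric Filter Topology
open scoped NNReal ENNReal

namespace Pool.Agent.Helper2.MK

variable {V : Type*} [NormedAddCommGroup V] [NormedSpace ℝ V] [FiniteDimensional ℝ V]
  [MeasurableSpace V] [BorelSpace V] (μ : Measure V) [μ.IsAddHaarMeasure]

/-- The image of a null set under a Lipschitz map is null. -/
theorem lip_image_null {f : V → V} {s : Set V} {C : ℝ≥0} (hf : LipschitzOnWith C f s)
    (hs : μ s = 0) : μ (f '' s) = 0 := by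
  have h1 : μ ≪ (Measure.hausdorffMeasure (Module.finrank ℝ V : ℝ) : Measure V) :=
    Measure.absolutelyContinuous_isAddHaarMeasure μ _
  have h2 : (Measure.hausdorffMeasure (Module.finrank ℝ V : ℝ) : Measure V) ≪ μ :=
    Measure.absolutelyContinuous_isAddHaarMeasure _ μ
  apply h1
  have h3 := hf.hausdorffMeasure_image_le (d := (Module.finrank ℝ V : ℝ)) (by positivity)
  rw [h2 hs, mul_zero] at h3
  exact le_antisymm h3 bot_le

theorem locLip_image_null {f : V → V} {Ω N : Set V} (hf : LocallyLipschitzOn Ω f)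
    (hN : N ⊆ Ω) (hs : μ N = 0) : μ (f '' N) = 0 := by
  have h : ∀ x ∈ N, ∃ u ∈ 𝓝[N] x, μ (f '' (u ∩ N)) = 0 := by
    intro x hx
    obtain ⟨C, t, ht, hC⟩ := hf (hN hx)
    refine ⟨t, nhdsWithin_mono x hN ht, ?_⟩
    exact lip_image_null μ (hC.mono inter_subset_left) (measure_mono_null inter_subset_right hs)
  choose! u hu hu0 using h
  obtain ⟨t, htN, htc, hcov⟩ := TopologicalSpace.countable_cover_nhdsWithin hu
  have : f '' N ⊆ ⋃ x ∈ t, f '' (u x ∩ N) := by
    rintro _ ⟨y, hy, rfl⟩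
    obtain ⟨x, hx, hyx⟩ := mem_iUnion₂.mp (hcov hy)
    exact mem_iUnion₂.mpr ⟨x, hx, y, ⟨hyx, hy⟩, rfl⟩
  refine measure_mono_null this ?_
  rw [measure_biUnion_null_iff htc]
  exact fun x hx => hu0 x (htN hx)

theorem locLip_ae_diff {W : Type*} [NormedAddCommGroup W] [NormedSpace ℝ W]
    [FiniteDimensional ℝ W] {f : V → W} {Ω : Set V} (hΩ : IsOpen Ω)
    (hf : LocallyLipschitzOn Ω f) : μ (Ω \ {x | DifferentiableAt ℝ f x}) = 0 := by
  apply measure_null_of_locally_null
  intro x hx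
  obtain ⟨C, t, ht, hC⟩ := hf hx.1
  rw [hΩ.nhdsWithin_eq hx.1] at ht
  obtain ⟨ε, hε, hb⟩ := Metric.mem_nhds_iff.mp ht
  refine ⟨ball x ε ∩ (Ω \ {x | DifferentiableAt ℝ f x}),
    inter_comm (ball x ε) _ ▸ inter_mem_nhdsWithin _ (ball_mem_nhds x hε), ?_⟩
  have h1 := (hC.mono hb).ae_differentiableWithinAt_of_mem (μ := μ)
  refine measure_mono_null ?_ h1
  intro y hy
  simp only [mem_compl_iff, mem_ofPred_eq]
  intro hcon
  apply hy.2.2
  exact (hcon hy.1).differentiableAt (isOpen_ball.mem_nhds hy.1)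

end Pool.Agent.Helper2.MK
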