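import Pool.Agent.Helper2.MK.Lip
import Pool.Agent.Helper2.MK.Interp

set_option autoImplicit false
set_option linter.unusedSectionVars false

open Set MeasureTheory Metric Filter Topology
open scoped NNReal ENNReal

namespace Pool.Agent.Helper2.MK

variable {V : Type*} [NormedAddCommGroup V] [NormedSpace ℝ V] [FiniteDimensional ℝ V]
  [MeasurableSpace V] [BorelSpace V] (μ : Measure V) [μ.IsAddHaarMeasure]

/-- The interpolation `x + t (A x - x)` between the identity and `A`. -/
def phi (A : V → V) (t : ℝ) (x : V) : V := x + t • (A x - x)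

theorem lip_sub_id {A : V → V} {L : ℝ≥0} (hA : LipschitzWith L A) (x y : V) :
    ‖(A x - x) - (A y - y)‖ ≤ (L + 1) * ‖x - y‖ := by
  have h := hA.dist_le_mul x y
  rw [dist_eq_norm, dist_eq_norm] at h
  calc ‖(A x - x) - (A y - y)‖ = ‖(A x - A y) - (x - y)‖ := by congr 1; abel
    _ ≤ ‖A x - A y‖ + ‖x - y‖ := norm_sub_le _ _
    _ ≤ L * ‖x - y‖ + ‖x - y‖ := by gcongr
    _ = (L + 1) * ‖x - y‖ := by ring

theorem phi_bijective {A : V → V} {L : ℝ≥0} (hA : LipschitzWith L A) {t : ℝ} (ht : 0 < t)
    (htL : t * (L + 1) < 1) : Function.Bijective (phi A t) := by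
  have : CompleteSpace V := FiniteDimensional.complete ℝ V
  constructor
  · intro x y hxy
    unfold phi at hxy
    have h1 : x - y = t • ((A y - y) - (A x - x)) := by
      rw [smul_sub]
      have := sub_eq_zero.mpr hxy
      rw [← sub_eq_zero]
      rw [← this]; abel
    have h2 : ‖x - y‖ ≤ t * ((L + 1) * ‖x - y‖) := by
      conv_lhs => rw [h1, norm_smul, Real.norm_of_nonneg ht.le]
      gcongr
      refine (lip_sub_id hA y x).trans_eq ?_
      rw [norm_sub_rev]
    have h3 : ‖x - y‖ = 0 := by
      by_contra h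
      have hpos : 0 < ‖x - y‖ := lt_of_le_of_ne (norm_nonneg _) (Ne.symm h)
      nlinarith
    exact sub_eq_zero.mp (norm_eq_zero.mp h3)
  · intro y
    have hc : ContractingWith (Real.toNNReal (t * (L + 1))) (fun x => y - t • (A x - x)) := by
      constructor
      · rw [← NNReal.coe_lt_coe, Real.coe_toNNReal _ (by positivity)]
        exact htL
      · apply LipschitzWith.of_dist_le_mul
        intro a b
        rw [Real.coe_toNNReal _ (by positivity), dist_eq_norm, dist_eq_norm]
        have : (y - t • (A a - a)) - (y - t • (A b - b)) = t • ((A b - b) - (A a - a)) := by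
          module
        rw [this, norm_smul, Real.norm_of_nonneg ht.le, mul_assoc]
        gcongr
        refine (lip_sub_id hA b a).trans_eq ?_
        rw [norm_sub_rev]
    refine ⟨ContractingWith.fixedPoint _ hc, ?_⟩
    have := hc.fixedPoint_isFixedPt
    unfold Function.IsFixedPt at this
    unfold phi
    exact (sub_eq_iff_eq_add.mp this).symm

theorem phi_lipschitz {A : V → V} {L : ℝ≥0} (hA : LipschitzWith L A) (t : ℝ) :
    ∃ C : ℝ≥0, LipschitzWith C (phi A t) :=
  ⟨_, LipschitzWith.id.add ((lipschitzWith_smul t).comp (hA.sub LipschitzWith.id))⟩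

theorem exists_det_pos (V : Type*) [NormedAddCommGroup V] [NormedSpace ℝ V]
    [FiniteDimensional ℝ V] : ∃ ε > 0, ∀ B : V →L[ℝ] V, ‖B - ContinuousLinearMap.id ℝ V‖ < ε →
      0 < B.det := by
  have hc : Continuous fun f : V →L[ℝ] V => f.det := ContinuousLinearMap.continuous_det
  have h1 : {f : V →L[ℝ] V | 0 < f.det} ∈ 𝓝 (ContinuousLinearMap.id ℝ V) := by
    apply (isOpen_lt continuous_const hc).mem_nhds
    simp [ContinuousLinearMap.det]
  obtain ⟨ε, hε, h⟩ := Metric.mem_nhds_iff.mp h1
  exact ⟨ε, hε, fun B hB => h (by rwa [mem_ball, dist_eq_norm])⟩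

theorem phi_hasFDerivAt {A : V → V} {x : V} (hx : DifferentiableAt ℝ A x) (t : ℝ) :
    HasFDerivAt (phi A t) (ContinuousLinearMap.id ℝ V +
      t • (fderiv ℝ A x - ContinuousLinearMap.id ℝ V)) x :=
  (hasFDerivAt_id x).add ((hx.hasFDerivAt.sub (hasFDerivAt_id x)).const_smul t)

theorem measure_phi_image {A : V → V} {L : ℝ≥0} (hA : LipschitzWith L A) {t : ℝ} (ht : 0 < t)
    (htL : t * (L + 1) < 1)
    (hpos : ∀ x, DifferentiableAt ℝ A x → 0 < (ContinuousLinearMap.id ℝ V +
      t • (fderiv ℝ A x - ContinuousLinearMap.id ℝ V)).det)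
    {B : Set V} (hB : MeasurableSet B) :
    μ (phi A t '' B) = ∫⁻ x in B, ENNReal.ofReal (ContinuousLinearMap.id ℝ V +
      t • (fderiv ℝ A x - ContinuousLinearMap.id ℝ V)).det ∂μ := by
  set E : Set V := {x | DifferentiableAt ℝ A x} with hE
  have : CompleteSpace V := FiniteDimensional.complete ℝ V
  have hEm : MeasurableSet E := measurableSet_of_differentiableAt ℝ A
  have hE0 : μ Eᶜ = 0 := hA.ae_differentiableAt
  obtain ⟨C, hC⟩ := phi_lipschitz hA t
  have h1 : μ (phi A t '' B) = μ (phi A t '' (B ∩ E)) := by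
    apply le_antisymm
    · have : phi A t '' B ⊆ phi A t '' (B ∩ E) ∪ phi A t '' Eᶜ := by
        rw [← image_union]
        apply image_mono
        intro x hx
        by_cases hxE : x ∈ E
        · exact Or.inl ⟨hx, hxE⟩
        · exact Or.inr hxE
      refine (measure_mono this).trans ((measure_union_le _ _).trans ?_)
      rw [lip_image_null μ hC.lipschitzOnWith hE0, add_zero]
    · exact measure_mono (image_mono inter_subset_left)
  rw [h1, ← lintegral_abs_det_fderiv_eq_addHaar_image μ (hB.inter hEm)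
    (f' := fun x => ContinuousLinearMap.id ℝ V +
      t • (fderiv ℝ A x - ContinuousLinearMap.id ℝ V))
    (fun x hx => (phi_hasFDerivAt hx.2 t).hasFDerivWithinAt)
    ((phi_bijective hA ht htL).injective.injOn)]
  have h2 : ∫⁻ x in B, ENNReal.ofReal (ContinuousLinearMap.id ℝ V +
      t • (fderiv ℝ A x - ContinuousLinearMap.id ℝ V)).det ∂μ
      = ∫⁻ x in B ∩ E, ENNReal.ofReal (ContinuousLinearMap.id ℝ V +
      t • (fderiv ℝ A x - ContinuousLinearMap.id ℝ V)).det ∂μ := by
    apply setLIntegral_congr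
    refine (inter_ae_eq_left_of_ae_eq_univ ?_).symm
    exact ae_eq_univ.mpr hE0
  rw [h2]
  apply setLIntegral_congr_fun (hB.inter hEm)
  intro x hx
  simp only
  rw [abs_of_pos (hpos x hx.2)]

theorem measurable_phi_det (A : V → V) (t : ℝ) :
    Measurable fun x => (ContinuousLinearMap.id ℝ V +
      t • (fderiv ℝ A x - ContinuousLinearMap.id ℝ V)).det := by
  have : CompleteSpace V := FiniteDimensional.complete ℝ V
  have h1 : Measurable (fderiv ℝ A) := measurable_fderiv ℝ A
  have h2 : Continuous fun f : V →L[ℝ] V => (ContinuousLinearMap.id ℝ V +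
      t • (f - ContinuousLinearMap.id ℝ V)).det :=
    ContinuousLinearMap.continuous_det.comp (by fun_prop)
  exact h2.measurable.comp h1

/-- **Null Lagrangian property of the determinant**, global Lipschitz version, by Milnor's
polynomial volume argument. -/
theorem nl_global {A₀ A₁ : V → V} {L : ℝ≥0} (h0 : LipschitzWith L A₀) (h1 : LipschitzWith L A₁)
    {B : Set V} (hB : MeasurableSet B) (hBf : μ B ≠ ∞) (hout : ∀ x ∉ B, A₀ x = A₁ x) :
    ∫ x in B, (fderiv ℝ A₁ x).det ∂μ = ∫ x in B, (fderiv ℝ A₀ x).det ∂μ := by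
  have : CompleteSpace V := FiniteDimensional.complete ℝ V
  obtain ⟨ε₀, hε₀, hdet⟩ := exists_det_pos V
  set ε : ℝ := min (1 / (L + 2)) (ε₀ / (L + 2)) with hε
  have hεpos : 0 < ε := lt_min (by positivity) (by positivity)
  obtain ⟨t, c, ht, hc⟩ := exists_det_interp V hεpos
  have hsmall : ∀ j, t j * (L + 1) < 1 := by
    intro j
    have h2 : t j < 1 / (L + 2) := (ht j).2.trans_le (min_le_left _ _)
    rw [lt_div_iff₀ (by positivity)] at h2
    nlinarith [(ht j).1]
  have hpos : ∀ (A : V → V), LipschitzWith L A → ∀ j x,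
      0 < (ContinuousLinearMap.id ℝ V +
        t j • (fderiv ℝ A x - ContinuousLinearMap.id ℝ V)).det := by
    intro A hA j x
    apply hdet
    rw [add_sub_cancel_left, norm_smul, Real.norm_of_nonneg (ht j).1.le]
    have h3 : ‖fderiv ℝ A x‖ ≤ L := norm_fderiv_le_of_lipschitz ℝ hA
    have h4 : ‖fderiv ℝ A x - ContinuousLinearMap.id ℝ V‖ ≤ L + 1 :=
      (norm_sub_le _ _).trans (add_le_add h3 ContinuousLinearMap.norm_id_le)
    have h2 : t j < ε₀ / (L + 2) := (ht j).2.trans_le (min_le_right _ _)
    rw [lt_div_iff₀ (by positivity)] at h2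
    calc t j * ‖fderiv ℝ A x - ContinuousLinearMap.id ℝ V‖ ≤ t j * (L + 1) := by
          gcongr
          exact (ht j).1.le
      _ < ε₀ := by nlinarith [(ht j).1]
  have hint : ∀ (A : V → V), LipschitzWith L A → ∀ j,
      IntegrableOn (fun x => (ContinuousLinearMap.id ℝ V +
        t j • (fderiv ℝ A x - ContinuousLinearMap.id ℝ V)).det) B μ := by
    intro A hA j
    have hcomp : IsCompact (closedBall (0 : V →L[ℝ] V) L) := by
      have : ProperSpace (V →L[ℝ] V) := FiniteDimensional.proper ℝ _
      exact isCompact_closedBall _ _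
    have hcont : Continuous fun f : V →L[ℝ] V => (ContinuousLinearMap.id ℝ V +
        t j • (f - ContinuousLinearMap.id ℝ V)).det :=
      ContinuousLinearMap.continuous_det.comp (by fun_prop)
    obtain ⟨M, hM⟩ := hcomp.exists_bound_of_continuousOn hcont.continuousOn
    apply Measure.integrableOn_of_bounded hBf (M := M)
    · exact (measurable_phi_det A (t j)).aestronglyMeasurable
    · apply ae_of_all
      intro x
      apply hM
      rw [mem_closedBall, dist_zero_right]
      exact norm_fderiv_le_of_lipschitz ℝ hA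
  have hvol : ∀ j, ∫ x in B, (ContinuousLinearMap.id ℝ V +
        t j • (fderiv ℝ A₁ x - ContinuousLinearMap.id ℝ V)).det ∂μ
      = ∫ x in B, (ContinuousLinearMap.id ℝ V +
        t j • (fderiv ℝ A₀ x - ContinuousLinearMap.id ℝ V)).det ∂μ := by
    intro j
    have himg : phi A₀ (t j) '' B = phi A₁ (t j) '' B := by
      have hb0 := phi_bijective h0 (ht j).1 (hsmall j)
      have hb1 := phi_bijective h1 (ht j).1 (hsmall j)
      have hcc : phi A₀ (t j) '' Bᶜ = phi A₁ (t j) '' Bᶜ := by
        apply image_congr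
        intro x hx
        unfold phi
        rw [hout x hx]
      rw [image_compl_eq hb0, image_compl_eq hb1, compl_inj_iff] at hcc
      exact hcc
    have e1 := measure_phi_image μ h1 (ht j).1 (hsmall j) (fun x _ => hpos A₁ h1 j x) hB
    have e0 := measure_phi_image μ h0 (ht j).1 (hsmall j) (fun x _ => hpos A₀ h0 j x) hB
    rw [integral_eq_lintegral_of_nonneg_ae (ae_of_all _ fun x => (hpos A₁ h1 j x).le)
        (measurable_phi_det A₁ (t j)).aestronglyMeasurable,
      integral_eq_lintegral_of_nonneg_ae (ae_of_all _ fun x => (hpos A₀ h0 j x).le)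
        (measurable_phi_det A₀ (t j)).aestronglyMeasurable, ← e1, ← e0, himg]
  have hexp : ∀ (A : V → V), LipschitzWith L A → ∫ x in B, (fderiv ℝ A x).det ∂μ =
      ∑ j, c j * ∫ x in B, (ContinuousLinearMap.id ℝ V +
        t j • (fderiv ℝ A x - ContinuousLinearMap.id ℝ V)).det ∂μ := by
    intro A hA
    have : ∀ x, (fderiv ℝ A x).det = ∑ j, c j * (ContinuousLinearMap.id ℝ V +
        t j • (fderiv ℝ A x - ContinuousLinearMap.id ℝ V)).det := fun x => hc _
    simp_rw [this]
    rw [integral_finsetSum _ fun j _ => (hint A hA j).const_mul (c j)]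
    refine Finset.sum_congr rfl fun j _ => ?_
    rw [integral_const_mul]
  rw [hexp A₁ h1, hexp A₀ h0]
  exact Finset.sum_congr rfl fun j _ => by rw [hvol j]

end Pool.Agent.Helper2.MK
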