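import Pool.Agent.Helper2.MK.Null
import Pool.Agent.Helper2.MK.Data

/-!
# Holonomy-invariant retracts

Let `M` be a compact affine manifold with parallel volume, modelled on a finite-dimensional real
vector space `V` (for instance `ℝⁿ`), with affine holonomy `hol : G → Aff(V)`.  If a subset `A` of
`V` is invariant under the holonomy and is the image of a locally Lipschitz retraction of `V`
(which is not required to be equivariant), then `A` has positive Lebesgue measure.  So for example
no graph of a locally Lipschitz function of `k < n` variables is invariant, and the developing image
is not the open region above the graph of a locally Lipschitz function of `n - 1` variables.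

The proof constructs, by induction over a finite cover of `M`, a holonomy-equivariant locally
Lipschitz map `Y → A`, and shows that no such map has null image.
-/

set_option autoImplicit false

open Set MeasureTheory

namespace Pool.Agent.Helper2.MK.NoNullInvariantRetract

open Pool.Agent.Helper2.MK

/-- A holonomy-invariant locally Lipschitz retract of `V` has positive Lebesgue (Haar) measure, for
every compact affine manifold with parallel volume. -/
theorem pos_measure_retract {V G Y : Type*} [NormedAddCommGroup V] [NormedSpace ℝ V] [FiniteDimensional ℝ V]
    [MeasurableSpace V] [BorelSpace V] [Group G] [TopologicalSpace Y] [T2Space Y] [Nonempty Y]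
    [MulAction G Y] (M : AffineDeveloping V G Y) (A : Set V) (hinv : M.Invariant A) (r : V → V)
    (hr : LocallyLipschitz r) (hrA : ∀ x, r x ∈ A) (hid : ∀ x ∈ A, r x = x) (μ : Measure V)
    [μ.IsAddHaarMeasure] : 0 < μ A := by
  have : ContinuousConstSMul G Y := ⟨M.covering.continuous_smul⟩
  exact pos_iff_ne_zero.mpr (no_null_retract (h := M.holHom) μ
    (fun K hK => M.covering.proper K hK) M.covering.free M.dev_local M.dev_smul M.volume_hol
    M.covering.cocompact hinv hr hrA hid)

end Pool.Agent.Helper2.MK.NoNullInvariantRetract
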