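import Pool.Agent.Helper2.MK.Fix

set_option autoImplicit false
set_option linter.unusedSectionVars false

open Set MeasureTheory Metric Filter Topology
open scoped NNReal ENNReal

namespace Pool.Agent.Helper2.MK

section null

variable {V : Type*} [NormedAddCommGroup V] [NormedSpace ℝ V] [FiniteDimensional ℝ V]
  [MeasurableSpace V] [BorelSpace V] (μ : Measure V) [μ.IsAddHaarMeasure]

open Classical in
/-- An approximation constant forcing injectivity. -/
noncomputable def rad (A : V →L[ℝ] V) : ℝ≥0 :=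
  if h : A.det ≠ 0 then
    if ‖((A.toContinuousLinearEquivOfDetNeZero h).symm : V →L[ℝ] V)‖₊ = 0 then 1
    else ‖((A.toContinuousLinearEquivOfDetNeZero h).symm : V →L[ℝ] V)‖₊⁻¹ / 2
  else 1

theorem rad_ne_zero (A : V →L[ℝ] V) : rad A ≠ 0 := by
  unfold rad
  split_ifs with h1 h2
  · exact one_ne_zero
  · exact div_ne_zero (inv_ne_zero h2) two_ne_zero
  · exact one_ne_zero

theorem injOn_of_rad {f : V → V} {A : V →L[ℝ] V} (hA : A.det ≠ 0) {s : Set V}
    (hf : ApproximatesLinearOn f A s (rad A)) : InjOn f s := by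
  have h1 : ApproximatesLinearOn f
      ((A.toContinuousLinearEquivOfDetNeZero hA : V ≃L[ℝ] V) : V →L[ℝ] V) s (rad A) := by
    rw [ContinuousLinearMap.coe_toContinuousLinearEquivOfDetNeZero]
    exact hf
  apply h1.injOn
  by_cases h2 : ‖((A.toContinuousLinearEquivOfDetNeZero hA).symm : V →L[ℝ] V)‖₊ = 0
  · left
    rw [nnnorm_eq_zero] at h2
    refine ⟨fun a b => ?_⟩
    have h3 : ∀ a : V, a = 0 := by
      intro a
      have h4 := (A.toContinuousLinearEquivOfDetNeZero hA).symm_apply_apply a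
      have h5 : (A.toContinuousLinearEquivOfDetNeZero hA).symm
          ((A.toContinuousLinearEquivOfDetNeZero hA) a) = 0 :=
        congrArg (fun T : V →L[ℝ] V => T ((A.toContinuousLinearEquivOfDetNeZero hA) a)) h2
      rw [← h4, h5]
    rw [h3 a, h3 b]
  · right
    unfold rad
    rw [dif_pos hA, if_neg h2]
    apply NNReal.half_lt_self
    exact inv_ne_zero h2

/-- If the image of an open set under `f` is null then the derivative of `f` is singular almost
everywhere. -/
theorem det_zero_of_null_image {f : V → V} {O : Set V} (hO : IsOpen O) (hf : μ (f '' O) = 0) :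
    ∀ᵐ x ∂(μ.restrict O), (fderiv ℝ f x).det = 0 := by
  have : CompleteSpace V := FiniteDimensional.complete ℝ V
  rw [ae_restrict_iff' hO.measurableSet]
  have hmeas : Measurable fun x => (fderiv ℝ f x).det :=
    ContinuousLinearMap.continuous_det.measurable.comp (measurable_fderiv ℝ f)
  set s : Set V := O ∩ {x | (fderiv ℝ f x).det ≠ 0} with hs
  have hsm : MeasurableSet s :=
    hO.measurableSet.inter (hmeas (measurableSet_singleton (0 : ℝ)).compl)
  suffices hs0 : μ s = 0 by
    rw [ae_iff]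
    refine measure_mono_null (fun x hx => ?_) hs0
    simp only [mem_ofPred_eq, Classical.not_imp] at hx
    exact hx
  have hdiff : ∀ x ∈ s, DifferentiableAt ℝ f x := by
    intro x hx
    by_contra hcon
    have h1 : (fderiv ℝ f x).det ≠ 0 := hx.2
    rw [fderiv_zero_of_not_differentiableAt hcon] at h1
    rcases subsingleton_or_nontrivial V with hV | hV
    · exact hcon (hasFDerivAt_of_subsingleton f x).differentiableAt
    · apply h1
      simp [ContinuousLinearMap.det]
  rcases s.eq_empty_or_nonempty with hse | hsne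
  · rw [hse, measure_empty]
  obtain ⟨t, A, _, htm, hst, happrox, hA⟩ :=
    exists_partition_approximatesLinearOn_of_hasFDerivWithinAt f s (fderiv ℝ f)
      (fun x hx => (hdiff x hx).hasFDerivAt.hasFDerivWithinAt) rad rad_ne_zero
  have hpiece : ∀ n, μ (s ∩ t n) = 0 := by
    intro n
    obtain ⟨y, hy, hAy⟩ := hA hsne n
    have hdet : (A n).det ≠ 0 := by rw [hAy]; exact hy.2
    have hinj := injOn_of_rad hdet (happrox n)
    have h1 := lintegral_abs_det_fderiv_eq_addHaar_image μ (hsm.inter (htm n))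
      (fun x hx => (hdiff x hx.1).hasFDerivAt.hasFDerivWithinAt) hinj
    have h2 : μ (f '' (s ∩ t n)) = 0 :=
      measure_mono_null (image_mono (inter_subset_left.trans inter_subset_left)) hf
    rw [h2] at h1
    have hm2 : Measurable fun x => ENNReal.ofReal |(fderiv ℝ f x).det| :=
      ENNReal.measurable_ofReal.comp hmeas.abs
    rw [setLIntegral_eq_zero_iff (hsm.inter (htm n)) hm2, ae_iff] at h1
    refine measure_mono_null (fun x hx => ?_) h1
    simp only [mem_ofPred_eq, Classical.not_imp]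
    refine ⟨hx, ?_⟩
    rw [ENNReal.ofReal_eq_zero, not_le, abs_pos]
    exact hx.1.2
  have : s ⊆ ⋃ n, s ∩ t n := by
    rw [← inter_iUnion]
    exact subset_inter Subset.rfl hst
  exact measure_mono_null this (measure_iUnion_null hpiece)

end null

section retract

universe u

variable {V : Type*} [NormedAddCommGroup V] [NormedSpace ℝ V] [FiniteDimensional ℝ V]
  [MeasurableSpace V] [BorelSpace V] (μ : Measure V) [μ.IsAddHaarMeasure]
variable {Y : Type u} [TopologicalSpace Y] [T2Space Y]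
variable {G : Type*} [Group G] [MulAction G Y] [ContinuousConstSMul G Y]
variable {D : Y → V} {h : G →* (V ≃ᵃ[ℝ] V)}

/-- No holonomy-equivariant locally Lipschitz map has null image. -/
theorem no_null_map [Nonempty Y] (hPD : PD G Y)
    (hfree : ∀ (g : G) (y : Y), g • y = y → g = 1) (hDloc : IsLocalHomeomorph D)
    (hD : ∀ (g : G) y, D (g • y) = h g (D y))
    (hdet : ∀ g, |LinearMap.det ((h g).linear : V →ₗ[ℝ] V)| = 1)
    (hcoc : ∃ K : Set Y, IsCompact K ∧ ∀ y, ∃ g : G, g • y ∈ K)
    {F : Y → V} (hFl : DLip D F) (hF : ∀ (g : G) y, F (g • y) = h g (F y)) :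
    μ (range F) ≠ 0 := by
  intro h0
  refine no_singular μ hPD hfree hDloc hD hdet hcoc hFl hF fun e he => ?_
  apply det_zero_of_null_image μ e.open_target
  refine measure_mono_null ?_ h0
  rintro _ ⟨x, _, rfl⟩
  exact mem_range_self _

/-- Equivariant summation of a compactly supported vector valued function. -/
noncomputable def esum (h : G →* (V ≃ᵃ[ℝ] V)) (ψ : Y → V) (y : Y) : V :=
  ∑ᶠ g : G, clin (h g) (ψ (g⁻¹ • y))

theorem esum_eq {ψ : Y → V} {y : Y} {T : Finset G} (hT : ∀ g ∉ T, ψ (g⁻¹ • y) = 0) :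
    esum h ψ y = ∑ g ∈ T, clin (h g) (ψ (g⁻¹ • y)) := by
  unfold esum
  apply finsum_eq_sum_of_support_subset
  intro g hg
  rw [Function.mem_support] at hg
  by_contra hcon
  exact hg (by rw [hT g (by simpa using hcon), map_zero])

theorem esum_smul (hPD : PD G Y) {ψ : Y → V} {S : Set Y} (hS : IsCompact S)
    (h0 : ∀ y ∉ S, ψ y = 0) (g₀ : G) (y : Y) :
    esum h ψ (g₀ • y) = clin (h g₀) (esum h ψ y) := by
  obtain ⟨T, hT⟩ := exists_finset hPD hS y
  rw [esum_eq (h := h) (T := T) fun g hg => h0 _ (hT g hg), map_sum]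
  rw [esum_eq (h := h) (T := T.map (Equiv.mulLeft g₀).toEmbedding)]
  · rw [Finset.sum_map]
    refine Finset.sum_congr rfl fun g _ => ?_
    simp only [Equiv.coe_toEmbedding, Equiv.coe_mulLeft, mul_inv_rev, map_mul, clin_mul]
    rw [mul_smul, inv_smul_smul]
    rfl
  · intro g hg
    have h1 : g₀⁻¹ * g ∉ T := fun hcon => hg (Finset.mem_map.mpr ⟨g₀⁻¹ * g, hcon, by simp⟩)
    have h2 := h0 _ (hT _ h1)
    rwa [mul_inv_rev, inv_inv, mul_smul] at h2

theorem DLip.clinComp {ψ : Y → V} (hψ : DLip D ψ) (L : V →L[ℝ] V) :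
    DLip D (fun y => L (ψ y)) := by
  intro y
  obtain ⟨U, hU, K, hK, h1⟩ := hψ y
  refine ⟨U, hU, ‖L‖ * K, by positivity, fun a ha b hb => ?_⟩
  rw [← map_sub]
  calc ‖L (ψ a - ψ b)‖ ≤ ‖L‖ * ‖ψ a - ψ b‖ := L.le_opNorm _
    _ ≤ ‖L‖ * (K * ‖D a - D b‖) := by gcongr; exact h1 a ha b hb
    _ = _ := by ring

theorem DLip.esum (hPD : PD G Y) (hDloc : IsLocalHomeomorph D)
    (hD : ∀ (g : G) y, D (g • y) = h g (D y)) {ψ : Y → V} (hψ : DLip D ψ) {S : Set Y}
    (hS : IsCompact S) (h0 : ∀ y ∉ S, ψ y = 0) : DLip D (esum h ψ) := by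
  apply DLip.of_eventually
  intro y
  obtain ⟨U, hU, T, hT⟩ := exists_nhds_finset hPD hDloc hS y
  refine ⟨fun z => ∑ g ∈ T, clin (h g) (ψ (g⁻¹ • z)), DLip.sum T fun g _ => ?_, ?_⟩
  · exact (hψ.translate hD g⁻¹).clinComp _
  · filter_upwards [hU] with z hz
    exact esum_eq fun g hg => h0 _ (hT z hz g hg)

theorem exists_cutoffs (hPD : PD G Y) (hfree : ∀ (g : G) (y : Y), g • y = y → g = 1)
    (hDloc : IsLocalHomeomorph D)
    (hcoc : ∃ K : Set Y, IsCompact K ∧ ∀ y, ∃ g : G, g • y ∈ K) :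
    ∃ (J : Type u) (_ : Fintype J) (S : J → Set Y) (χ : J → Y → ℝ),
      (∀ j, IsCompact (S j)) ∧
      (∀ j, ∀ g : G, g ≠ 1 → Disjoint ((fun z => g • z) '' (S j)) (S j)) ∧
      (∀ j, DLip D (χ j)) ∧ (∀ j, ∀ z ∉ S j, χ j z = 0) ∧
      (∀ y, ∃ g : G, ∃ j, χ j (g • y) = 1) := by
  classical
  choose e S χ heD hSc hSe hdisj hlip hnn h0 hpos using exists_bump (G := G) hPD hfree hDloc
  obtain ⟨K, hK, hKcov⟩ := hcoc
  obtain ⟨t, htK, htcov⟩ := hK.elim_nhds_subcover (fun y => {z | χ y y / 2 < χ y z}) (fun y _ =>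
    (((hlip y).continuous hDloc.continuous).continuousAt).eventually
      (lt_mem_nhds (half_lt_self (hpos y))))
  refine ⟨t, inferInstance, fun j => S j.1, fun j z => min 1 ((χ j.1 j.1 / 2)⁻¹ * χ j.1 z),
    fun j => hSc j.1, fun j g hg => ?_, fun j => ?_, fun j z hz => ?_, fun y => ?_⟩
  · exact (hdisj j.1 g hg).mono (image_mono (hSe j.1)) (hSe j.1)
  · refine (hlip j.1).comp hDloc.continuous (Φ := fun x : ℝ => min 1 ((χ j.1 j.1 / 2)⁻¹ * x))
      fun w => ⟨univ, univ_mem, (χ j.1 j.1 / 2)⁻¹, ?_, fun a _ b _ => ?_⟩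
    · have := hpos j.1
      positivity
    · have h1 := hpos j.1
      rw [Real.norm_eq_abs]
      refine (abs_min_sub_min_le_max _ _ _ _).trans ?_
      rw [sub_self, abs_zero, ← mul_sub, abs_mul, abs_of_pos (by positivity : 0 < (χ j.1 j.1 / 2)⁻¹)]
      apply max_le
      · positivity
      · exact le_rfl
  · have h1 : χ j.1 z = 0 := h0 _ _ hz
    simp only [h1, mul_zero]
    exact min_eq_right zero_le_one
  · obtain ⟨g, hg⟩ := hKcov y
    obtain ⟨j, hj, hjg⟩ := mem_iUnion₂.mp (htcov hg)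
    refine ⟨g, ⟨j, hj⟩, ?_⟩
    have hjg' : χ j j / 2 < χ j (g • y) := hjg
    have h1 := hpos j
    apply min_eq_left
    have h2 : 0 < χ j j / 2 := by positivity
    rw [← div_eq_inv_mul, one_le_div h2]
    exact hjg'.le

/-- If an invariant set is a locally Lipschitz retract of `V` (by a retraction which need not be
equivariant), then there is an equivariant locally Lipschitz map into it. -/
theorem exists_map_to_retract (hPD : PD G Y)
    (hfree : ∀ (g : G) (y : Y), g • y = y → g = 1) (hDloc : IsLocalHomeomorph D)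
    (hD : ∀ (g : G) y, D (g • y) = h g (D y))
    (hcoc : ∃ K : Set Y, IsCompact K ∧ ∀ y, ∃ g : G, g • y ∈ K)
    {A : Set V} (hAinv : ∀ (g : G), ∀ x ∈ A, h g x ∈ A) {r : V → V} (hr : LocallyLipschitz r)
    (hrA : ∀ x, r x ∈ A) (hrid : ∀ x ∈ A, r x = x) :
    ∃ F : Y → V, DLip D F ∧ (∀ (g : G) y, F (g • y) = h g (F y)) ∧ ∀ y, F y ∈ A := by
  classical
  obtain ⟨J, _, S, χ, hS, hdisj, hχ, hχ0, hχ1⟩ := exists_cutoffs hPD hfree hDloc hcoc
  have hDc := hDloc.continuous
  have hinv1 : ∀ (g : G) x, h g⁻¹ (h g x) = x := by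
    intro g x
    have : (h g⁻¹ * h g) x = x := by rw [← map_mul, inv_mul_cancel, map_one]; rfl
    exact this
  have hstep : ∀ B : Finset J, ∃ F : Y → V, DLip D F ∧ (∀ (g : G) y, F (g • y) = h g (F y)) ∧
      ∀ y, (∃ g : G, ∃ j ∈ B, χ j (g • y) = 1) → F y ∈ A := by
    intro B
    induction B using Finset.induction_on with
    | empty =>
      refine ⟨D, DLip.self D, hD, ?_⟩
      rintro y ⟨g, j, hj, _⟩
      simp at hj
    | insert j B hj ih =>
      obtain ⟨F, hFl, hFe, hFA⟩ := ih
      set ψ : Y → V := fun z => χ j z • (r (F z) - F z) with hψ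
      have hψl : DLip D ψ := by
        refine (hχ j).smul hDc ((hFl.comp hDc (Φ := r) fun y => ?_).sub hFl)
        obtain ⟨K, t, ht, hK⟩ := hr (F y)
        refine ⟨t, ht, K, K.coe_nonneg, fun a ha b hb => ?_⟩
        rw [← dist_eq_norm, ← dist_eq_norm]
        exact hK.dist_le_mul a ha b hb
      have hψ0 : ∀ y ∉ S j, ψ y = 0 := by
        intro y hy
        simp only [hψ, hχ0 j y hy, zero_smul]
      have hψA : ∀ y, F y ∈ A → ψ y = 0 := by
        intro y hy
        simp only [hψ, hrid _ hy, sub_self, smul_zero]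
      have hFe' : ∀ (g : G) y, F (g • y) + esum h ψ (g • y) = h g (F y + esum h ψ y) := by
        intro g y
        rw [hFe, esum_smul hPD (hS j) hψ0, affine_add]
      refine ⟨fun y => F y + esum h ψ y, hFl.add (hψl.esum hPD hDloc hD (hS j) hψ0), hFe', ?_⟩
      rintro y ⟨g, i, hi, hgi⟩
      by_cases hyA : F y ∈ A
      · have h1 : esum h ψ y = 0 := by
          rw [esum_eq (T := ∅), Finset.sum_empty]
          intro g _
          apply hψA
          rw [hFe]
          exact hAinv _ _ hyA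
        simp only [h1, add_zero]
        exact hyA
      · rcases Finset.mem_insert.mp hi with rfl | hiB
        · have hzS : g • y ∈ S i := by
            by_contra hcon
            rw [hχ0 i _ hcon] at hgi
            exact zero_ne_one hgi
          have h2 : esum h ψ (g • y) = ψ (g • y) := by
            rw [esum_eq (T := {1}), Finset.sum_singleton]
            · rw [map_one, clin_one]
              simp
            · intro g' hg'
              apply hψ0
              intro hcon
              have hg1 : g' ≠ 1 := by simpa using hg'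
              exact Set.disjoint_left.mp (hdisj i g' hg1)
                ⟨g'⁻¹ • g • y, hcon, by simp⟩ hzS
          have h3 : F (g • y) + esum h ψ (g • y) ∈ A := by
            rw [h2]
            simp only [hψ, hgi, one_smul, add_sub_cancel]
            exact hrA _
          rw [hFe'] at h3
          have h4 := hAinv g⁻¹ _ h3
          rwa [hinv1] at h4
        · exact absurd (hFA y ⟨g, i, hiB, hgi⟩) hyA
  obtain ⟨F, hFl, hFe, hFA⟩ := hstep Finset.univ
  refine ⟨F, hFl, hFe, fun y => hFA y ?_⟩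
  obtain ⟨g, j, hj⟩ := hχ1 y
  exact ⟨g, j, Finset.mem_univ j, hj⟩

/-- A nonempty invariant locally Lipschitz retract has positive measure. -/
theorem no_null_retract [Nonempty Y] (hPD : PD G Y)
    (hfree : ∀ (g : G) (y : Y), g • y = y → g = 1) (hDloc : IsLocalHomeomorph D)
    (hD : ∀ (g : G) y, D (g • y) = h g (D y))
    (hdet : ∀ g, |LinearMap.det ((h g).linear : V →ₗ[ℝ] V)| = 1)
    (hcoc : ∃ K : Set Y, IsCompact K ∧ ∀ y, ∃ g : G, g • y ∈ K)
    {A : Set V} (hAinv : ∀ (g : G), ∀ x ∈ A, h g x ∈ A) {r : V → V} (hr : LocallyLipschitz r)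
    (hrA : ∀ x, r x ∈ A) (hrid : ∀ x ∈ A, r x = x) : μ A ≠ 0 := by
  intro h0
  obtain ⟨F, hFl, hFe, hFA⟩ :=
    exists_map_to_retract hPD hfree hDloc hD hcoc hAinv hr hrA hrid
  refine no_null_map μ hPD hfree hDloc hD hdet hcoc hFl hFe (measure_mono_null ?_ h0)
  rintro _ ⟨y, rfl⟩
  exact hFA y

end retract

end Pool.Agent.Helper2.MK
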