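import Pool.Agent.Helper2.MK.Gsum

set_option autoImplicit false
set_option linter.unusedSectionVars false

open Set MeasureTheory Metric Filter Topology
open scoped NNReal ENNReal

namespace Pool.Agent.Helper2.MK

universe u

variable {V : Type*} [NormedAddCommGroup V] [NormedSpace ℝ V] [FiniteDimensional ℝ V]
  [MeasurableSpace V] [BorelSpace V]
variable {Y : Type u} [TopologicalSpace Y] [T2Space Y]
variable {G : Type*} [Group G] [MulAction G Y] [ContinuousConstSMul G Y]
variable {D : Y → V} {h : G →* (V ≃ᵃ[ℝ] V)}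

theorem exists_small_nhds (hPD : PD G Y) (hfree : ∀ (g : G) (y : Y), g • y = y → g = 1)
    (hDloc : IsLocalHomeomorph D) (y : Y) :
    ∃ N : Set Y, IsOpen N ∧ y ∈ N ∧ ∀ g : G, g ≠ 1 → Disjoint ((fun z => g • z) '' N) N := by
  classical
  obtain ⟨K, hK, _, hKc⟩ := exists_compact_nhds hDloc (univ_mem (f := 𝓝 y))
  have hfin := hPD K hKc
  have h1 : ∀ g : G, ∃ N : Set Y, IsOpen N ∧ y ∈ N ∧
      (g ≠ 1 → Disjoint ((fun z => g • z) '' N) N) := by
    intro g
    by_cases hg : g = 1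
    · exact ⟨univ, isOpen_univ, mem_univ _, fun h => absurd hg h⟩
    · have hne : g • y ≠ y := fun h => hg (hfree g y h)
      obtain ⟨A, B, hA, hB, hyA, hyB, hAB⟩ := t2_separation hne
      refine ⟨(fun z => g • z) ⁻¹' A ∩ B, (hA.preimage (continuous_const_smul g)).inter hB,
        ⟨hyA, hyB⟩, fun _ => ?_⟩
      rw [Set.disjoint_left]
      rintro _ ⟨z, hz, rfl⟩ hz'
      exact (Set.disjoint_left.mp hAB) hz.1 hz'.2
  choose N hNo hNy hNd using h1
  refine ⟨interior K ∩ ⋂ g ∈ hfin.toFinset, N g, ?_, ?_, ?_⟩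
  · exact isOpen_interior.inter (isOpen_biInter_finset fun g _ => hNo g)
  · exact ⟨mem_interior_iff_mem_nhds.mpr hK, mem_iInter₂.mpr fun g _ => hNy g⟩
  · intro g hg
    by_cases hgm : g ∈ hfin.toFinset
    · have h2 : interior K ∩ ⋂ g ∈ hfin.toFinset, N g ⊆ N g :=
        inter_subset_right.trans (iInter₂_subset g hgm)
      exact (hNd g hg).mono (image_mono h2) h2
    · rw [Set.disjoint_left]
      rintro _ ⟨z, hz, rfl⟩ hz'
      apply hgm
      rw [Finite.mem_toFinset]
      exact ⟨g • z, ⟨z, interior_subset hz.1, rfl⟩, interior_subset hz'.1⟩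

theorem exists_bump (hPD : PD G Y) (hfree : ∀ (g : G) (y : Y), g • y = y → g = 1)
    (hDloc : IsLocalHomeomorph D) (y : Y) :
    ∃ (e : OpenPartialHomeomorph Y V) (S : Set Y) (χ : Y → ℝ), ⇑e = D ∧ IsCompact S ∧
      S ⊆ e.source ∧ (∀ g : G, g ≠ 1 → Disjoint ((fun z => g • z) '' e.source) e.source) ∧
      DLip D χ ∧ (∀ z, 0 ≤ χ z) ∧ (∀ z ∉ S, χ z = 0) ∧ 0 < χ y := by
  classical
  have : ProperSpace V := FiniteDimensional.proper ℝ V
  obtain ⟨N, hNo, hyN, hN⟩ := exists_small_nhds hPD hfree hDloc y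
  obtain ⟨e', hy', he'⟩ := hDloc y
  set e := e'.restrOpen N hNo with he
  have hes : e.source = e'.source ∩ N := e'.restrOpen_source N hNo
  have heD : ⇑e = D := by rw [he', he]; rfl
  have hy : y ∈ e.source := by rw [hes]; exact ⟨hy', hyN⟩
  have hDy : D y ∈ e.target := by rw [← heD]; exact e.map_source hy
  obtain ⟨r, hr, hrt⟩ := Metric.nhds_basis_closedBall.mem_iff.mp (e.open_target.mem_nhds hDy)
  set S : Set Y := e.symm '' closedBall (D y) r with hS
  have hSc : IsCompact S :=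
    (isCompact_closedBall _ _).image_of_continuousOn (e.continuousOn_symm.mono hrt)
  have hSe : S ⊆ e.source := by
    rintro _ ⟨x, hx, rfl⟩
    exact e.map_target (hrt hx)
  have hSmem : ∀ z ∈ e.source, z ∉ S → r < ‖D z - D y‖ := by
    intro z hz hzS
    by_contra hcon
    apply hzS
    refine ⟨D z, ?_, symm_D heD hz⟩
    rw [mem_closedBall, dist_eq_norm]
    exact not_lt.mp hcon
  refine ⟨e, S, fun z => if z ∈ e.source then max 0 (r - ‖D z - D y‖) else 0, heD, hSc, hSe,
    ?_, ?_, ?_, ?_, ?_⟩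
  · intro g hg
    have h2 : e.source ⊆ N := by rw [hes]; exact inter_subset_right
    exact (hN g hg).mono (image_mono h2) h2
  · apply DLip.of_eventually
    intro z
    by_cases hz : z ∈ e.source
    · refine ⟨fun z => max 0 (r - ‖D z - D y‖), ?_, ?_⟩
      · refine (DLip.self D).comp hDloc.continuous (Φ := fun x => max 0 (r - ‖x - D y‖))
          fun w => ⟨univ, univ_mem, 1, zero_le_one, fun a _ b _ => ?_⟩
        rw [one_mul, Real.norm_eq_abs]
        refine (abs_max_sub_max_le_max _ _ _ _).trans ?_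
        rw [sub_self, abs_zero]
        apply max_le (norm_nonneg _)
        have h3 : r - ‖a - D y‖ - (r - ‖b - D y‖) = ‖b - D y‖ - ‖a - D y‖ := by ring
        rw [h3]
        refine (abs_norm_sub_norm_le _ _).trans ?_
        rw [sub_sub_sub_cancel_right, norm_sub_rev]
      · filter_upwards [e.open_source.mem_nhds hz] with w hw
        rw [if_pos hw]
    · refine ⟨fun _ => 0, DLip.const D 0, ?_⟩
      have hzS : z ∈ Sᶜ := fun hcon => hz (hSe hcon)
      filter_upwards [hSc.isClosed.isOpen_compl.mem_nhds hzS] with w hw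
      split_ifs with hwe
      · apply max_eq_left
        have := hSmem w hwe hw
        linarith
      · rfl
  · intro z
    dsimp only
    split_ifs
    · exact le_max_left _ _
    · exact le_rfl
  · intro z hz
    dsimp only
    split_ifs with hze
    · apply max_eq_left
      have := hSmem z hze hz
      linarith
    · rfl
  · dsimp only
    rw [if_pos hy, sub_self, norm_zero, sub_zero]
    exact lt_max_of_lt_right hr

theorem exists_partition (hPD : PD G Y) (hfree : ∀ (g : G) (y : Y), g • y = y → g = 1)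
    (hDloc : IsLocalHomeomorph D) (hD : ∀ (g : G) y, D (g • y) = h g (D y))
    (hcoc : ∃ K : Set Y, IsCompact K ∧ ∀ y, ∃ g : G, g • y ∈ K) :
    ∃ (J : Type u) (_ : Fintype J) (e : J → OpenPartialHomeomorph Y V) (S : J → Set Y)
      (ρ : J → Y → ℝ), (∀ j, ⇑(e j) = D) ∧ (∀ j, IsCompact (S j)) ∧
      (∀ j, S j ⊆ (e j).source) ∧
      (∀ j, ∀ g : G, g ≠ 1 → Disjoint ((fun z => g • z) '' (e j).source) (e j).source) ∧
      (∀ j, DLip D (ρ j)) ∧ (∀ j z, 0 ≤ ρ j z) ∧ (∀ j, ∀ z ∉ S j, ρ j z = 0) ∧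
      (∀ y, ∀ T : Finset G, (∀ g ∉ T, ∀ j, ρ j (g • y) = 0) →
        ∑ g ∈ T, ∑ j, ρ j (g • y) = 1) := by
  classical
  choose e S χ heD hSc hSe hdisj hlip hnn h0 hpos using exists_bump (G := G) hPD hfree hDloc
  obtain ⟨K, hK, hKcov⟩ := hcoc
  obtain ⟨t, htK, htcov⟩ := hK.elim_nhds_subcover (fun y => {z | 0 < χ y z}) (fun y _ =>
    (((hlip y).continuous hDloc.continuous).continuousAt).eventually (lt_mem_nhds (hpos y)))
  set N : Y → ℝ := fun y => ∑ j : t, gsum (χ j.1) (fun _ : G => (1 : ℝ)) y with hN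
  have hNfin : ∀ y, ∀ T : Finset G, (∀ g ∉ T, ∀ j : t, χ j.1 (g • y) = 0) →
      N y = ∑ g ∈ T, ∑ j : t, χ j.1 (g • y) := by
    intro y T hT
    rw [hN, Finset.sum_comm]
    refine Finset.sum_congr rfl fun j _ => ?_
    rw [gsum_eq (T := T.image (·⁻¹))]
    · rw [Finset.sum_image (fun a _ b _ hab => inv_injective hab)]
      simp
    · intro g hg
      apply hT
      intro hcon
      exact hg (Finset.mem_image.mpr ⟨g⁻¹, hcon, by simp⟩)
  have hTex : ∀ y, ∃ T : Finset G, ∀ g ∉ T, ∀ j : t, χ j.1 (g • y) = 0 := by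
    intro y
    have : ∀ j : t, ∃ T : Finset G, ∀ g ∉ T, g⁻¹ • y ∉ S j.1 := fun j =>
      exists_finset hPD (hSc j.1) y
    choose T hT using this
    refine ⟨Finset.univ.biUnion fun j => (T j).image (·⁻¹), fun g hg j => h0 _ _ ?_⟩
    have := hT j g⁻¹ (fun hcon => hg (Finset.mem_biUnion.mpr
      ⟨j, Finset.mem_univ _, Finset.mem_image.mpr ⟨g⁻¹, hcon, by simp⟩⟩))
    simpa using this
  have hNpos : ∀ y, 0 < N y := by
    intro y
    obtain ⟨T, hT⟩ := hTex y
    rw [hNfin y T hT]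
    obtain ⟨g, hg⟩ := hKcov y
    obtain ⟨j, hj, hjg⟩ := mem_iUnion₂.mp (htcov hg)
    have hjg' : 0 < χ j (g • y) := hjg
    have hgT : g ∈ T := by
      by_contra hcon
      have := hT g hcon ⟨j, hj⟩
      simp only at this
      rw [this] at hjg'
      exact lt_irrefl _ hjg'
    refine Finset.sum_pos' (fun g _ => Finset.sum_nonneg fun j _ => hnn _ _) ⟨g, hgT, ?_⟩
    exact Finset.sum_pos' (fun j _ => hnn _ _) ⟨⟨j, hj⟩, Finset.mem_univ _, hjg'⟩
  have hNinv : ∀ (g : G) y, N (g • y) = N y := by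
    intro g y
    simp only [hN, gsum_smul_left]
  have hNlip : DLip D N := DLip.sum _ fun j _ =>
    (hlip j.1).gsum hPD hDloc hD (hSc j.1) (h0 j.1) _
  refine ⟨t, inferInstance, fun j => e j.1, fun j => S j.1,
    fun j y => (N y)⁻¹ • χ j.1 y, fun j => heD j.1, fun j => hSc j.1, fun j => hSe j.1,
    fun j => hdisj j.1, fun j => ?_, fun j z => ?_, fun j z hz => ?_, fun y T hT => ?_⟩
  · exact (hNlip.inv hDloc.continuous hNpos).smul hDloc.continuous (hlip j.1)
  · exact smul_nonneg (inv_nonneg.mpr (hNpos z).le) (hnn _ _)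
  · have h5 : χ j.1 z = 0 := h0 _ _ hz
    simp only [h5, smul_zero]
  · simp only [hNinv, smul_eq_mul] at hT ⊢
    have hT' : ∀ g ∉ T, ∀ j : t, χ j.1 (g • y) = 0 := fun g hg j =>
      (mul_eq_zero.mp (hT g hg j)).resolve_left (inv_ne_zero (hNpos y).ne')
    simp_rw [← Finset.mul_sum]
    rw [← hNfin y T hT']
    exact inv_mul_cancel₀ (hNpos y).ne'

end Pool.Agent.Helper2.MK
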