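import Pool.Agent.Helper2.MK.Null
import Pool.Agent.Helper2.MK.Avg
import Pool.Agent.Helper2.MK.Data

set_option autoImplicit false
set_option linter.unusedSectionVars false

open Set MeasureTheory Metric Filter Topology
open scoped NNReal ENNReal

namespace Pool.Agent.Helper2.MK

universe u

section

variable {V : Type*} [NormedAddCommGroup V] [NormedSpace ℝ V] [FiniteDimensional ℝ V]
variable {Y : Type u} [TopologicalSpace Y] [T2Space Y]
variable {G : Type*} [Group G] [MulAction G Y]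
variable {W : Type*} [NormedAddCommGroup W] [NormedSpace ℝ W]

/-- A continuous linear map preserves `DLip`. -/
theorem DLip.clm {W' : Type*} [NormedAddCommGroup W'] [NormedSpace ℝ W'] {D : Y → V} {ψ : Y → W}
    (hψ : DLip D ψ) (L : W →L[ℝ] W') : DLip D (fun y => L (ψ y)) := by
  intro y
  obtain ⟨U, hU, K, hK, h1⟩ := hψ y
  refine ⟨U, hU, ‖L‖ * K, by positivity, fun a ha b hb => ?_⟩
  rw [← map_sub]
  calc ‖L (ψ a - ψ b)‖ ≤ ‖L‖ * ‖ψ a - ψ b‖ := L.le_opNorm _
    _ ≤ ‖L‖ * (K * ‖D a - D b‖) := by gcongr; exact h1 a ha b hb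
    _ = _ := by ring

/-- Infinitesimal part: a map `Ψ` whose image under `f : V → W` is `w`, where `w` is Lipschitz with
respect to `f ∘ D` and constant along one transversal direction, has singular derivative. -/
theorem det_zero_of_quotient {D : Y → V} {f : V →L[ℝ] W} (hf : Function.Surjective f)
    {w : Y → W}
    (hlip : ∀ y, ∃ U ∈ 𝓝 y, ∃ K : ℝ, ∀ a ∈ U, ∀ b ∈ U, ‖w a - w b‖ ≤ K * ‖f (D a) - f (D b)‖)
    (hne : ∀ y, w y ≠ f (D y))
    (hray : ∀ y, ∀ᶠ a in 𝓝 y, ∀ s : ℝ, 0 < s → s < 1 →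
      f (D a) = f (D y) + s • (w y - f (D y)) → w a = w y)
    {Ψ : Y → V} (hΨ : ∀ y, f (Ψ y) = w y)
    (e : OpenPartialHomeomorph Y V) (he : ⇑e = D) {x : V} (hx : x ∈ e.target) :
    (fderiv ℝ (Ψ ∘ e.symm) x).det = 0 := by
  set y := e.symm x with hy
  have hys : y ∈ e.source := e.map_target hx
  have hDy : D y = x := by rw [← he]; exact e.right_inv hx
  have hcont : ContinuousAt e.symm x := e.continuousAt_symm hx
  obtain ⟨v, hv⟩ := hf (w y - f (D y))
  have hfv : f v ≠ 0 := by rw [hv]; exact sub_ne_zero.mpr (hne y)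
  by_contra hdet
  have hd : DifferentiableAt ℝ (Ψ ∘ e.symm) x := by
    by_contra hcon
    rw [fderiv_zero_of_not_differentiableAt hcon] at hdet
    have : Nontrivial V := ⟨v, 0, fun h => hfv (by rw [h, map_zero])⟩
    have : Nonempty (Fin (Module.finrank ℝ V)) := ⟨⟨0, Module.finrank_pos⟩⟩
    apply hdet
    rw [ContinuousLinearMap.det, ContinuousLinearMap.toLinearMap_zero,
      LinearMap.det_zero' (Module.finBasis ℝ V)]
  set T := fderiv ℝ (Ψ ∘ e.symm) x with hT
  have hT1 : HasFDerivAt (fun z => w (e.symm z)) (f.comp T) x := by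
    have h1 : HasFDerivAt (fun z => f ((Ψ ∘ e.symm) z)) (f.comp T) x :=
      f.hasFDerivAt.comp x hd.hasFDerivAt
    refine h1.congr_of_eventuallyEq (Eventually.of_forall fun z => ?_)
    simp only [Function.comp_apply, hΨ]
  -- directional derivatives
  have hline : ∀ v' : V, HasDerivAt (fun t : ℝ => w (e.symm (x + t • v'))) (f (T v')) 0 := by
    intro v'
    have h1 : HasDerivAt (fun t : ℝ => x + t • v') v' 0 := by
      have := ((hasDerivAt_id (0 : ℝ)).smul_const v').const_add x
      simpa using this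
    have h2 : HasFDerivAt (fun z => w (e.symm z)) (f.comp T) (x + (0 : ℝ) • v') := by
      simpa using hT1
    exact h2.comp_hasDerivAt (0 : ℝ) h1
  have htend : ∀ v' : V, Tendsto (fun t : ℝ => e.symm (x + t • v')) (𝓝 0) (𝓝 y) := by
    intro v'
    have h1 : Tendsto (fun t : ℝ => x + t • v') (𝓝 0) (𝓝 x) := by
      have : Continuous fun t : ℝ => x + t • v' := by fun_prop
      simpa using this.tendsto 0
    exact hcont.tendsto.comp h1
  have htarget : ∀ v' : V, ∀ᶠ t : ℝ in 𝓝 0, x + t • v' ∈ e.target := by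
    intro v'
    have h1 : Tendsto (fun t : ℝ => x + t • v') (𝓝 0) (𝓝 x) := by
      have : Continuous fun t : ℝ => x + t • v' := by fun_prop
      simpa using this.tendsto 0
    exact h1.eventually (e.open_target.mem_nhds hx)
  have hDsymm : ∀ z ∈ e.target, D (e.symm z) = z := fun z hz => by rw [← he]; exact e.right_inv hz
  have hkill : ∀ v', f v' = 0 → f (T v') = 0 := by
    intro v' hv'
    obtain ⟨U, hU, K, hK⟩ := hlip y
    have h2 : (fun t : ℝ => w (e.symm (x + t • v'))) =ᶠ[𝓝 0] fun _ => w y := by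
      filter_upwards [(htend v').eventually hU, htarget v'] with t ht ht2
      have h3 := hK _ ht _ (mem_of_mem_nhds hU)
      rw [hDsymm _ ht2, hDy, map_add, map_smul, hv', smul_zero, add_zero, sub_self, norm_zero,
        mul_zero] at h3
      exact sub_eq_zero.mp (norm_le_zero_iff.mp h3)
    have h4 : HasDerivAt (fun t : ℝ => w (e.symm (x + t • v'))) 0 0 :=
      (hasDerivAt_const (0 : ℝ) (w y)).congr_of_eventuallyEq h2
    exact (hline v').unique h4
  have hkill2 : f (T v) = 0 := by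
    have h2 : ∀ᶠ t : ℝ in 𝓝[>] 0, w (e.symm (x + t • v)) = w y := by
      have h5 : ∀ᶠ t : ℝ in 𝓝[>] (0 : ℝ), t < 1 :=
        mem_nhdsWithin_of_mem_nhds (Iio_mem_nhds one_pos)
      filter_upwards [((htend v).mono_left nhdsWithin_le_nhds).eventually (hray y),
        (htarget v).filter_mono nhdsWithin_le_nhds, self_mem_nhdsWithin, h5] with t ht ht2 ht3 ht4
      apply ht t ht3 ht4
      rw [hDsymm _ ht2, hDy, map_add, map_smul, hv, hDy]
    have h0 : w (e.symm (x + (0 : ℝ) • v)) = w y := by simp [hy]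
    have h4 : HasDerivWithinAt (fun t : ℝ => w (e.symm (x + t • v))) 0 (Ioi 0) 0 :=
      (hasDerivWithinAt_const (0 : ℝ) (Ioi 0) (w y)).congr_of_eventuallyEq h2 h0
    have h6 : HasDerivWithinAt (fun t : ℝ => w (e.symm (x + t • v))) (f (T v)) (Ioi 0) 0 :=
      (hline v).hasDerivWithinAt
    exact (uniqueDiffWithinAt_Ioi (0 : ℝ)).eq_deriv _ h6 h4
  -- dimension count
  have hsurj := (LinearMap.equivOfDetNeZero (T : V →ₗ[ℝ] V) hdet).surjective
  have hcsurj : Function.Surjective ((f : V →ₗ[ℝ] W).comp (T : V →ₗ[ℝ] V)) := by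
    intro c
    obtain ⟨z, hz⟩ := hf c
    obtain ⟨v', hv'⟩ := hsurj z
    have hv'' : T v' = z := hv'
    exact ⟨v', by
      show f (T v') = c
      rw [hv'', hz]⟩
  have hle : LinearMap.ker (f : V →ₗ[ℝ] W) ≤
      LinearMap.ker ((f : V →ₗ[ℝ] W).comp (T : V →ₗ[ℝ] V)) := by
    intro z hz
    rw [LinearMap.mem_ker] at hz ⊢
    exact hkill z hz
  have hr1 := LinearMap.finrank_range_add_finrank_ker (f : V →ₗ[ℝ] W)
  have hr2 := LinearMap.finrank_range_add_finrank_ker ((f : V →ₗ[ℝ] W).comp (T : V →ₗ[ℝ] V))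
  rw [LinearMap.range_eq_top.mpr hcsurj] at hr2
  rw [LinearMap.range_eq_top.mpr hf] at hr1
  have heq := Submodule.eq_of_le_of_finrank_eq hle (by omega)
  have hvk : v ∈ LinearMap.ker (f : V →ₗ[ℝ] W) := by
    rw [heq, LinearMap.mem_ker]
    exact hkill2
  exact hfv hvk

variable [Nonempty Y]

/-- **Projection obstruction.**  Let `M` be a compact affine manifold with parallel volume and let
`f : V → W` be a surjective linear map which intertwines the linear holonomy with linear maps
`A g` of `W`.  There is no map `w : Y → W` which is equivariant, Lipschitz with respect to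
`f ∘ dev`, distinct from `f ∘ dev` everywhere and locally constant in the direction from
`f (dev y)` to `w y`. -/
theorem no_quotient_projection (M : AffineDeveloping V G Y) (f : V →L[ℝ] W)
    (hf : Function.Surjective f) (A : G → W →L[ℝ] W)
    (hA : ∀ g x, f ((M.hol g).linear x) = A g (f x)) (w : Y → W)
    (hw : ∀ g y, w (g • y) - f (M.dev (g • y)) = A g (w y - f (M.dev y)))
    (hlip : ∀ y, ∃ U ∈ 𝓝 y, ∃ K : ℝ, ∀ a ∈ U, ∀ b ∈ U,
      ‖w a - w b‖ ≤ K * ‖f (M.dev a) - f (M.dev b)‖)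
    (hne : ∀ y, w y ≠ f (M.dev y))
    (hray : ∀ y, ∀ᶠ a in 𝓝 y, ∀ s : ℝ, 0 < s → s < 1 →
      f (M.dev a) = f (M.dev y) + s • (w y - f (M.dev y)) → w a = w y) : False := by
  have : ContinuousConstSMul G Y := ⟨M.covering.continuous_smul⟩
  let _ : MeasurableSpace V := borel V
  have : BorelSpace V := ⟨rfl⟩
  have hPD : PD G Y := fun K hK => M.covering.proper K hK
  have hD : ∀ (g : G) y, M.dev (g • y) = M.holHom g (M.dev y) := M.dev_smul
  obtain ⟨ρ, S, hS, hρ, hρ0, hρw⟩ := exists_weight (h := M.holHom) hPD M.covering.free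
    M.dev_local hD M.covering.cocompact
  -- a linear section of `f`
  obtain ⟨σ₀, hσ₀⟩ := (f : V →ₗ[ℝ] W).exists_rightInverse_of_surjective
    (LinearMap.range_eq_top.mpr hf)
  have hWfin : FiniteDimensional ℝ W := Module.Finite.of_surjective (f : V →ₗ[ℝ] W) hf
  let σ : W →L[ℝ] V := LinearMap.toContinuousLinearMap σ₀
  have hσ : ∀ c, f (σ c) = c := fun c => by
    have := congrArg (fun T : W →ₗ[ℝ] W => T c) hσ₀
    exact this
  have hwl : DLip M.dev w := by
    intro y
    obtain ⟨U, hU, K, hK⟩ := hlip y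
    refine ⟨U, hU, |K| * ‖f‖, by positivity, fun a ha b hb => ?_⟩
    calc ‖w a - w b‖ ≤ K * ‖f (M.dev a) - f (M.dev b)‖ := hK a ha b hb
      _ ≤ |K| * ‖f (M.dev a) - f (M.dev b)‖ := by gcongr; exact le_abs_self K
      _ = |K| * ‖f (M.dev a - M.dev b)‖ := by rw [map_sub]
      _ ≤ |K| * (‖f‖ * ‖M.dev a - M.dev b‖) := by gcongr; exact f.le_opNorm _
      _ = _ := by ring
  set ψ : Y → V := fun z => ρ z • σ (w z - f (M.dev z)) with hψ
  have hψl : DLip M.dev ψ :=
    hρ.smul M.dev_local.continuous ((hwl.sub ((DLip.self M.dev).clm f)).clm σ)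
  have hψ0 : ∀ z ∉ S, ψ z = 0 := fun z hz => by
    simp only [hψ]
    rw [hρ0 z hz, zero_smul]
  set Ψ : Y → V := fun y => M.dev y + esum M.holHom ψ y with hΨ
  have hΨl : DLip M.dev Ψ := (DLip.self M.dev).add (hψl.esum hPD M.dev_local hD hS hψ0)
  have hΨe : ∀ (g : G) y, Ψ (g • y) = M.holHom g (Ψ y) := by
    intro g y
    simp only [hΨ]
    rw [esum_smul hPD hS hψ0, hD, affine_add]
  have hlin : ∀ (g : G) (v : V), f (clin (M.holHom g) v) = A g (f v) := fun g v => hA g v
  have hΨf : ∀ y, f (Ψ y) = w y := by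
    intro y
    obtain ⟨T, hT, hT1⟩ := hρw.2 y
    simp only [hΨ, map_add]
    rw [esum_eq (h := M.holHom) (T := T) fun g hg => by
      simp only [hψ]
      rw [hT g hg, zero_smul], map_sum]
    have h1 : ∀ g ∈ T, f (clin (M.holHom g) (ψ (g⁻¹ • y))) =
        ρ (g⁻¹ • y) • (w y - f (M.dev y)) := by
      intro g _
      rw [hlin]
      simp only [hψ]
      rw [map_smul, map_smul, hσ, ← hw g (g⁻¹ • y), smul_inv_smul]
    rw [Finset.sum_congr rfl h1, ← Finset.sum_smul, hT1, one_smul]
    abel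
  exact no_singular (Measure.addHaar : Measure V) hPD M.covering.free M.dev_local hD M.volume_hol
    M.covering.cocompact hΨl hΨe fun e he => (ae_restrict_iff' e.open_target.measurableSet).mpr
      (ae_of_all _ fun x hx => det_zero_of_quotient hf hlip hne hray hΨf e he hx)

end

end Pool.Agent.Helper2.MK
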