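import Pool.Agent.Helper2.MK.Key

set_option autoImplicit false
set_option linter.unusedSectionVars false

open Set MeasureTheory Metric Filter Topology
open scoped NNReal ENNReal Pointwise

namespace Pool.Agent.Helper2.MK

section convex

variable {V : Type*} [NormedAddCommGroup V] [NormedSpace ℝ V]

/-- The gauge of `C - c` at `w`. -/
noncomputable def gg (C : Set V) (c w : V) : ℝ := gauge {z | c + z ∈ C} w

variable {C : Set V}

theorem convex_tr (hC : Convex ℝ C) (c : V) : Convex ℝ {z | c + z ∈ C} := by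
  intro x hx y hy a b ha hb hab
  have h1 := hC hx hy ha hb hab
  have h2 : a • (c + x) + b • (c + y) = c + (a • x + b • y) := by
    have : c = a • c + b • c := by rw [← add_smul, hab, one_smul]
    nth_rewrite 3 [this]
    simp only [smul_add]
    abel
  rw [h2] at h1
  exact h1

theorem isOpen_tr (hC : IsOpen C) (c : V) : IsOpen {z | c + z ∈ C} :=
  hC.preimage (continuous_const.add continuous_id)

theorem nhds_tr (hC : IsOpen C) {c : V} (hc : c ∈ C) : {z | c + z ∈ C} ∈ 𝓝 (0 : V) :=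
  (isOpen_tr hC c).mem_nhds (by simpa using hc)

theorem ball_tr {c : V} {r : ℝ} (h : ball c r ⊆ C) : ball (0 : V) r ⊆ {z | c + z ∈ C} := by
  intro z hz
  apply h
  rw [mem_ball, dist_eq_norm, add_sub_cancel_left]
  simpa using hz

theorem gg_nonneg (C : Set V) (c w : V) : 0 ≤ gg C c w := gauge_nonneg _

theorem gg_le {c : V} {r : ℝ} (hr : 0 < r) (h : ball c r ⊆ C) (w : V) :
    gg C c w ≤ ‖w‖ / r := by
  rw [le_div_iff₀ hr, mul_comm]
  exact mul_gauge_le_norm (ball_tr h)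

theorem gg_lip_w (hC : Convex ℝ C) {c : V} {r : ℝ} (hr : 0 < r) (h : ball c r ⊆ C) (w w' : V) :
    |gg C c w - gg C c w'| ≤ r⁻¹ * ‖w - w'‖ := by
  have h1 := (convex_tr hC c).lipschitzWith_gauge (r := ⟨r, hr.le⟩) hr (ball_tr h)
  have h2 := h1.dist_le_mul w w'
  rw [Real.dist_eq, dist_eq_norm] at h2
  exact h2

theorem gg_c_le (hC : Convex ℝ C) {c c' : V} {r θ : ℝ} (hr : 0 < r) (h : ball c r ⊆ C)
    (hθ : 0 < θ) (hθ1 : θ < 1) (hcc : ‖c' - c‖ < θ * r) (w : V) :
    gg C c' w ≤ gg C c w / (1 - θ) := by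
  have h1θ : 0 < 1 - θ := by linarith
  have habs : Absorbent ℝ {z | c + z ∈ C} :=
    absorbent_nhds_zero (mem_of_superset (ball_mem_nhds 0 hr) (ball_tr h))
  apply le_of_forall_gt
  intro a ha
  rw [div_lt_iff₀ h1θ] at ha
  obtain ⟨b, hb0, hb, k, hk, hkw⟩ := exists_lt_of_gauge_lt habs ha
  simp only at hkw
  have hk' : c + k ∈ C := hk
  have h2 : gg C c' w ≤ b / (1 - θ) := by
    apply gauge_le_of_mem (by positivity)
    refine ⟨(1 - θ) • k, ?_, ?_⟩
    · have h3 : c + θ⁻¹ • (c' - c) ∈ C := by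
        apply h
        rw [mem_ball, dist_eq_norm, add_sub_cancel_left, norm_smul, norm_inv,
          Real.norm_of_nonneg hθ.le, inv_mul_lt_iff₀ hθ]
        exact hcc
      have h4 := hC hk' h3 h1θ.le hθ.le (by ring)
      have h5 : (1 - θ) • (c + k) + θ • (c + θ⁻¹ • (c' - c)) = c' + (1 - θ) • k := by
        rw [smul_add θ, smul_smul, mul_inv_cancel₀ hθ.ne', one_smul]
        module
      rw [h5] at h4
      exact h4
    · simp only [smul_smul]
      rw [div_mul_cancel₀ _ h1θ.ne']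
      exact hkw
  refine h2.trans_lt ?_
  rw [div_lt_iff₀ h1θ]
  exact hb

theorem gg_locLip (hC : Convex ℝ C) (hCo : IsOpen C) {c₀ : V} (hc₀ : c₀ ∈ C) (w₀ : V) :
    ∃ t ∈ 𝓝 (c₀, w₀), ∃ L : ℝ, 0 ≤ L ∧ ∀ a ∈ t, ∀ b ∈ t,
      ‖gg C a.1 a.2 - gg C b.1 b.2‖ ≤ L * ‖a - b‖ := by
  obtain ⟨r', hr', hball⟩ := Metric.isOpen_iff.mp hCo c₀ hc₀
  set r := r' / 2 with hr
  have hrpos : 0 < r := by positivity
  set M := ‖w₀‖ + 1 with hM
  have hMpos : 0 < M := by positivity
  have hb : ∀ c ∈ ball c₀ (r / 8), ball c r ⊆ C := by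
    intro c hc
    refine Subset.trans (ball_subset_ball' ?_) hball
    rw [mem_ball] at hc
    linarith
  -- one sided estimate in the base point
  have hbase : ∀ c ∈ ball c₀ (r / 8), ∀ c' ∈ ball c₀ (r / 8), ∀ w : V, ‖w‖ ≤ M →
      gg C c' w - gg C c w ≤ 4 * M / r ^ 2 * ‖c' - c‖ := by
    intro c hc c' hc' w hw
    by_cases hd : c' = c
    · rw [hd]; simp
    · have hdpos : 0 < ‖c' - c‖ := norm_pos_iff.mpr (sub_ne_zero.mpr hd)
      have hdlt : ‖c' - c‖ < r / 4 := by
        rw [mem_ball] at hc hc'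
        rw [← dist_eq_norm]
        have := dist_triangle_right c' c c₀
        linarith
      set θ := 2 * ‖c' - c‖ / r with hθ
      have hθpos : 0 < θ := by positivity
      have hθlt : θ < 1 / 2 := by
        rw [hθ, div_lt_iff₀ hrpos]
        linarith
      have h1 := gg_c_le hC hrpos (hb c hc) hθpos (by linarith) (c' := c') (by
        rw [hθ, div_mul_cancel₀ _ hrpos.ne']; linarith) w
      have h2 : gg C c w ≤ M / r := (gg_le hrpos (hb c hc) w).trans (by gcongr)
      have h3 : gg C c w / (1 - θ) ≤ gg C c w * (1 + 2 * θ) := by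
        rw [div_le_iff₀ (by linarith), mul_assoc]
        apply le_mul_of_one_le_right (gg_nonneg _ _ _)
        nlinarith
      have h4 := gg_nonneg C c w
      calc gg C c' w - gg C c w ≤ gg C c w * (2 * θ) := by linarith
        _ ≤ M / r * (2 * θ) := by gcongr
        _ = 4 * M / r ^ 2 * ‖c' - c‖ := by rw [hθ]; field_simp; ring
  refine ⟨ball c₀ (r / 8) ×ˢ ball w₀ 1, prod_mem_nhds (ball_mem_nhds _ (by positivity))
    (ball_mem_nhds _ one_pos), r⁻¹ + 4 * M / r ^ 2, by positivity, ?_⟩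
  rintro ⟨c, w⟩ ⟨hc, hw⟩ ⟨c', w'⟩ ⟨hc', hw'⟩
  simp only at hc hw hc' hw' ⊢
  have hwM : ∀ w ∈ ball w₀ 1, ‖w‖ ≤ M := by
    intro w hw
    rw [mem_ball, dist_eq_norm] at hw
    have := norm_sub_norm_le w w₀
    linarith
  have h1 := gg_lip_w hC hrpos (hb c hc) w w'
  have h2 : |gg C c w' - gg C c' w'| ≤ 4 * M / r ^ 2 * ‖c - c'‖ := by
    rw [abs_le]
    constructor
    · have := hbase c hc c' hc' w' (hwM w' hw')
      rw [norm_sub_rev] at this
      linarith
    · exact hbase c' hc' c hc w' (hwM w' hw')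
  have h3 : ‖w - w'‖ ≤ ‖(c, w) - (c', w')‖ := by
    rw [Prod.mk_sub_mk, Prod.norm_mk]; exact le_max_right _ _
  have h4 : ‖c - c'‖ ≤ ‖(c, w) - (c', w')‖ := by
    rw [Prod.mk_sub_mk, Prod.norm_mk]; exact le_max_left _ _
  rw [Real.norm_eq_abs]
  calc |gg C c w - gg C c' w'| = |(gg C c w - gg C c w') + (gg C c w' - gg C c' w')| := by
        congr 1; ring
    _ ≤ |gg C c w - gg C c w'| + |gg C c w' - gg C c' w'| := abs_add_le _ _
    _ ≤ r⁻¹ * ‖w - w'‖ + 4 * M / r ^ 2 * ‖c - c'‖ := add_le_add h1 h2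
    _ ≤ r⁻¹ * ‖(c, w) - (c', w')‖ + 4 * M / r ^ 2 * ‖(c, w) - (c', w')‖ := by gcongr
    _ = _ := by ring

/-- Points of `B` are all on the boundary of the convex hull of `B`. -/
def Supp (B : Set V) : Prop := ∀ p ∈ B, ∃ ℓ : V →L[ℝ] ℝ, ℓ ≠ 0 ∧ ∀ q ∈ B, ℓ q ≤ ℓ p

theorem frontier_supp (hC : Convex ℝ C) (hCo : IsOpen C) (hne : C.Nonempty) :
    Supp (frontier C) := by
  intro p hp
  have hpC : p ∉ C := by
    rw [hCo.frontier_eq] at hp
    exact hp.2
  obtain ⟨ℓ, hℓ⟩ := geometric_hahn_banach_open_point hC hCo hpC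
  refine ⟨ℓ, ?_, ?_⟩
  · rintro rfl
    obtain ⟨x, hx⟩ := hne
    simpa using hℓ x hx
  · intro q hq
    have h1 : closure C ⊆ {q | ℓ q ≤ ℓ p} :=
      closure_minimal (fun x hx => (hℓ x hx).le) (isClosed_le ℓ.continuous continuous_const)
    exact h1 (frontier_subset_closure hq)

theorem hit_frontier (hC : Convex ℝ C) (hCo : IsOpen C) {c w : V} (hc : c ∈ C)
    (hpos : 0 < gg C c w) : c + (gg C c w)⁻¹ • w ∈ frontier C := by
  have h1 : gauge {z | c + z ∈ C} ((gg C c w)⁻¹ • w) = 1 := by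
    rw [gauge_smul_of_nonneg (inv_nonneg.mpr hpos.le), smul_eq_mul]
    exact inv_mul_cancel₀ hpos.ne'
  rw [gauge_eq_one_iff_mem_frontier (convex_tr hC c) (nhds_tr hCo hc)] at h1
  have h2 : {z | c + z ∈ C} = (Homeomorph.addLeft c) ⁻¹' C := rfl
  rw [h2, ← Homeomorph.preimage_frontier] at h1
  exact h1

theorem ray_of_gg_eq_zero (hC : Convex ℝ C) (hCo : IsOpen C) {c w : V} (hc : c ∈ C)
    (h0 : gg C c w = 0) {t : ℝ} (ht : 0 ≤ t) : c + t • w ∈ C := by
  rcases ht.eq_or_lt with rfl | ht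
  · simpa using hc
  · have habs : Absorbent ℝ {z | c + z ∈ C} := absorbent_nhds_zero (nhds_tr hCo hc)
    have h1 : gauge {z | c + z ∈ C} w < t⁻¹ := by
      have : gauge {z | c + z ∈ C} w = 0 := h0
      rw [this]; positivity
    obtain ⟨b, hb0, hb, k, hk, hkw⟩ := exists_lt_of_gauge_lt habs h1
    simp only at hkw
    have h2 : t * b ≤ 1 := by
      have := mul_lt_mul_of_pos_left hb ht
      rw [mul_inv_cancel₀ ht.ne'] at this
      exact this.le
    have h3 : (t * b) • k ∈ {z | c + z ∈ C} :=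
      (convex_tr hC c).smul_mem_of_zero_mem (by simpa using hc) hk ⟨by positivity, h2⟩
    rw [← smul_smul, hkw] at h3
    exact h3

theorem rec_of_ray (hC : Convex ℝ C) (hCo : IsOpen C) {c w : V}
    (hray : ∀ t : ℝ, 0 ≤ t → c + t • w ∈ C) : ∀ x ∈ C, x + w ∈ C := by
  intro x hx
  have h1 : ∀ᶠ ε : ℝ in 𝓝 0, x + ε • (x - c) ∈ C := by
    have hcont : Continuous fun ε : ℝ => x + ε • (x - c) := by fun_prop
    apply hcont.continuousAt.eventually
    apply hCo.mem_nhds
    simpa using hx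
  obtain ⟨ε, hε, hεpos⟩ := (h1.filter_mono nhdsWithin_le_nhds |>.and
    (self_mem_nhdsWithin (s := Ioi (0 : ℝ)))).exists
  set s := ε / (1 + ε) with hs
  have hspos : 0 < s := by positivity
  have hs1 : s < 1 := by rw [hs, div_lt_one (by positivity)]; linarith
  have h2 := hC hε (hray s⁻¹ (by positivity)) (by linarith : 0 ≤ 1 - s) hspos.le (by ring)
  have h3 : (1 - s) • (x + ε • (x - c)) + s • (c + s⁻¹ • w) = x + w := by
    rw [smul_add s, smul_smul, mul_inv_cancel₀ hspos.ne', one_smul]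
    have h4 : (1 - s) * ε = s := by rw [hs]; field_simp; ring
    rw [smul_add, smul_smul, h4]
    module
  rw [h3] at h2
  exact h2

/-- The recession directions. -/
def recDir (C : Set V) : Set V := {v | ∀ x ∈ C, x + v ∈ C}

theorem rec_add {v w : V} (hv : v ∈ recDir C) (hw : w ∈ recDir C) : v + w ∈ recDir C := by
  intro x hx
  rw [← add_assoc]
  exact hw _ (hv _ hx)

theorem rec_zero : (0 : V) ∈ recDir C := fun x hx => by simpa using hx

theorem rec_nsmul {v : V} (hv : v ∈ recDir C) (n : ℕ) : n • v ∈ recDir C := by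
  induction n with
  | zero => simpa using rec_zero
  | succ n ih => rw [succ_nsmul]; exact rec_add ih hv

theorem rec_smul (hC : Convex ℝ C) {v : V} (hv : v ∈ recDir C) {t : ℝ} (ht : 0 ≤ t) :
    t • v ∈ recDir C := by
  intro x hx
  obtain ⟨n, hn⟩ := exists_nat_ge t
  rcases ht.eq_or_lt with rfl | ht
  · simpa using hx
  have hnpos : (0 : ℝ) < n := ht.trans_le hn
  have h1 := rec_nsmul hv n x hx
  have h2 := hC hx h1 (by rw [sub_nonneg, div_le_one hnpos]; exact hn : 0 ≤ 1 - t / n)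
    (by positivity : 0 ≤ t / n) (by ring)
  have h3 : (1 - t / n) • x + (t / n) • (x + n • v) = x + t • v := by
    rw [smul_add, ← Nat.cast_smul_eq_nsmul ℝ n v, smul_smul, div_mul_cancel₀ _ hnpos.ne']
    module
  rw [h3] at h2
  exact h2

theorem convex_rec' (hC : Convex ℝ C) : Convex ℝ {v | v ∈ recDir C ∧ -v ∉ recDir C} := by
  rintro v ⟨hv, hv'⟩ w ⟨hw, hw'⟩ a b ha hb hab
  refine ⟨rec_add (rec_smul hC hv ha) (rec_smul hC hw hb), fun hcon => ?_⟩
  rcases ha.eq_or_lt with rfl | ha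
  · rw [zero_add] at hab
    rw [hab, zero_smul, one_smul, zero_add] at hcon
    exact hw' hcon
  · apply hv'
    have h1 := rec_smul hC (rec_add hcon (rec_smul hC hw hb)) (inv_nonneg.mpr ha.le)
    have h2 : a⁻¹ • (-(a • v + b • w) + b • w) = -v := by
      have : -(a • v + b • w) + b • w = a • (-v) := by rw [smul_neg]; abel
      rw [this, smul_smul, inv_mul_cancel₀ ha.ne', one_smul]
    rw [h2] at h1
    exact h1

end convex

end Pool.Agent.Helper2.MK
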