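import Pool.Agent.Helper2.MK.Chart

set_option autoImplicit false
set_option linter.unusedSectionVars false

open Set MeasureTheory Metric Filter Topology
open scoped NNReal ENNReal

namespace Pool.Agent.Helper2.MK

variable {V : Type*} [NormedAddCommGroup V] [NormedSpace ℝ V] [FiniteDimensional ℝ V]
  [MeasurableSpace V] [BorelSpace V] (μ : Measure V) [μ.IsAddHaarMeasure]
variable {Y : Type*} [TopologicalSpace Y] [T2Space Y]
variable {G : Type*} [Group G] [MulAction G Y] [ContinuousConstSMul G Y]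
variable {D : Y → V} {h : G →* (V ≃ᵃ[ℝ] V)}

/-- Proper discontinuity: only finitely many translates of a compact set meet a compact set. -/
def PD (G Y : Type*) [Group G] [TopologicalSpace Y] [MulAction G Y] : Prop :=
  ∀ K : Set Y, IsCompact K → {g : G | (((fun y => g • y) '' K) ∩ K).Nonempty}.Finite

theorem PD.two (hPD : PD G Y) {K L : Set Y} (hK : IsCompact K) (hL : IsCompact L) :
    {g : G | (((fun y => g • y) '' K) ∩ L).Nonempty}.Finite := by
  refine (hPD (K ∪ L) (hK.union hL)).subset ?_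
  rintro g ⟨z, ⟨y, hy, rfl⟩, hz⟩
  exact ⟨g • y, ⟨y, Or.inl hy, rfl⟩, Or.inr hz⟩

theorem unfold_integral (hPD : PD G Y) (hD : ∀ (g : G) y, D (g • y) = h g (D y))
    (hdet : ∀ g, |LinearMap.det ((h g).linear : V →ₗ[ℝ] V)| = 1)
    {J : Type*} [Fintype J] {e : J → OpenPartialHomeomorph Y V} (he : ∀ j, ⇑(e j) = D)
    {S : J → Set Y} (hS : ∀ j, IsCompact (S j)) (hSe : ∀ j, S j ⊆ (e j).source)
    {ρ : J → Y → ℝ} (hρ0 : ∀ j, ∀ y ∉ S j, ρ j y = 0) (hρc : ∀ j, Continuous (ρ j))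
    (hsum : ∀ y, ∀ T : Finset G, (∀ g ∉ T, ∀ j, ρ j (g • y) = 0) → ∑ g ∈ T, ∑ j, ρ j (g • y) = 1)
    {e₀ : OpenPartialHomeomorph Y V} (he₀ : ⇑e₀ = D) {S₀ : Set Y} (hS₀ : IsCompact S₀)
    (hSe₀ : S₀ ⊆ e₀.source)
    (hdisj : ∀ g : G, g ≠ 1 → Disjoint ((fun y => g • y) '' S₀) S₀)
    {Φ : Y → ℝ} (hΦinv : ∀ (g : G) y, Φ (g • y) = Φ y)
    (hΦsupp : ∀ y, Φ y ≠ 0 → ∃ g : G, y ∈ (fun y => g • y) '' S₀) (hΦint : DInt μ D Φ) :
    ∑ j, ∫ x in D '' S j, ρ j ((e j).symm x) * Φ ((e j).symm x) ∂μ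
      = ∫ x in D '' S₀, Φ (e₀.symm x) ∂μ := by
  classical
  have hfin : ({g : G | ∃ j, (((fun y => g • y) '' S₀) ∩ S j).Nonempty}).Finite := by
    have : {g : G | ∃ j, (((fun y => g • y) '' S₀) ∩ S j).Nonempty}
        = ⋃ j, {g : G | (((fun y => g • y) '' S₀) ∩ S j).Nonempty} := by
      ext g; simp
    rw [this]
    exact finite_iUnion fun j => hPD.two hS₀ (hS j)
  set T : Finset G := hfin.toFinset with hT
  have hTmem : ∀ g : G, g ∉ T → ∀ j, ∀ z ∈ S₀, g • z ∉ S j := by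
    intro g hg j z hz hcon
    apply hg
    rw [hT, Finite.mem_toFinset]
    exact ⟨j, g • z, ⟨z, hz, rfl⟩, hcon⟩
  have hcs : ∀ g : G, Continuous fun y : Y => g • y := fun g => continuous_const_smul g
  -- the pieces
  have hpc : ∀ (g : G) j, IsCompact (S₀ ∩ (fun y => g • y) ⁻¹' S j) := fun g j =>
    hS₀.inter_right ((hS j).isClosed.preimage (hcs g))
  have hpiece : ∀ (g : G) j, (fun y => g • y) '' (S₀ ∩ (fun y => g • y) ⁻¹' S j) ⊆ S j := by
    rintro g j _ ⟨y, hy, rfl⟩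
    exact hy.2
  have key : ∀ j, ∫ x in D '' S j, ρ j ((e j).symm x) * Φ ((e j).symm x) ∂μ
      = ∑ g ∈ T, ∫ x in D '' S₀, ρ j (g • e₀.symm x) * Φ (e₀.symm x) ∂μ := by
    intro j
    set P : G → Set V := fun g => D '' ((fun y => g • y) '' (S₀ ∩ (fun y => g • y) ⁻¹' S j))
      with hP
    have hPc : ∀ g, IsCompact (P g) := fun g =>
      isCompact_image (he j) ((hpiece g j).trans (hSe j)) ((hpc g j).image (hcs g))
    have hPsub : ∀ g, P g ⊆ D '' S j := fun g => image_mono (hpiece g j)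
    have hdint : DInt μ D (fun y => ρ j y * Φ y) := hΦint.cont_mul μ (hρc j)
    have s1 : ∫ x in D '' S j, ρ j ((e j).symm x) * Φ ((e j).symm x) ∂μ
        = ∫ x in ⋃ g ∈ T, P g, ρ j ((e j).symm x) * Φ ((e j).symm x) ∂μ := by
      apply setIntegral_eq_of_subset_of_forall_sdiff_eq_zero
        (isCompact_image (he j) (hSe j) (hS j)).measurableSet
      · exact iUnion₂_subset fun g _ => hPsub g
      · rintro x ⟨⟨y, hy, rfl⟩, hx⟩
        rw [symm_D (he j) (hSe j hy)]
        by_contra hcon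
        have hΦ : Φ y ≠ 0 := fun h0 => hcon (by rw [h0, mul_zero])
        obtain ⟨g, z, hz, hzy⟩ := hΦsupp y hΦ
        apply hx
        simp only at hzy
        have hgT : g ∈ T := by
          by_contra hg
          exact hTmem g hg j z hz (by rw [hzy]; exact hy)
        refine mem_iUnion₂.mpr ⟨g, hgT, ?_⟩
        refine ⟨y, ⟨z, ⟨hz, ?_⟩, hzy⟩, rfl⟩
        rw [mem_preimage, hzy]
        exact hy
    have s2 : ∫ x in ⋃ g ∈ T, P g, ρ j ((e j).symm x) * Φ ((e j).symm x) ∂μ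
        = ∑ g ∈ T, ∫ x in P g, ρ j ((e j).symm x) * Φ ((e j).symm x) ∂μ := by
      apply integral_biUnion_finset
      · exact fun g _ => (hPc g).measurableSet
      · intro g _ g' _ hgg'
        simp only [Function.onFun]
        rw [Set.disjoint_left]
        rintro x ⟨y, hy, rfl⟩ ⟨y', hy', hyy'⟩
        have hy1 := hSe j (hpiece g j hy)
        have hy2 := hSe j (hpiece g' j hy')
        have : y' = y := by
          rw [← symm_D (he j) hy2, hyy', symm_D (he j) hy1]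
        subst this
        obtain ⟨z, hz, hzy⟩ := hy
        obtain ⟨z', hz', hzy'⟩ := hy'
        simp only at hzy hzy'
        have h3 : (g'⁻¹ * g) • z = z' := by
          rw [mul_smul, hzy, ← hzy', inv_smul_smul]
        have h4 : g'⁻¹ * g ≠ 1 := fun h5 => hgg' (by
          have := congrArg (fun t => g' * t) h5
          simpa using this)
        exact (Set.disjoint_left.mp (hdisj _ h4)) ⟨z, hz.1, h3⟩ hz'.1
      · intro g _
        exact (hdint (e j) (he j) _ ((hpiece g j).trans (hSe j)) ((hpc g j).image (hcs g)))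
    have s3 : ∀ g, ∫ x in P g, ρ j ((e j).symm x) * Φ ((e j).symm x) ∂μ
        = ∫ x in D '' S₀, ρ j (g • e₀.symm x) * Φ (e₀.symm x) ∂μ := by
      intro g
      have h1 := chart_change μ (hdet g) (s := fun y => g • y) (hD g) he₀ (he j) (hpc g j)
        (inter_subset_left.trans hSe₀) ((hpiece g j).trans (hSe j)) (fun y => ρ j y * Φ y)
      rw [hP, h1]
      simp only [hΦinv]
      symm
      apply setIntegral_eq_of_subset_of_forall_sdiff_eq_zero
        (isCompact_image he₀ hSe₀ hS₀).measurableSet (image_mono inter_subset_left)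
      rintro x ⟨⟨y, hy, rfl⟩, hx⟩
      rw [symm_D he₀ (hSe₀ hy)]
      rw [hρ0 j (g • y), zero_mul]
      intro hcon
      exact hx ⟨y, ⟨hy, hcon⟩, rfl⟩
    rw [s1, s2]
    exact Finset.sum_congr rfl fun g _ => s3 g
  have hint : ∀ j (g : G), IntegrableOn (fun x => ρ j (g • e₀.symm x) * Φ (e₀.symm x))
      (D '' S₀) μ := fun j g =>
    (hΦint.cont_mul μ ((hρc j).comp (hcs g))) e₀ he₀ S₀ hSe₀ hS₀
  calc ∑ j, ∫ x in D '' S j, ρ j ((e j).symm x) * Φ ((e j).symm x) ∂μ
      = ∑ j, ∑ g ∈ T, ∫ x in D '' S₀, ρ j (g • e₀.symm x) * Φ (e₀.symm x) ∂μ :=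
        Finset.sum_congr rfl fun j _ => key j
    _ = ∑ g ∈ T, ∑ j, ∫ x in D '' S₀, ρ j (g • e₀.symm x) * Φ (e₀.symm x) ∂μ :=
        Finset.sum_comm
    _ = ∑ g ∈ T, ∫ x in D '' S₀, ∑ j, ρ j (g • e₀.symm x) * Φ (e₀.symm x) ∂μ := by
        refine Finset.sum_congr rfl fun g _ => ?_
        rw [integral_finsetSum _ fun j _ => hint j g]
    _ = ∫ x in D '' S₀, ∑ g ∈ T, ∑ j, ρ j (g • e₀.symm x) * Φ (e₀.symm x) ∂μ := by
        rw [integral_finsetSum _ fun g _ => integrable_finsetSum _ fun j _ => hint j g]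
    _ = ∫ x in D '' S₀, Φ (e₀.symm x) ∂μ := by
        apply setIntegral_congr_fun (isCompact_image he₀ hSe₀ hS₀).measurableSet
        rintro x ⟨y, hy, rfl⟩
        simp only
        rw [symm_D he₀ (hSe₀ hy)]
        simp_rw [← Finset.sum_mul]
        rw [hsum y T fun g hg j => hρ0 j _ (hTmem g hg j y hy), one_mul]

end Pool.Agent.Helper2.MK
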